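import Mathlib

/-!
A point at which the subdifferential of a convex function is differentiable (Aleksandrov's
theorem), through the resolvent map, Rademacher's theorem and Sard's lemma.
-/

namespace Pool.Agent.Helper63.PropB.Red

open Set Metric Filter Topology MeasureTheory Measure
open scoped ENNReal NNReal

section prox

variable {V : Type*} [NormedAddCommGroup V] [InnerProductSpace ℝ V]

/-- `g` is a subgradient of `Φ` at `p`. -/
def IsSubgrad (Φ : V → ℝ) (p g : V) : Prop := ∀ p' : V, Φ p + inner ℝ g (p' - p) ≤ Φ p'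

theorem IsSubgrad.mono {Φ : V → ℝ} {p g p' g' : V} (h : IsSubgrad Φ p g) (h' : IsSubgrad Φ p' g') :
    0 ≤ inner ℝ (p - p') (g - g') := by
  have h1 := h p'
  have h2 := h' p
  have h3 : inner ℝ (p - p') (g - g') = - inner ℝ g (p' - p) - inner ℝ g' (p - p') := by
    simp only [inner_sub_left, inner_sub_right, real_inner_comm]
    ring
  rw [h3]
  linarith

theorem exists_prox [FiniteDimensional ℝ V] {Φ : V → ℝ} (hconv : ConvexOn ℝ univ Φ)
    (hcont : Continuous Φ) (hsub : ∀ p, ∃ g : V, IsSubgrad Φ p g) (Z : V) :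
    ∃ p : V, IsSubgrad Φ p (Z - p) := by
  obtain ⟨g₀, hg₀⟩ := hsub Z
  set f : V → ℝ := fun p => Φ p + 1 / 2 * ‖p - Z‖ ^ 2 with hf
  have hfc : Continuous f := by fun_prop
  set R : ℝ := 2 * ‖g₀‖ + 1 with hR
  have hRpos : 0 < R := by positivity
  obtain ⟨p, hp, hmin⟩ := (isCompact_closedBall Z R).exists_isMinOn
    ⟨Z, mem_closedBall_self hRpos.le⟩ hfc.continuousOn
  have hmin' : ∀ x, f p ≤ f x := by
    intro x
    by_cases hx : x ∈ closedBall Z R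
    · exact hmin hx
    · rw [mem_closedBall, dist_eq_norm, not_le] at hx
      have h1 : f p ≤ f Z := hmin (mem_closedBall_self hRpos.le)
      have h2 : f Z = Φ Z := by simp [hf]
      have h3 := hg₀ x
      have h4 : -(‖g₀‖ * ‖x - Z‖) ≤ inner ℝ g₀ (x - Z) := by
        have := abs_real_inner_le_norm g₀ (x - Z)
        exact (abs_le.1 this).1
      have h5 : ‖g₀‖ * ‖x - Z‖ ≤ 1 / 2 * ‖x - Z‖ ^ 2 := by nlinarith [norm_nonneg (x - Z)]
      calc f p ≤ Φ Z := by rw [← h2]; exact h1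
        _ ≤ Φ x - inner ℝ g₀ (x - Z) := by linarith
        _ ≤ f x := by
          change _ ≤ Φ x + 1 / 2 * ‖x - Z‖ ^ 2
          linarith
  refine ⟨p, fun x => ?_⟩
  -- first order condition
  have hkey : ∀ s : ℝ, 0 < s → s ≤ 1 →
      Φ p + inner ℝ (Z - p) (x - p) ≤ Φ x + s * (1 / 2 * ‖x - p‖ ^ 2) := by
    intro s hs hs1
    have h1 := hmin' ((1 - s) • p + s • x)
    have h2 : Φ ((1 - s) • p + s • x) ≤ (1 - s) * Φ p + s * Φ x :=
      hconv.2 (mem_univ _) (mem_univ _) (by linarith) hs.le (by ring)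
    have h3 : (1 - s) • p + s • x - Z = (p - Z) + s • (x - p) := by module
    have h4 : ‖(1 - s) • p + s • x - Z‖ ^ 2
        = ‖p - Z‖ ^ 2 + 2 * s * inner ℝ (p - Z) (x - p) + s ^ 2 * ‖x - p‖ ^ 2 := by
      rw [h3, norm_add_sq_real, real_inner_smul_right, norm_smul, mul_pow, Real.norm_eq_abs,
        sq_abs]
      ring
    have h5 : Φ p + 1 / 2 * ‖p - Z‖ ^ 2
        ≤ (1 - s) * Φ p + s * Φ x + 1 / 2 * (‖p - Z‖ ^ 2 + 2 * s * inner ℝ (p - Z) (x - p)
          + s ^ 2 * ‖x - p‖ ^ 2) := by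
      have h6 : f p ≤ f ((1 - s) • p + s • x) := h1
      simp only [hf] at h6
      rw [h4] at h6
      linarith
    have h6 : inner ℝ (p - Z) (x - p) = - inner ℝ (Z - p) (x - p) := by
      rw [← inner_neg_left, neg_sub]
    rw [h6] at h5
    have h7 : s * (Φ p + inner ℝ (Z - p) (x - p)) ≤ s * (Φ x + s * (1 / 2 * ‖x - p‖ ^ 2)) := by
      nlinarith
    exact le_of_mul_le_mul_left h7 hs
  refine le_of_forall_pos_le_add (fun ε hε => ?_)
  set s : ℝ := min 1 (ε / (1 / 2 * ‖x - p‖ ^ 2 + 1)) with hs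
  have hden : 0 < 1 / 2 * ‖x - p‖ ^ 2 + 1 := by positivity
  have hspos : 0 < s := lt_min one_pos (by positivity)
  have h1 := hkey s hspos (min_le_left _ _)
  have h2 : s * (1 / 2 * ‖x - p‖ ^ 2) ≤ ε := by
    have h3 : s ≤ ε / (1 / 2 * ‖x - p‖ ^ 2 + 1) := min_le_right _ _
    calc s * (1 / 2 * ‖x - p‖ ^ 2) ≤ s * (1 / 2 * ‖x - p‖ ^ 2 + 1) := by
          gcongr; linarith
      _ ≤ ε / (1 / 2 * ‖x - p‖ ^ 2 + 1) * (1 / 2 * ‖x - p‖ ^ 2 + 1) := by gcongr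
      _ = ε := by field_simp
  linarith

/-- Existence of a point of differentiability of the subdifferential in every open set. -/
theorem exists_alexandrov_point [FiniteDimensional ℝ V] [MeasurableSpace V] [BorelSpace V]
    {Φ : V → ℝ} (hconv : ConvexOn ℝ univ Φ)
    (hcont : Continuous Φ) (hsub : ∀ p, ∃ g : V, IsSubgrad Φ p g)
    {U : Set V} (hU : IsOpen U) (hne : U.Nonempty) :
    ∃ p ∈ U, ∃ g : V, ∃ q : V →L[ℝ] V, ∀ ε : ℝ, 0 < ε → ∃ r : ℝ, 0 < r ∧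
      ∀ p' g' : V, ‖p' - p‖ < r → IsSubgrad Φ p' g' →
        ‖g' - g - q (p' - p)‖ ≤ ε * ‖p' - p‖ := by
  choose J hJ using exists_prox hconv hcont hsub
  have hfirm : ∀ Z Z', ‖J Z - J Z'‖ ^ 2 ≤ inner ℝ (J Z - J Z') (Z - Z') := by
    intro Z Z'
    have h1 := (hJ Z).mono (hJ Z')
    have h2 : (Z - J Z) - (Z' - J Z') = (Z - Z') - (J Z - J Z') := by abel
    rw [h2, inner_sub_right, real_inner_self_eq_norm_sq] at h1
    linarith
  have hlip1 : ∀ Z Z', ‖J Z - J Z'‖ ≤ ‖Z - Z'‖ := by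
    intro Z Z'
    have h1 := hfirm Z Z'
    have h2 := (abs_le.1 (abs_real_inner_le_norm (J Z - J Z') (Z - Z'))).2
    by_contra hcon
    push Not at hcon
    have h3 := norm_nonneg (Z - Z')
    nlinarith
  have hlip : LipschitzWith 1 J := by
    refine LipschitzWith.of_dist_le_mul (fun Z Z' => ?_)
    rw [dist_eq_norm, dist_eq_norm, NNReal.coe_one, one_mul]
    exact hlip1 Z Z'
  have hJeq : ∀ p g : V, IsSubgrad Φ p g → J (p + g) = p := by
    intro p g hg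
    have h1 := (hJ (p + g)).mono hg
    have h2 : (p + g - J (p + g)) - g = -(J (p + g) - p) := by abel
    rw [h2, inner_neg_right, real_inner_self_eq_norm_sq] at h1
    have h3 : ‖J (p + g) - p‖ ^ 2 ≤ 0 := by linarith
    have h4 : ‖J (p + g) - p‖ = 0 :=
      (pow_eq_zero_iff two_ne_zero).1 (le_antisymm h3 (sq_nonneg _))
    exact sub_eq_zero.1 (norm_eq_zero.1 h4)
  have hJsurj : ∀ p, ∃ Z, J Z = p := by
    intro p
    obtain ⟨g, hg⟩ := hsub p
    exact ⟨p + g, hJeq p g hg⟩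
  -- the good point
  set μ : Measure V := μH[(Module.finrank ℝ V : ℝ)] with hμ
  have hk0 : (0 : ℝ) ≤ (Module.finrank ℝ V : ℝ) := Nat.cast_nonneg _
  obtain ⟨Z, hZU, hZd, hZdet⟩ : ∃ Z, J Z ∈ U ∧ DifferentiableAt ℝ J Z ∧ (fderiv ℝ J Z).det ≠ 0 := by
    by_contra hcon
    push Not at hcon
    set B₁ : Set V := {Z | ¬ DifferentiableAt ℝ J Z} with hB₁
    set B₂ : Set V := {Z | DifferentiableAt ℝ J Z ∧ (fderiv ℝ J Z).det = 0} with hB₂
    have h1 : μ (J '' B₁) = 0 := by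
      have h2 : μ B₁ = 0 := by
        have := hlip.ae_differentiableAt (μ := μ)
        rwa [ae_iff] at this
      refine le_antisymm ?_ bot_le
      calc μ (J '' B₁) ≤ ((1 : ℝ≥0) : ℝ≥0∞) ^ (Module.finrank ℝ V : ℝ) * μ B₁ :=
            hlip.hausdorffMeasure_image_le hk0 B₁
        _ = 0 := by rw [h2, mul_zero]
    have h2 : μ (J '' B₂) = 0 := by
      refine addHaar_image_eq_zero_of_det_fderivWithin_eq_zero μ (f' := fun Z => fderiv ℝ J Z)
        (fun Z hZ => ?_) (fun Z hZ => hZ.2)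
      exact hZ.1.hasFDerivAt.hasFDerivWithinAt
    have h3 : U ⊆ J '' B₁ ∪ J '' B₂ := by
      intro p hp
      obtain ⟨Z, rfl⟩ := hJsurj p
      by_cases hd : DifferentiableAt ℝ J Z
      · exact Or.inr ⟨Z, ⟨hd, hcon Z hp hd⟩, rfl⟩
      · exact Or.inl ⟨Z, hd, rfl⟩
    have h4 : μ U = 0 := measure_mono_null h3 (measure_union_null h1 h2)
    have h5 : 0 < μ U := hU.measure_pos μ hne
    exact h5.ne' h4
  set 𝒥 : V ≃L[ℝ] V := (fderiv ℝ J Z).toContinuousLinearEquivOfDetNeZero hZdet with h𝒥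
  have h𝒥c : (𝒥 : V →L[ℝ] V) = fderiv ℝ J Z :=
    ContinuousLinearMap.coe_toContinuousLinearEquivOfDetNeZero _ hZdet
  set K : ℝ := ‖(𝒥.symm : V →L[ℝ] V)‖ + 1 with hK
  have hKpos : 0 < K := by positivity
  have hKinv : ∀ v, ‖v‖ ≤ K * ‖𝒥 v‖ := by
    intro v
    calc ‖v‖ = ‖(𝒥.symm : V →L[ℝ] V) (𝒥 v)‖ := by simp
      _ ≤ ‖(𝒥.symm : V →L[ℝ] V)‖ * ‖𝒥 v‖ := (𝒥.symm : V →L[ℝ] V).le_opNorm _
      _ ≤ K * ‖𝒥 v‖ := by gcongr; rw [hK]; linarith
  -- the derivative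
  have hder : ∀ η : ℝ, 0 < η → ∃ t₀ : ℝ, 0 < t₀ ∧ ∀ v, ‖v‖ ≤ t₀ →
      ‖J (Z + v) - J Z - 𝒥 v‖ ≤ η * ‖v‖ := by
    intro η hη
    have h1 := hZd.hasFDerivAt
    rw [← h𝒥c, hasFDerivAt_iff_isLittleO_nhds_zero] at h1
    have h2 := h1.def hη
    rw [Metric.eventually_nhds_iff] at h2
    obtain ⟨t₀, ht₀, h3⟩ := h2
    refine ⟨t₀ / 2, by positivity, fun v hv => ?_⟩
    have h4 : dist v 0 < t₀ := by rw [dist_zero_right]; linarith
    exact h3 h4
  refine ⟨J Z, hZU, Z - J Z, (𝒥.symm : V →L[ℝ] V) - ContinuousLinearMap.id ℝ V, ?_⟩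
  intro ε hε
  set c : ℝ := 1 / (2 * K) with hc
  have hcpos : 0 < c := by positivity
  set η : ℝ := min c (ε * c / K) with hη
  have hηpos : 0 < η := lt_min hcpos (by positivity)
  obtain ⟨t₀, ht₀, hd⟩ := hder η hηpos
  have hlow : ∀ v, ‖v‖ ≤ t₀ → c * ‖v‖ ≤ ‖J (Z + v) - J Z‖ := by
    intro v hv
    have h1 := hd v hv
    have h2 : ‖𝒥 v‖ ≤ ‖J (Z + v) - J Z‖ + ‖J (Z + v) - J Z - 𝒥 v‖ := by
      have : 𝒥 v = (J (Z + v) - J Z) - (J (Z + v) - J Z - 𝒥 v) := by abel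
      calc ‖𝒥 v‖ = ‖(J (Z + v) - J Z) - (J (Z + v) - J Z - 𝒥 v)‖ := by rw [← this]
        _ ≤ _ := norm_sub_le _ _
    have h3 := hKinv v
    have h4 : 2 * c * ‖v‖ ≤ ‖𝒥 v‖ := by
      have h5 : 2 * c * ‖v‖ ≤ 2 * c * (K * ‖𝒥 v‖) := by gcongr
      have h6 : 2 * c * (K * ‖𝒥 v‖) = ‖𝒥 v‖ := by rw [hc]; field_simp
      linarith
    have h5 : η * ‖v‖ ≤ c * ‖v‖ := by gcongr; exact min_le_left _ _
    linarith
  refine ⟨c ^ 2 * t₀, by positivity, fun p' g' hp' hg' => ?_⟩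
  set v : V := (p' + g') - Z with hv
  have hZv : Z + v = p' + g' := by rw [hv]; abel
  have hJv : J (Z + v) = p' := by rw [hZv]; exact hJeq p' g' hg'
  have hvsmall : ‖v‖ ≤ t₀ := by
    by_contra hcon
    push Not at hcon
    have hvpos : 0 < ‖v‖ := ht₀.trans hcon
    set d : V := ‖v‖⁻¹ • v with hd'
    have hdn : ‖d‖ = 1 := by
      rw [hd', norm_smul, norm_inv, norm_norm, inv_mul_cancel₀ hvpos.ne']
    have hvd : v = ‖v‖ • d := by rw [hd', smul_smul, mul_inv_cancel₀ hvpos.ne', one_smul]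
    have h1 : 0 ≤ inner ℝ (J (Z + v) - J (Z + t₀ • d)) d := by
      have h2 := (sq_nonneg _).trans (hfirm (Z + v) (Z + t₀ • d))
      have h3 : Z + v - (Z + t₀ • d) = (‖v‖ - t₀) • d := by
        nth_rewrite 1 [hvd]
        module
      rw [h3, real_inner_smul_right] at h2
      exact (mul_nonneg_iff_of_pos_left (by linarith)).1 h2
    have h2 : c ^ 2 * t₀ ≤ inner ℝ (J (Z + t₀ • d) - J Z) d := by
      have h3 := hfirm (Z + t₀ • d) Z
      have h4 : Z + t₀ • d - Z = t₀ • d := by abel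
      rw [h4, real_inner_smul_right] at h3
      have h5 : ‖t₀ • d‖ = t₀ := by rw [norm_smul, hdn, mul_one, Real.norm_of_nonneg ht₀.le]
      have h6 := hlow (t₀ • d) h5.le
      rw [h5] at h6
      have h7 : (c * t₀) ^ 2 ≤ ‖J (Z + t₀ • d) - J Z‖ ^ 2 := by gcongr
      have h8 : t₀ * (c ^ 2 * t₀) ≤ t₀ * inner ℝ (J (Z + t₀ • d) - J Z) d := by
        calc t₀ * (c ^ 2 * t₀) = (c * t₀) ^ 2 := by ring
          _ ≤ _ := h7
          _ ≤ _ := h3
      exact le_of_mul_le_mul_left h8 ht₀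
    have h3 : inner ℝ (J (Z + v) - J Z) d ≤ ‖p' - J Z‖ := by
      rw [hJv]
      have := (abs_le.1 (abs_real_inner_le_norm (p' - J Z) d)).2
      rwa [hdn, mul_one] at this
    have h4 : inner ℝ (J (Z + v) - J Z) d
        = inner ℝ (J (Z + v) - J (Z + t₀ • d)) d + inner ℝ (J (Z + t₀ • d) - J Z) d := by
      rw [← inner_add_left]
      congr 1
      abel
    linarith
  have hlowv := hlow v hvsmall
  rw [hJv] at hlowv
  have hdv := hd v hvsmall
  rw [hJv] at hdv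
  have hvle : ‖v‖ ≤ c⁻¹ * ‖p' - J Z‖ := by
    rw [le_inv_mul_iff₀ hcpos]
    exact hlowv
  have h1 : g' - (Z - J Z) - ((𝒥.symm : V →L[ℝ] V) - ContinuousLinearMap.id ℝ V) (p' - J Z)
      = - 𝒥.symm (p' - J Z - 𝒥 v) := by
    rw [_root_.sub_apply, map_sub 𝒥.symm (p' - J Z) (𝒥 v)]
    simp only [ContinuousLinearMap.id_apply, ContinuousLinearEquiv.coe_coe,
      ContinuousLinearEquiv.symm_apply_apply]
    rw [hv]
    abel
  rw [h1, norm_neg]
  calc ‖𝒥.symm (p' - J Z - 𝒥 v)‖ ≤ ‖(𝒥.symm : V →L[ℝ] V)‖ * ‖p' - J Z - 𝒥 v‖ :=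
        (𝒥.symm : V →L[ℝ] V).le_opNorm _
    _ ≤ K * (η * (c⁻¹ * ‖p' - J Z‖)) := by
        gcongr
        · rw [hK]; linarith
        · exact hdv.trans (by gcongr)
    _ ≤ K * ((ε * c / K) * (c⁻¹ * ‖p' - J Z‖)) := by
        gcongr
        exact min_le_right _ _
    _ = ε * ‖p' - J Z‖ := by field_simp

end prox

end Pool.Agent.Helper63.PropB.Red
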