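import Mathlib
import Pool.Agent.Helper63.PropB.Baire
import Pool.Agent.Helper63.PropB.Red.Alex

/-!
Second order differentiability of `A ↦ ‖A ∘ T‖` at some `A` close to the identity, and the
reduction to `A = 1`, `‖T‖ = 1`.
-/

namespace Pool.Agent.Helper63.PropB.Red

open Set Metric Filter Topology MeasureTheory Measure

universe u v

variable {X : Type u} [NormedAddCommGroup X] [NormedSpace ℝ X]
variable {Y : Type v} [NormedAddCommGroup Y] [NormedSpace ℝ Y]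

theorem apply_le_of_mem_imBall {T : X →L[ℝ] Y} {z : Y} (hz : z ∈ imBall T) (A : Y →L[ℝ] Y)
    {e : Y →L[ℝ] ℝ} (he : ‖e‖ ≤ 1) : e (A z) ≤ ‖A.comp T‖ := by
  calc e (A z) ≤ ‖e (A z)‖ := le_abs_self _
    _ ≤ ‖e‖ * ‖A z‖ := e.le_opNorm _
    _ ≤ 1 * ‖A.comp T‖ := by
      gcongr
      exact norm_le_of_mem_imBall T hz A
    _ = ‖A.comp T‖ := one_mul _

theorem exists_contact [FiniteDimensional ℝ Y] (T : X →L[ℝ] Y) (A : Y →L[ℝ] Y) :
    ∃ e : Y →L[ℝ] ℝ, ‖e‖ ≤ 1 ∧ ∃ z ∈ imBall T, e (A z) = ‖A.comp T‖ := by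
  obtain ⟨e₀, he₀, hatt⟩ : ∃ e : Y →L[ℝ] ℝ, ‖e‖ ≤ 1 ∧ ‖e.comp (A.comp T)‖ = ‖A.comp T‖ := by
    obtain ⟨e, he, h⟩ := exists_extreme_attaining (A.comp T)
    exact ⟨e, mem_closedBall_zero_iff.1 (extremePoints_subset he), h⟩
  obtain ⟨z, hz, h⟩ := exists_max_imBall T (e₀.comp A)
  refine ⟨e₀, he₀, z, hz, ?_⟩
  rw [ContinuousLinearMap.comp_assoc, hatt] at h
  exact h

/-- The functional on operators given by a pair `(e, z)`. -/
noncomputable def pairing (e : Y →L[ℝ] ℝ) (z : Y) : (Y →L[ℝ] Y) →L[ℝ] ℝ :=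
  e.comp (ContinuousLinearMap.apply ℝ Y z)

theorem pairing_apply (e : Y →L[ℝ] ℝ) (z : Y) (B : Y →L[ℝ] Y) : pairing e z B = e (B z) := rfl

/-- The norm of `(1 + B) ∘ T` is twice differentiable at `B = 0`, in terms of its
subdifferential. -/
def SecondOrder (T : X →L[ℝ] Y) : Prop :=
  ∃ g : (Y →L[ℝ] Y) →L[ℝ] ℝ, ∃ q : (Y →L[ℝ] Y) →L[ℝ] (Y →L[ℝ] Y) →L[ℝ] ℝ,
    ∀ ε : ℝ, 0 < ε → ∃ r : ℝ, 0 < r ∧ ∀ B : Y →L[ℝ] Y, ‖B‖ < r → ∀ e : Y →L[ℝ] ℝ, ‖e‖ ≤ 1 →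
      ∀ z ∈ imBall T, e ((ContinuousLinearMap.id ℝ Y + B) z)
        = ‖(ContinuousLinearMap.id ℝ Y + B).comp T‖ →
      ∀ B' : Y →L[ℝ] Y, |e (B' z) - g B' - q B B'| ≤ ε * ‖B‖ * ‖B'‖

theorem exists_second_order_aux [FiniteDimensional ℝ Y] (T : X →L[ℝ] Y)
    {ρ : ℝ} (hρ : 0 < ρ) :
    ∃ A : Y →L[ℝ] Y, ‖A - ContinuousLinearMap.id ℝ Y‖ < ρ ∧
    ∃ g : (Y →L[ℝ] Y) →L[ℝ] ℝ, ∃ q : (Y →L[ℝ] Y) →L[ℝ] (Y →L[ℝ] Y) →L[ℝ] ℝ,
    ∀ ε : ℝ, 0 < ε → ∃ r : ℝ, 0 < r ∧ ∀ B : Y →L[ℝ] Y, ‖B‖ < r → ∀ e : Y →L[ℝ] ℝ, ‖e‖ ≤ 1 →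
      ∀ z ∈ imBall T, e ((A + B) z) = ‖(A + B).comp T‖ →
      ∀ B' : Y →L[ℝ] Y, |e (B' z) - g B' - q B B'| ≤ ε * ‖B‖ * ‖B'‖ := by
  set E := EuclideanSpace ℝ (Fin (Module.finrank ℝ (Y →L[ℝ] Y))) with hE
  set τ : (Y →L[ℝ] Y) ≃L[ℝ] E := toEuclidean with hτ
  set comp : E →L[ℝ] (X →L[ℝ] Y) :=
    ((ContinuousLinearMap.compL ℝ X Y Y).flip T).comp (τ.symm : E →L[ℝ] (Y →L[ℝ] Y)) with hcomp
  have hcompa : ∀ p, comp p = (τ.symm p).comp T := fun p => rfl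
  set Φ : E → ℝ := fun p => ‖comp p‖ with hΦ
  have hconv : ConvexOn ℝ univ Φ :=
    (convexOn_univ_norm (E := X →L[ℝ] Y)).comp_linearMap comp.toLinearMap
  have hcont : Continuous Φ := comp.continuous.norm
  -- subgradients from contact pairs
  set G : (Y →L[ℝ] ℝ) → Y → E := fun e z =>
    (InnerProductSpace.toDual ℝ E).symm ((pairing e z).comp (τ.symm : E →L[ℝ] (Y →L[ℝ] Y)))
    with hG
  have hGi : ∀ e z (x : E), inner ℝ (G e z) x = e (τ.symm x z) := by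
    intro e z x
    rw [hG, InnerProductSpace.toDual_symm_apply]
    rfl
  have hGsub : ∀ (p : E) (e : Y →L[ℝ] ℝ), ‖e‖ ≤ 1 → ∀ z ∈ imBall T,
      e (τ.symm p z) = ‖(τ.symm p).comp T‖ → IsSubgrad Φ p (G e z) := by
    intro p e he z hz heq p'
    rw [hGi, map_sub, _root_.sub_apply, map_sub]
    change ‖(τ.symm p).comp T‖ + _ ≤ ‖(τ.symm p').comp T‖
    have := apply_le_of_mem_imBall hz (τ.symm p') he
    linarith
  have hsub : ∀ p, ∃ g : E, IsSubgrad Φ p g := by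
    intro p
    obtain ⟨e, he, z, hz, heq⟩ := exists_contact T (τ.symm p)
    exact ⟨G e z, hGsub p e he z hz heq⟩
  obtain ⟨p, hp, g, q, hq⟩ := exists_alexandrov_point hconv hcont hsub
    (U := {p : E | ‖τ.symm p - ContinuousLinearMap.id ℝ Y‖ < ρ})
    (isOpen_lt (by fun_prop) continuous_const)
    ⟨τ (ContinuousLinearMap.id ℝ Y), by
      rw [mem_ofPred_eq, ContinuousLinearEquiv.symm_apply_apply, sub_self, norm_zero]
      exact hρ⟩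
  set τc : (Y →L[ℝ] Y) →L[ℝ] E := (τ : (Y →L[ℝ] Y) →L[ℝ] E) with hτc
  set Kτ : ℝ := ‖τc‖ + 1 with hKτ
  have hKτpos : 0 < Kτ := by positivity
  have hτn : ∀ B, ‖τ B‖ ≤ Kτ * ‖B‖ := by
    intro B
    calc ‖τ B‖ = ‖τc B‖ := rfl
      _ ≤ ‖τc‖ * ‖B‖ := τc.le_opNorm B
      _ ≤ Kτ * ‖B‖ := by gcongr; rw [hKτ]; linarith
  refine ⟨τ.symm p, hp, (innerSL ℝ g).comp τc,
    ((ContinuousLinearMap.compL ℝ (Y →L[ℝ] Y) E ℝ).flip τc).comp ((innerSL ℝ).comp (q.comp τc)), ?_⟩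
  intro ε hε
  obtain ⟨r, hr, hrq⟩ := hq (ε / Kτ ^ 2) (by positivity)
  refine ⟨r / Kτ, by positivity, fun B hB e he z hz heq B' => ?_⟩
  have h1 : ‖(p + τ B) - p‖ < r := by
    rw [add_sub_cancel_left]
    calc ‖τ B‖ ≤ Kτ * ‖B‖ := hτn B
      _ < Kτ * (r / Kτ) := by gcongr
      _ = r := by field_simp
  have h2 : IsSubgrad Φ (p + τ B) (G e z) := by
    apply hGsub _ e he z hz
    rw [map_add, ContinuousLinearEquiv.symm_apply_apply]
    exact heq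
  have h3 := hrq _ _ h1 h2
  rw [add_sub_cancel_left] at h3
  have h4 : e (B' z) - (innerSL ℝ g).comp τc B'
      - (((ContinuousLinearMap.compL ℝ (Y →L[ℝ] Y) E ℝ).flip τc).comp
        ((innerSL ℝ).comp (q.comp τc))) B B' = inner ℝ (G e z - g - q (τ B)) (τ B') := by
    rw [inner_sub_left, inner_sub_left, hGi, ContinuousLinearEquiv.symm_apply_apply]
    rfl
  rw [h4]
  calc |inner ℝ (G e z - g - q (τ B)) (τ B')| ≤ ‖G e z - g - q (τ B)‖ * ‖τ B'‖ :=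
        abs_real_inner_le_norm _ _
    _ ≤ (ε / Kτ ^ 2 * (Kτ * ‖B‖)) * (Kτ * ‖B'‖) := by
        gcongr
        · exact h3.trans (by gcongr; exact hτn B)
        · exact hτn B'
    _ = ε * ‖B‖ * ‖B'‖ := by field_simp

theorem imBall_comp [FiniteDimensional ℝ Y] (T : X →L[ℝ] Y) (A : Y →L[ℝ] Y) :
    imBall (A.comp T) = A '' imBall T := by
  apply Subset.antisymm
  · refine closure_minimal ?_ ((isCompact_imBall T).image A.continuous).isClosed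
    rintro _ ⟨x, hx, rfl⟩
    exact ⟨T x, subset_closure ⟨x, hx, rfl⟩, rfl⟩
  · rintro _ ⟨z, hz, rfl⟩
    have h1 : imBall T ⊆ A ⁻¹' imBall (A.comp T) := by
      refine closure_minimal ?_ (isClosed_closure.preimage A.continuous)
      rintro _ ⟨x, hx, rfl⟩
      exact subset_closure ⟨x, hx, rfl⟩
    exact h1 hz

/-- Reduction to a contact of second order at the identity, with norm one. -/
theorem exists_second_order [FiniteDimensional ℝ Y] (T : X →L[ℝ] Y) (hT : T ≠ 0)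
    {ρ : ℝ} (hρ : 0 < ρ) :
    ∃ T₂ : X →L[ℝ] Y, ∃ c : ℝ, 0 < c ∧ ‖T₂‖ = 1 ∧ ‖c • T₂ - T‖ < ρ ∧ SecondOrder T₂ := by
  have hTpos : 0 < ‖T‖ := norm_pos_iff.2 hT
  set ρ₁ : ℝ := min (ρ / (‖T‖ + 1)) (1 / 2) with hρ₁
  have hρ₁pos : 0 < ρ₁ := lt_min (by positivity) (by norm_num)
  obtain ⟨A, hA, g, q, hq⟩ := exists_second_order_aux T hρ₁pos
  have hclose : ‖A.comp T - T‖ < ρ := by
    have h1 : A.comp T - T = (A - ContinuousLinearMap.id ℝ Y).comp T := by ext x; simp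
    rw [h1]
    calc ‖(A - ContinuousLinearMap.id ℝ Y).comp T‖ ≤ ‖A - ContinuousLinearMap.id ℝ Y‖ * ‖T‖ :=
          ContinuousLinearMap.opNorm_comp_le _ _
      _ ≤ ρ / (‖T‖ + 1) * ‖T‖ := by
          gcongr
          exact hA.le.trans (min_le_left _ _)
      _ < ρ / (‖T‖ + 1) * (‖T‖ + 1) := by gcongr; linarith
      _ = ρ := by field_simp
  have hclose2 : ‖A.comp T - T‖ ≤ 1 / 2 * ‖T‖ := by
    have h1 : A.comp T - T = (A - ContinuousLinearMap.id ℝ Y).comp T := by ext x; simp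
    rw [h1]
    refine (ContinuousLinearMap.opNorm_comp_le _ _).trans ?_
    gcongr
    exact hA.le.trans (min_le_right _ _)
  set M : ℝ := ‖A.comp T‖ with hM
  have hMpos : 0 < M := by
    have h1 : ‖T‖ ≤ M + ‖A.comp T - T‖ := by
      have : T = A.comp T - (A.comp T - T) := by abel
      calc ‖T‖ = ‖A.comp T - (A.comp T - T)‖ := by rw [← this]
        _ ≤ _ := norm_sub_le _ _
    linarith
  have hT₂ : M⁻¹ • A.comp T = (M⁻¹ • A).comp T := by ext x; simp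
  refine ⟨M⁻¹ • A.comp T, M, hMpos, ?_, ?_, ?_⟩
  · rw [norm_smul, norm_inv, Real.norm_of_nonneg hMpos.le, ← hM, inv_mul_cancel₀ hMpos.ne']
  · rw [smul_smul, mul_inv_cancel₀ hMpos.ne', one_smul]
    exact hclose
  · -- composition on the right with `A`
    set R : (Y →L[ℝ] Y) →L[ℝ] (Y →L[ℝ] Y) := (ContinuousLinearMap.compL ℝ Y Y Y).flip A with hR
    have hRa : ∀ B, R B = B.comp A := fun B => rfl
    refine ⟨M⁻¹ • g.comp R, M⁻¹ • ((ContinuousLinearMap.compL ℝ (Y →L[ℝ] Y) (Y →L[ℝ] Y) ℝ).flip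
      R).comp (q.comp R), ?_⟩
    intro ε hε
    set KA : ℝ := ‖A‖ + 1 with hKA
    have hKApos : 0 < KA := by positivity
    have hRn : ∀ B : Y →L[ℝ] Y, ‖B.comp A‖ ≤ KA * ‖B‖ := by
      intro B
      calc ‖B.comp A‖ ≤ ‖B‖ * ‖A‖ := ContinuousLinearMap.opNorm_comp_le _ _
        _ ≤ ‖B‖ * KA := by gcongr; rw [hKA]; linarith
        _ = KA * ‖B‖ := mul_comm _ _
    obtain ⟨r, hr, hrq⟩ := hq (ε * M / KA ^ 2) (by positivity)
    refine ⟨r / KA, by positivity, fun B hB e he z hz heq B' => ?_⟩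
    rw [hT₂, imBall_comp] at hz
    obtain ⟨z₁, hz₁, rfl⟩ := hz
    have h1 : ‖B.comp A‖ < r := by
      calc ‖B.comp A‖ ≤ KA * ‖B‖ := hRn B
        _ < KA * (r / KA) := by gcongr
        _ = r := by field_simp
    have h2 : e ((A + B.comp A) z₁) = ‖(A + B.comp A).comp T‖ := by
      have h3 : (ContinuousLinearMap.id ℝ Y + B).comp (M⁻¹ • A.comp T)
          = M⁻¹ • (A + B.comp A).comp T := by
        ext x; simp [smul_add]
      have h4 : e ((ContinuousLinearMap.id ℝ Y + B) ((M⁻¹ • A) z₁))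
          = M⁻¹ * e ((A + B.comp A) z₁) := by
        simp [mul_add]
      rw [h3, h4, norm_smul, norm_inv, Real.norm_of_nonneg hMpos.le] at heq
      exact mul_left_cancel₀ (inv_ne_zero hMpos.ne') heq
    have h3 := hrq (B.comp A) h1 e he z₁ hz₁ h2 (B'.comp A)
    have h4 : e (B' ((M⁻¹ • A) z₁)) - (M⁻¹ • g.comp R) B'
        - (M⁻¹ • ((ContinuousLinearMap.compL ℝ (Y →L[ℝ] Y) (Y →L[ℝ] Y) ℝ).flip
          R).comp (q.comp R)) B B'
        = M⁻¹ * (e (B'.comp A z₁) - g (B'.comp A) - q (B.comp A) (B'.comp A)) := by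
      have h5 : (M⁻¹ • A) z₁ = M⁻¹ • A z₁ := rfl
      rw [h5, map_smul, map_smul, smul_eq_mul]
      change M⁻¹ * e (B' (A z₁)) - M⁻¹ * g (B'.comp A) - M⁻¹ * q (B.comp A) (B'.comp A) = _
      rw [ContinuousLinearMap.comp_apply]
      ring
    rw [h4, abs_mul, abs_inv, abs_of_pos hMpos]
    calc M⁻¹ * |e (B'.comp A z₁) - g (B'.comp A) - q (B.comp A) (B'.comp A)|
        ≤ M⁻¹ * (ε * M / KA ^ 2 * ‖B.comp A‖ * ‖B'.comp A‖) := by gcongr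
      _ ≤ M⁻¹ * (ε * M / KA ^ 2 * (KA * ‖B‖) * (KA * ‖B'‖)) := by
          gcongr
          · exact hRn B
          · exact hRn B'
      _ = ε * ‖B‖ * ‖B'‖ := by field_simp

end Pool.Agent.Helper63.PropB.Red
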