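import Mathlib
import Pool.Agent.Helper63.PropB.Red.Second

/-!
Second order analysis at a contact point: the chart and the estimates for the maximizers of the
perturbed problems.
-/

namespace Pool.Agent.Helper63.PropB.Red

open Set Metric Filter Topology

universe u v

/-- Coordinates `z = e₀(z) y₀ + κ (π z)` at a contact point. -/
structure Chart (Y : Type v) [NormedAddCommGroup Y] [NormedSpace ℝ Y] (k : ℕ) where
  /-- the supporting functional -/
  e₀ : Y →L[ℝ] ℝ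
  /-- the contact point -/
  y₀ : Y
  /-- the tangent directions -/
  κ : EuclideanSpace ℝ (Fin k) →L[ℝ] Y
  /-- the tangential coordinates -/
  π : Y →L[ℝ] EuclideanSpace ℝ (Fin k)
  he₀ : ‖e₀‖ ≤ 1
  hy₀ : ‖y₀‖ ≤ 1
  h1 : e₀ y₀ = 1
  h2 : ∀ x, e₀ (κ x) = 0
  h3 : ∀ x, π (κ x) = x
  h4 : ∀ z, z = e₀ z • y₀ + κ (π z)

variable {X : Type u} [NormedAddCommGroup X] [NormedSpace ℝ X]
variable {Y : Type v} [NormedAddCommGroup Y] [NormedSpace ℝ Y] {k : ℕ}

namespace Chart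

theorem π_y₀ (c : Chart Y k) : c.π c.y₀ = 0 := by
  have h := c.h4 c.y₀
  rw [c.h1, one_smul] at h
  have h5 : c.κ (c.π c.y₀) = 0 := by
    have : c.y₀ + c.κ (c.π c.y₀) = c.y₀ + 0 := by rw [add_zero]; exact h.symm
    exact add_left_cancel this
  rw [← c.h3 (c.π c.y₀), h5, map_zero]

/-- The linear perturbation with parameter `δ = (m, ℓ)`. -/
noncomputable def pert (c : Chart Y k) :
    (EuclideanSpace ℝ (Fin k) × EuclideanSpace ℝ (Fin k)) →ₗ[ℝ] (Y →L[ℝ] Y) where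
  toFun δ := c.e₀.smulRight (c.κ δ.1) + ((innerSL ℝ δ.2).comp c.π).smulRight c.y₀
  map_add' δ δ' := by
    ext z
    simp [add_smul, smul_add]
    abel
  map_smul' a δ := by
    ext z
    simp only [Prod.smul_fst, Prod.smul_snd, map_smul, add_apply,
      ContinuousLinearMap.smulRight_apply, ContinuousLinearMap.comp_apply, innerSL_apply_apply,
      smul_apply, RingHom.id_apply, smul_eq_mul, smul_add, smul_smul]
    simp [mul_comm]

theorem pert_apply (c : Chart Y k) (δ : EuclideanSpace ℝ (Fin k) × EuclideanSpace ℝ (Fin k))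
    (z : Y) : c.pert δ z = c.e₀ z • c.κ δ.1 + inner ℝ δ.2 (c.π z) • c.y₀ := rfl

/-- The slope of a functional. -/
noncomputable def slope (c : Chart Y k) (e : Y →L[ℝ] ℝ) : EuclideanSpace ℝ (Fin k) :=
  (InnerProductSpace.toDual ℝ (EuclideanSpace ℝ (Fin k))).symm (e.comp c.κ)

theorem inner_slope (c : Chart Y k) (e : Y →L[ℝ] ℝ) (x : EuclideanSpace ℝ (Fin k)) :
    inner ℝ (c.slope e) x = e (c.κ x) := by
  rw [slope, InnerProductSpace.toDual_symm_apply]
  rfl

/-- The norm along the affine hyperplane `y₀ + ker e₀`. -/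
noncomputable def H (c : Chart Y k) (x : EuclideanSpace ℝ (Fin k)) : ℝ := ‖c.y₀ + c.κ x‖

theorem one_le_H (c : Chart Y k) (x : EuclideanSpace ℝ (Fin k)) : 1 ≤ c.H x := by
  have h : c.e₀ (c.y₀ + c.κ x) = 1 := by rw [map_add, c.h1, c.h2, add_zero]
  calc (1 : ℝ) = c.e₀ (c.y₀ + c.κ x) := h.symm
    _ ≤ ‖c.e₀ (c.y₀ + c.κ x)‖ := le_abs_self _
    _ ≤ ‖c.e₀‖ * ‖c.y₀ + c.κ x‖ := c.e₀.le_opNorm _
    _ ≤ 1 * ‖c.y₀ + c.κ x‖ := by gcongr; exact c.he₀
    _ = c.H x := one_mul _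

theorem H_zero (c : Chart Y k) : c.H 0 = 1 := by
  refine le_antisymm ?_ (c.one_le_H 0)
  rw [H, map_zero, add_zero]
  exact c.hy₀

end Chart

theorem inner_le_of_norms {F : Type*} [NormedAddCommGroup F] [InnerProductSpace ℝ F] {a b : F}
    {s t : ℝ} (ha : ‖a‖ ≤ s) (hb : ‖b‖ ≤ t) : |inner ℝ a b| ≤ s * t :=
  (abs_real_inner_le_norm a b).trans
    (mul_le_mul ha hb (norm_nonneg _) ((norm_nonneg _).trans ha))

theorem norm_le_of_inner {F : Type*} [NormedAddCommGroup F] [InnerProductSpace ℝ F] {a : F}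
    {s : ℝ} (hs : 0 ≤ s) (h : ∀ x : F, |inner ℝ a x| ≤ s * ‖x‖) : ‖a‖ ≤ s := by
  rcases eq_or_ne a 0 with h0 | h0
  · subst h0
    rw [norm_zero]
    exact hs
  · have h1 := h a
    rw [real_inner_self_eq_norm_sq, abs_of_nonneg (sq_nonneg _), sq] at h1
    exact le_of_mul_le_mul_right h1 (norm_pos_iff.2 h0)

/-- The Riesz representative, as a linear map, of a linear family of functionals. -/
noncomputable def rieszLin {D : Type*} [AddCommGroup D] [Module ℝ D] {k : ℕ}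
    (φ : D →ₗ[ℝ] (EuclideanSpace ℝ (Fin k) →L[ℝ] ℝ)) : D →ₗ[ℝ] EuclideanSpace ℝ (Fin k) where
  toFun d := (InnerProductSpace.toDual ℝ (EuclideanSpace ℝ (Fin k))).symm (φ d)
  map_add' d d' := by rw [map_add, map_add]
  map_smul' a d := by
    rw [map_smul, map_smulₛₗ]
    simp

theorem inner_rieszLin {D : Type*} [AddCommGroup D] [Module ℝ D] {k : ℕ}
    (φ : D →ₗ[ℝ] (EuclideanSpace ℝ (Fin k) →L[ℝ] ℝ)) (d : D) (x : EuclideanSpace ℝ (Fin k)) :
    inner ℝ (rieszLin φ d) x = φ d x := by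
  change inner ℝ ((InnerProductSpace.toDual ℝ (EuclideanSpace ℝ (Fin k))).symm (φ d)) x = _
  rw [InnerProductSpace.toDual_symm_apply]

end Pool.Agent.Helper63.PropB.Red
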