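import Mathlib
import Pool.Agent.Helper63.PropB.Red.Chart2

/-!
Second order analysis at a contact point: the estimates for the maximizers of the perturbed
problems.
-/

namespace Pool.Agent.Helper63.PropB.Red

open Set Metric Filter Topology

universe u v

variable {X : Type u} [NormedAddCommGroup X] [NormedSpace ℝ X]
variable {Y : Type v} [NormedAddCommGroup Y] [NormedSpace ℝ Y] {k : ℕ}

/-- The final numerical estimates at one maximizing pair. -/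
theorem pair_estimates {F : Type*} [NormedAddCommGroup F] [InnerProductSpace ℝ F]
    {m l ê ζ Eδ Sδ : F} {a z₀ n KE KS ε₁ : ℝ} (hm : ‖m‖ ≤ n) (hl : ‖l‖ ≤ n)
    (ha1 : a ≤ 1) (hz1 : z₀ ≤ 1) (ha0 : 1 / 2 ≤ a) (hz0 : 1 / 2 ≤ z₀)
    (hKE : 1 ≤ KE) (hKS : 1 ≤ KS) (hε₁ : ε₁ ≤ 1)
    (hE : ‖Eδ‖ ≤ (KE - 1) * n) (hS : ‖Sδ‖ ≤ (KS - 1) * n)
    (h1 : ‖z₀ • ê - Eδ‖ ≤ ε₁ * n) (h2 : ‖a • ζ - Sδ‖ ≤ ε₁ * n) (hn0 : 0 ≤ n)
    (hphi : 1 ≤ z₀ * a + inner ℝ ê ζ + z₀ * inner ℝ ê m + a * inner ℝ l ζ) :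
    ‖ê‖ ≤ 2 * KE * n ∧ ‖ζ‖ ≤ 2 * KS * n ∧
      1 - z₀ ≤ (4 * KE * KS + 2 * KE + 2 * KS) * n ^ 2 ∧
      1 - a ≤ (4 * KE * KS + 2 * KE + 2 * KS) * n ^ 2 ∧
      ‖ê - Eδ‖ ≤ ε₁ * n + (4 * KE * KS + 2 * KE + 2 * KS) * n ^ 2 * (2 * KE * n) ∧
      ‖ζ - Sδ‖ ≤ ε₁ * n + (4 * KE * KS + 2 * KE + 2 * KS) * n ^ 2 * (2 * KS * n) := by
  have hzê : ‖z₀ • ê‖ ≤ KE * n := by
    calc ‖z₀ • ê‖ = ‖(z₀ • ê - Eδ) + Eδ‖ := by rw [sub_add_cancel]
      _ ≤ ‖z₀ • ê - Eδ‖ + ‖Eδ‖ := norm_add_le _ _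
      _ ≤ ε₁ * n + (KE - 1) * n := add_le_add h1 hE
      _ ≤ 1 * n + (KE - 1) * n := by gcongr
      _ = KE * n := by ring
  have haζ : ‖a • ζ‖ ≤ KS * n := by
    calc ‖a • ζ‖ = ‖(a • ζ - Sδ) + Sδ‖ := by rw [sub_add_cancel]
      _ ≤ ‖a • ζ - Sδ‖ + ‖Sδ‖ := norm_add_le _ _
      _ ≤ ε₁ * n + (KS - 1) * n := add_le_add h2 hS
      _ ≤ 1 * n + (KS - 1) * n := by gcongr
      _ = KS * n := by ring
  rw [norm_smul, Real.norm_of_nonneg (by linarith)] at hzê haζ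
  have hê : ‖ê‖ ≤ 2 * KE * n := by
    have : 1 / 2 * ‖ê‖ ≤ z₀ * ‖ê‖ := by gcongr
    linarith
  have hζ : ‖ζ‖ ≤ 2 * KS * n := by
    have : 1 / 2 * ‖ζ‖ ≤ a * ‖ζ‖ := by gcongr
    linarith
  have hi1 := (abs_le.1 (inner_le_of_norms hê hζ)).2
  have hi2 : z₀ * inner ℝ ê m ≤ 2 * KE * n * n := by
    have h3 := (abs_le.1 (inner_le_of_norms hê hm)).2
    have h4 : (0 : ℝ) ≤ 2 * KE * n * n := by positivity
    calc z₀ * inner ℝ ê m ≤ z₀ * (2 * KE * n * n) := by gcongr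
      _ ≤ 1 * (2 * KE * n * n) := by gcongr
      _ = 2 * KE * n * n := one_mul _
  have hi3 : a * inner ℝ l ζ ≤ n * (2 * KS * n) := by
    have h3 := (abs_le.1 (inner_le_of_norms hl hζ)).2
    have h4 : (0 : ℝ) ≤ n * (2 * KS * n) := by positivity
    calc a * inner ℝ l ζ ≤ a * (n * (2 * KS * n)) := by gcongr
      _ ≤ 1 * (n * (2 * KS * n)) := by gcongr
      _ = n * (2 * KS * n) := one_mul _
  have hza : 1 - z₀ * a ≤ (4 * KE * KS + 2 * KE + 2 * KS) * n ^ 2 := by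
    have : (4 * KE * KS + 2 * KE + 2 * KS) * n ^ 2
        = 2 * KE * n * (2 * KS * n) + 2 * KE * n * n + n * (2 * KS * n) := by ring
    rw [this]
    linarith
  have hz' : 1 - z₀ ≤ (4 * KE * KS + 2 * KE + 2 * KS) * n ^ 2 := by
    have : z₀ * a ≤ z₀ * 1 := by gcongr
    linarith
  have ha' : 1 - a ≤ (4 * KE * KS + 2 * KE + 2 * KS) * n ^ 2 := by
    have : z₀ * a ≤ 1 * a := by gcongr
    linarith
  refine ⟨hê, hζ, hz', ha', ?_, ?_⟩
  · have h3 : ê - Eδ = (z₀ • ê - Eδ) + (1 - z₀) • ê := by module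
    rw [h3]
    refine (norm_add_le _ _).trans (add_le_add h1 ?_)
    rw [norm_smul, Real.norm_of_nonneg (by linarith)]
    gcongr
  · have h3 : ζ - Sδ = (a • ζ - Sδ) + (1 - a) • ζ := by module
    rw [h3]
    refine (norm_add_le _ _).trans (add_le_add h2 ?_)
    rw [norm_smul, Real.norm_of_nonneg (by linarith)]
    gcongr

/-- The slope of the maximizer. -/
theorem slope_estimates {F : Type*} [NormedAddCommGroup F] [InnerProductSpace ℝ F]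
    {m l ζ Sδ : F} {z₀ n KS K₂ K₄ ε₁ ε : ℝ} (hm : ‖m‖ ≤ n) (hl : ‖l‖ ≤ n)
    (hζ : ‖ζ‖ ≤ 2 * KS * n) (hz0 : 1 / 2 ≤ z₀) (hz1 : z₀ ≤ 1) (hz2 : 1 - z₀ ≤ K₂ * n ^ 2)
    (hKS : 1 ≤ KS) (hK₂ : 0 < K₂) (hS : ‖Sδ‖ ≤ KS * n)
    (h6 : ‖ζ - Sδ‖ ≤ ε₁ * n + K₂ * n ^ 2 * (2 * KS * n)) (hn0 : 0 ≤ n)
    (hε₁8 : ε₁ ≤ ε / 8) (hn4 : K₄ * n ^ 2 ≤ min 1 ε / 8)
    (hK₄ : 2 * KS * K₂ + 2 * KS + (K₂ + 2 * KS) * KS ≤ K₄) :
    0 < z₀ + inner ℝ l ζ ∧
      ‖(z₀ + inner ℝ l ζ)⁻¹ • (ζ + z₀ • m) - (m + Sδ)‖ ≤ ε * n := by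
  have hmin1 : min 1 ε ≤ 1 := min_le_left _ _
  have hmin2 : min 1 ε ≤ ε := min_le_right _ _
  set d : ℝ := z₀ + inner ℝ l ζ with hd
  have hin : |inner ℝ l ζ| ≤ 2 * KS * n ^ 2 := by
    calc |inner ℝ l ζ| ≤ n * (2 * KS * n) := inner_le_of_norms hl hζ
      _ = 2 * KS * n ^ 2 := by ring
  have hKSn : 2 * KS * n ^ 2 ≤ K₄ * n ^ 2 := by
    gcongr
    have : 0 < 2 * KS * K₂ + (K₂ + 2 * KS) * KS := by positivity
    linarith
  have hdlow : 1 / 4 ≤ d := by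
    have := (abs_le.1 hin).1
    linarith
  have hdpos : 0 < d := by linarith
  have hdinv : d⁻¹ ≤ 4 := by
    rw [inv_le_comm₀ hdpos (by norm_num)]
    linarith
  have h1d : |1 - d| ≤ (K₂ + 2 * KS) * n ^ 2 := by
    have h1 := abs_le.1 hin
    have h2 : 0 ≤ 1 - z₀ := by linarith
    have h3 : 0 ≤ K₂ * n ^ 2 := by positivity
    rw [abs_le, hd]
    constructor <;> linarith [h1.1, h1.2]
  refine ⟨hdpos, ?_⟩
  have h1 : d⁻¹ • (ζ + z₀ • m) - (m + Sδ) = d⁻¹ • ((ζ - Sδ) - (inner ℝ l ζ : ℝ) • m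
      + (1 - d) • Sδ) := by
    have h2 : d • (d⁻¹ • (ζ + z₀ • m) - (m + Sδ)) = (ζ - Sδ) - (inner ℝ l ζ : ℝ) • m
        + (1 - d) • Sδ := by
      rw [smul_sub, smul_smul, mul_inv_cancel₀ hdpos.ne', one_smul, hd]
      module
    rw [← h2, smul_smul, inv_mul_cancel₀ hdpos.ne', one_smul]
  rw [h1, norm_smul, norm_inv, Real.norm_of_nonneg hdpos.le]
  have h2 : ‖(ζ - Sδ) - (inner ℝ l ζ : ℝ) • m + (1 - d) • Sδ‖
      ≤ (ε₁ * n + K₂ * n ^ 2 * (2 * KS * n)) + 2 * KS * n ^ 2 * n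
        + (K₂ + 2 * KS) * n ^ 2 * (KS * n) := by
    refine (norm_add_le _ _).trans (add_le_add ((norm_sub_le _ _).trans (add_le_add h6 ?_)) ?_)
    · rw [norm_smul, Real.norm_eq_abs]
      gcongr
    · rw [norm_smul, Real.norm_eq_abs]
      gcongr
  have h3 : (ε₁ * n + K₂ * n ^ 2 * (2 * KS * n)) + 2 * KS * n ^ 2 * n
        + (K₂ + 2 * KS) * n ^ 2 * (KS * n) ≤ (ε / 8 + K₄ * n ^ 2) * n := by
    have h4 : (ε₁ * n + K₂ * n ^ 2 * (2 * KS * n)) + 2 * KS * n ^ 2 * n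
        + (K₂ + 2 * KS) * n ^ 2 * (KS * n)
        = (ε₁ + (2 * KS * K₂ + 2 * KS + (K₂ + 2 * KS) * KS) * n ^ 2) * n := by ring
    rw [h4]
    gcongr
  calc d⁻¹ * ‖(ζ - Sδ) - (inner ℝ l ζ : ℝ) • m + (1 - d) • Sδ‖
      ≤ 4 * ((ε / 8 + K₄ * n ^ 2) * n) := by
        gcongr
        exact h2.trans h3
    _ ≤ 4 * ((ε / 8 + ε / 8) * n) := by
        gcongr
        linarith
    _ = ε * n := by ring

theorem const_estimates {KE K₂ K₄ n ε ε₁ A : ℝ} (hn0 : 0 ≤ n) (hA : A * K₂ ≤ K₄)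
    (hε₁8 : ε₁ ≤ ε / 8) (hε : 0 < ε) (hn4 : K₄ * n ^ 2 ≤ min 1 ε / 8)
    (h : KE ≤ ε₁ * n + K₂ * n ^ 2 * (A * n)) : KE ≤ ε * n := by
  have hmin2 : min 1 ε ≤ ε := min_le_right _ _
  calc KE ≤ ε₁ * n + K₂ * n ^ 2 * (A * n) := h
    _ = (ε₁ + A * K₂ * n ^ 2) * n := by ring
    _ ≤ (ε / 8 + K₄ * n ^ 2) * n := by gcongr
    _ ≤ ε * n := by
        gcongr
        linarith

/-- The subgradient given by a maximizing pair. -/
theorem isSubgrad_slope (c : Chart Y k) (T : X →L[ℝ] Y) {e : Y →L[ℝ] ℝ} (he : ‖e‖ ≤ 1) {z : Y}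
    (hz : z ∈ imBall T) {B : Y →L[ℝ] Y} (heq : e (B z) = ‖B.comp T‖) {d : ℝ} (hd : 0 < d)
    {x : EuclideanSpace ℝ (Fin k)} (hBz : B z = d • (c.y₀ + c.κ x)) :
    IsSubgrad c.H x (c.slope e) := by
  intro p'
  have h1 : e (c.y₀ + c.κ p') ≤ c.H p' := by
    calc e (c.y₀ + c.κ p') ≤ ‖e (c.y₀ + c.κ p')‖ := le_abs_self _
      _ ≤ ‖e‖ * ‖c.y₀ + c.κ p'‖ := e.le_opNorm _
      _ ≤ 1 * ‖c.y₀ + c.κ p'‖ := by gcongr
      _ = c.H p' := one_mul _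
  have h2 : c.H x ≤ e (c.y₀ + c.κ x) := by
    have h3 : ‖B z‖ ≤ ‖B.comp T‖ := norm_le_of_mem_imBall T hz _
    rw [← heq, hBz, norm_smul, Real.norm_of_nonneg hd.le, map_smul, smul_eq_mul] at h3
    exact le_of_mul_le_mul_left h3 hd
  rw [map_add, ← c.inner_slope] at h1 h2
  rw [inner_sub_right]
  linarith

theorem neg_mem_imBall (T : X →L[ℝ] Y) {z : Y} (hz : z ∈ imBall T) : -z ∈ imBall T := by
  have h1 : imBall T ⊆ {z : Y | -z ∈ imBall T} := by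
    refine closure_minimal ?_ (isClosed_closure.preimage continuous_neg)
    rintro _ ⟨x, hx, rfl⟩
    refine subset_closure ⟨-x, ?_, map_neg T x⟩
    rw [mem_closedBall_zero_iff] at hx ⊢
    rwa [norm_neg]
  exact h1 hz

theorem exists_contact_pos [FiniteDimensional ℝ Y] (T : X →L[ℝ] Y) (A : Y →L[ℝ] Y) (y₀ : Y) :
    ∃ e : Y →L[ℝ] ℝ, ‖e‖ ≤ 1 ∧ 0 ≤ e y₀ ∧ ∃ z ∈ imBall T, e (A z) = ‖A.comp T‖ := by
  obtain ⟨e, he, z, hz, heq⟩ := exists_contact T A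
  rcases le_total 0 (e y₀) with h | h
  · exact ⟨e, he, h, z, hz, heq⟩
  · refine ⟨-e, by rwa [norm_neg], by simpa using h, -z, neg_mem_imBall T hz, ?_⟩
    simpa using heq

theorem contact_main [FiniteDimensional ℝ Y] (c : Chart Y k) (T : X →L[ℝ] Y) (hT : ‖T‖ = 1)
    (hy : c.y₀ ∈ imBall T) (hSO : SecondOrder T) :
    ∃ E S : (EuclideanSpace ℝ (Fin k) × EuclideanSpace ℝ (Fin k)) →ₗ[ℝ]
        EuclideanSpace ℝ (Fin k), ∃ K : ℝ, 0 < K ∧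
      (∃ r : ℝ, 0 < r ∧ ∀ δ : EuclideanSpace ℝ (Fin k) × EuclideanSpace ℝ (Fin k), ‖δ‖ < r →
        ‖(ContinuousLinearMap.id ℝ Y + c.pert δ).comp T‖ ≤ 1 + K * ‖δ‖ ^ 2) ∧
      ∀ ε : ℝ, 0 < ε → ∃ r : ℝ, 0 < r ∧
        ∀ δ : EuclideanSpace ℝ (Fin k) × EuclideanSpace ℝ (Fin k), ‖δ‖ < r →
        ∃ x e' ζ : EuclideanSpace ℝ (Fin k), ∃ a : ℝ,
        IsSubgrad c.H x e' ∧ ‖x - (δ.1 + S δ)‖ ≤ ε * ‖δ‖ ∧ ‖e' - E δ‖ ≤ ε * ‖δ‖ ∧
        ‖ζ - S δ‖ ≤ ε * ‖δ‖ ∧ |a - 1| ≤ ε ∧ 0 ≤ inner ℝ e' ζ + a * inner ℝ δ.2 ζ := by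
  obtain ⟨g, q, hq⟩ := hSO
  set F := EuclideanSpace ℝ (Fin k) with hF
  set Pc : (F × F) →L[ℝ] (Y →L[ℝ] Y) := LinearMap.toContinuousLinearMap c.pert with hPc
  have hPca : ∀ δ, Pc δ = c.pert δ := fun δ => rfl
  set KB : ℝ := ‖Pc‖ + 1 with hKB
  have hKBpos : 0 < KB := by positivity
  have hKBn : ∀ δ, ‖c.pert δ‖ ≤ KB * ‖δ‖ := by
    intro δ
    calc ‖c.pert δ‖ = ‖Pc δ‖ := rfl
      _ ≤ ‖Pc‖ * ‖δ‖ := Pc.le_opNorm δ
      _ ≤ KB * ‖δ‖ := by gcongr; rw [hKB]; linarith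
  -- the linear maps
  set E : (F × F) →ₗ[ℝ] F := rieszLin
    (((ContinuousLinearMap.compL ℝ F (Y →L[ℝ] Y) ℝ).flip
      (Pc.comp (ContinuousLinearMap.inl ℝ F F))).toLinearMap ∘ₗ q.toLinearMap ∘ₗ c.pert) with hE
  set S : (F × F) →ₗ[ℝ] F := rieszLin
    (((ContinuousLinearMap.compL ℝ F (Y →L[ℝ] Y) ℝ).flip
      (Pc.comp (ContinuousLinearMap.inr ℝ F F))).toLinearMap ∘ₗ q.toLinearMap ∘ₗ c.pert) with hS
  have hEi : ∀ δ m', inner ℝ (E δ) m' = q (c.pert δ) (c.pert (m', 0)) := by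
    intro δ m'
    rw [hE, inner_rieszLin]
    rfl
  have hSi : ∀ δ m', inner ℝ (S δ) m' = q (c.pert δ) (c.pert (0, m')) := by
    intro δ m'
    rw [hS, inner_rieszLin]
    rfl
  set Ec : (F × F) →L[ℝ] F := LinearMap.toContinuousLinearMap E with hEc
  set Sc : (F × F) →L[ℝ] F := LinearMap.toContinuousLinearMap S with hSc
  set KE : ℝ := ‖Ec‖ + 1 with hKE
  set KS : ℝ := ‖Sc‖ + 1 with hKS
  have hKE1 : 1 ≤ KE := by rw [hKE]; linarith [norm_nonneg Ec]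
  have hKS1 : 1 ≤ KS := by rw [hKS]; linarith [norm_nonneg Sc]
  have hEn : ∀ δ, ‖E δ‖ ≤ (KE - 1) * ‖δ‖ := by
    intro δ
    have : KE - 1 = ‖Ec‖ := by rw [hKE]; ring
    rw [this]
    exact Ec.le_opNorm δ
  have hSn : ∀ δ, ‖S δ‖ ≤ (KS - 1) * ‖δ‖ := by
    intro δ
    have : KS - 1 = ‖Sc‖ := by rw [hKS]; ring
    rw [this]
    exact Sc.le_opNorm δ
  -- value of `g`
  have hg : ∀ B', g B' = c.e₀ (B' c.y₀) := by
    intro B'
    obtain ⟨r, hr, h⟩ := hq 1 one_pos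
    have h1 := h 0 (by rw [norm_zero]; exact hr) c.e₀ c.he₀ c.y₀ hy (by
      rw [add_zero, ContinuousLinearMap.id_comp, hT]
      exact c.h1) B'
    rw [norm_zero, mul_zero, zero_mul, map_zero] at h1
    have h2 := abs_nonpos_iff.1 h1
    simp only [zero_apply, sub_zero] at h2
    linarith
  -- bounds for the coordinates
  have hz_le : ∀ z ∈ imBall T, c.e₀ z ≤ 1 := by
    intro z hz
    have h1 := apply_le_of_mem_imBall hz (ContinuousLinearMap.id ℝ Y) c.he₀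
    rwa [ContinuousLinearMap.id_comp, hT] at h1
  have ha_le : ∀ e : Y →L[ℝ] ℝ, ‖e‖ ≤ 1 → e c.y₀ ≤ 1 := by
    intro e he
    have h1 := apply_le_of_mem_imBall hy (ContinuousLinearMap.id ℝ Y) he
    rwa [ContinuousLinearMap.id_comp, hT] at h1
  -- first estimates
  set qc : (F × F) →L[ℝ] ℝ := LinearMap.toContinuousLinearMap
    ((LinearMap.applyₗ (c.e₀.smulRight c.y₀ : Y →L[ℝ] Y)) ∘ₗ
      ContinuousLinearMap.coeLM ℝ ∘ₗ q.toLinearMap ∘ₗ c.pert) with hqc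
  have key : ∀ ε : ℝ, 0 < ε → ∃ r : ℝ, 0 < r ∧ ∀ δ : F × F, ‖δ‖ < r → ∀ e : Y →L[ℝ] ℝ, ‖e‖ ≤ 1 →
      ∀ z ∈ imBall T, e ((ContinuousLinearMap.id ℝ Y + c.pert δ) z)
        = ‖(ContinuousLinearMap.id ℝ Y + c.pert δ).comp T‖ →
      ‖c.e₀ z • c.slope e - E δ‖ ≤ ε * ‖δ‖ ∧ ‖e c.y₀ • c.π z - S δ‖ ≤ ε * ‖δ‖ ∧
        1 / 2 ≤ e c.y₀ * c.e₀ z := by
    intro ε hε
    set ε₁ : ℝ := ε / KB ^ 2 with hε₁
    have hε₁pos : 0 < ε₁ := by positivity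
    obtain ⟨r, hr, h⟩ := hq ε₁ hε₁pos
    set qb : ℝ := ‖qc‖ with hqb
    have hqb0 : 0 ≤ qb := norm_nonneg _
    refine ⟨min (r / KB) (1 / (2 * (ε₁ * KB + qb))), lt_min (by positivity) (by positivity), ?_⟩
    intro δ hδ e he z hz heq
    have hδ1 : ‖c.pert δ‖ < r := by
      calc ‖c.pert δ‖ ≤ KB * ‖δ‖ := hKBn δ
        _ < KB * (r / KB) := by
          gcongr
          exact hδ.trans_le (min_le_left _ _)
        _ = r := by field_simp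
    have hδ2 : (ε₁ * KB + qb) * ‖δ‖ ≤ 1 / 2 := by
      calc (ε₁ * KB + qb) * ‖δ‖ ≤ (ε₁ * KB + qb) * (1 / (2 * (ε₁ * KB + qb))) := by
            gcongr
            exact hδ.le.trans (min_le_right _ _)
        _ = 1 / 2 := by
            have : 0 < ε₁ * KB + qb := by positivity
            field_simp
    have h1 := h (c.pert δ) hδ1 e he z hz heq
    have hεδ : 0 ≤ ε * ‖δ‖ := mul_nonneg hε.le (norm_nonneg δ)
    refine ⟨?_, ?_, ?_⟩
    · refine norm_le_of_inner hεδ (fun m' => ?_)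
      have h2 := h1 (c.pert (m', 0))
      have h3 : e (c.pert (m', 0) z) = c.e₀ z * inner ℝ (c.slope e) m' := by
        rw [c.pert_apply, c.inner_slope]
        simp
      have h4 : g (c.pert (m', 0)) = 0 := by
        rw [hg, c.pert_apply, c.h1, c.π_y₀]
        simp [c.h2]
      rw [h3, h4, ← hEi, sub_zero] at h2
      rw [inner_sub_left, real_inner_smul_left]
      calc |c.e₀ z * inner ℝ (c.slope e) m' - inner ℝ (E δ) m'|
          ≤ ε₁ * ‖c.pert δ‖ * ‖c.pert (m', 0)‖ := h2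
        _ ≤ ε₁ * (KB * ‖δ‖) * (KB * ‖m'‖) := by
            gcongr
            · exact hKBn δ
            · refine (hKBn _).trans ?_
              gcongr
              rw [Prod.norm_def]
              simp
        _ = ε * ‖δ‖ * ‖m'‖ := by rw [hε₁]; field_simp
    · refine norm_le_of_inner hεδ (fun m' => ?_)
      have h2 := h1 (c.pert (0, m'))
      have h3 : e (c.pert (0, m') z) = e c.y₀ * inner ℝ (c.π z) m' := by
        rw [c.pert_apply]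
        simp only [map_zero, smul_zero, zero_add, map_smul, smul_eq_mul]
        rw [real_inner_comm, mul_comm]
      have h4 : g (c.pert (0, m')) = 0 := by
        rw [hg, c.pert_apply, c.h1, c.π_y₀]
        simp
      rw [h3, h4, ← hSi, sub_zero] at h2
      rw [inner_sub_left, real_inner_smul_left]
      calc |e c.y₀ * inner ℝ (c.π z) m' - inner ℝ (S δ) m'|
          ≤ ε₁ * ‖c.pert δ‖ * ‖c.pert (0, m')‖ := h2
        _ ≤ ε₁ * (KB * ‖δ‖) * (KB * ‖m'‖) := by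
            gcongr
            · exact hKBn δ
            · refine (hKBn _).trans ?_
              gcongr
              rw [Prod.norm_def]
              simp
        _ = ε * ‖δ‖ * ‖m'‖ := by rw [hε₁]; field_simp
    · have h2 := h1 (c.e₀.smulRight c.y₀)
      have h3 : e ((c.e₀.smulRight c.y₀) z) = e c.y₀ * c.e₀ z := by
        simp [mul_comm]
      have h4 : g (c.e₀.smulRight c.y₀) = 1 := by
        rw [hg]
        simp [c.h1]
      have h5 : ‖c.e₀.smulRight c.y₀‖ ≤ 1 := by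
        rw [ContinuousLinearMap.norm_smulRight_apply]
        calc ‖c.e₀‖ * ‖c.y₀‖ ≤ 1 * 1 := by
              gcongr
              · exact c.he₀
              · exact c.hy₀
          _ = 1 := one_mul 1
      rw [h3, h4] at h2
      have h6 : |q (c.pert δ) (c.e₀.smulRight c.y₀)| ≤ qb * ‖δ‖ := qc.le_opNorm δ
      have h7 : ε₁ * ‖c.pert δ‖ * ‖c.e₀.smulRight c.y₀‖ ≤ ε₁ * (KB * ‖δ‖) * 1 := by
        gcongr
        exact hKBn δ
      have h8 := (abs_le.1 (h2.trans h7)).1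
      have h9 := (abs_le.1 h6).1
      have h10 : (ε₁ * KB + qb) * ‖δ‖ = ε₁ * (KB * ‖δ‖) * 1 + qb * ‖δ‖ := by ring
      linarith
  -- the common part of the two conclusions
  have both : ∀ (δ : F × F) (e : Y →L[ℝ] ℝ), ‖e‖ ≤ 1 → ∀ z ∈ imBall T,
      e ((ContinuousLinearMap.id ℝ Y + c.pert δ) z)
        = ‖(ContinuousLinearMap.id ℝ Y + c.pert δ).comp T‖ → 1 / 2 ≤ e c.y₀ * c.e₀ z →
      0 ≤ c.e₀ z → 0 ≤ e c.y₀ →
      (1 / 2 ≤ e c.y₀ ∧ 1 / 2 ≤ c.e₀ z) ∧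
      1 ≤ c.e₀ z * e c.y₀ + inner ℝ (c.slope e) (c.π z) + c.e₀ z * inner ℝ (c.slope e) δ.1
        + e c.y₀ * inner ℝ δ.2 (c.π z) ∧
      ‖(ContinuousLinearMap.id ℝ Y + c.pert δ).comp T‖
        = c.e₀ z * e c.y₀ + inner ℝ (c.slope e) (c.π z) + c.e₀ z * inner ℝ (c.slope e) δ.1
        + e c.y₀ * inner ℝ δ.2 (c.π z) := by
    intro δ e he z hz heq haz hz0 ha0
    have hz1 := hz_le z hz
    have ha1 := ha_le e he
    have h1 : e z = c.e₀ z * e c.y₀ + inner ℝ (c.slope e) (c.π z) := by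
      nth_rewrite 1 [c.h4 z]
      rw [map_add, map_smul, smul_eq_mul, c.inner_slope]
    have h2 : e ((ContinuousLinearMap.id ℝ Y + c.pert δ) z)
        = c.e₀ z * e c.y₀ + inner ℝ (c.slope e) (c.π z) + c.e₀ z * inner ℝ (c.slope e) δ.1
        + e c.y₀ * inner ℝ δ.2 (c.π z) := by
      rw [add_apply, map_add, ContinuousLinearMap.id_apply, h1, c.pert_apply, map_add, map_smul,
        map_smul, smul_eq_mul, smul_eq_mul, c.inner_slope, c.inner_slope]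
      ring
    have h3 : 1 ≤ ‖(ContinuousLinearMap.id ℝ Y + c.pert δ).comp T‖ := by
      have h4 := apply_le_of_mem_imBall hy (ContinuousLinearMap.id ℝ Y + c.pert δ) c.he₀
      have h5 : c.e₀ ((ContinuousLinearMap.id ℝ Y + c.pert δ) c.y₀) = 1 := by
        rw [add_apply, map_add, ContinuousLinearMap.id_apply, c.h1, c.pert_apply, c.π_y₀]
        simp [c.h2]
      rwa [h5] at h4
    refine ⟨⟨?_, ?_⟩, ?_, ?_⟩
    · have := mul_le_mul_of_nonneg_left hz1 ha0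
      linarith only [this, haz]
    · have := mul_le_mul_of_nonneg_right ha1 hz0
      linarith only [this, haz]
    · rw [← h2, heq]; exact h3
    · rw [← h2, heq]
  -- main constants
  set K₂ : ℝ := 4 * KE * KS + 2 * KE + 2 * KS with hK₂
  have hK₂pos : 0 < K₂ := by positivity
  refine ⟨E, S, 2 * KE + 2 * KS, by positivity, ?_, ?_⟩
  · obtain ⟨r, hr, h⟩ := key 1 one_pos
    refine ⟨r, hr, fun δ hδ => ?_⟩
    obtain ⟨e, he, hpos, z, hz, heq⟩ :=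
      exists_contact_pos T (ContinuousLinearMap.id ℝ Y + c.pert δ) c.y₀
    obtain ⟨k1, k2, k3⟩ := h δ hδ e he z hz heq
    have hz0 : 0 ≤ c.e₀ z := by
      by_contra hcon
      push Not at hcon
      have := mul_nonpos_of_nonneg_of_nonpos hpos hcon.le
      linarith only [this, k3]
    obtain ⟨⟨ha, hz'⟩, hphi, hval⟩ := both δ e he z hz heq k3 hz0 hpos
    have hm : ‖δ.1‖ ≤ ‖δ‖ := norm_fst_le δ
    have hl : ‖δ.2‖ ≤ ‖δ‖ := norm_snd_le δ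
    obtain ⟨b1, b2, -, -, -, -⟩ := pair_estimates hm hl (ha_le e he) (hz_le z hz) ha hz'
      hKE1 hKS1 le_rfl (hEn δ) (hSn δ) k1 k2 (norm_nonneg δ) hphi
    have h1 : c.e₀ z * e c.y₀ + inner ℝ (c.slope e) (c.π z) ≤ 1 := by
      have h2 : e z = c.e₀ z * e c.y₀ + inner ℝ (c.slope e) (c.π z) := by
        nth_rewrite 1 [c.h4 z]
        rw [map_add, map_smul, smul_eq_mul, c.inner_slope]
      rw [← h2]
      have h3 := apply_le_of_mem_imBall hz (ContinuousLinearMap.id ℝ Y) he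
      rwa [ContinuousLinearMap.id_comp, hT] at h3
    have h2 : c.e₀ z * inner ℝ (c.slope e) δ.1 ≤ 2 * KE * ‖δ‖ * ‖δ‖ := by
      have h3 := (abs_le.1 (inner_le_of_norms b1 hm)).2
      have h4 : (0 : ℝ) ≤ 2 * KE * ‖δ‖ * ‖δ‖ := by positivity
      calc c.e₀ z * inner ℝ (c.slope e) δ.1 ≤ c.e₀ z * (2 * KE * ‖δ‖ * ‖δ‖) := by gcongr
        _ ≤ 1 * (2 * KE * ‖δ‖ * ‖δ‖) := by gcongr; exact hz_le z hz
        _ = 2 * KE * ‖δ‖ * ‖δ‖ := one_mul _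
    have h3 : e c.y₀ * inner ℝ δ.2 (c.π z) ≤ ‖δ‖ * (2 * KS * ‖δ‖) := by
      have h3 := (abs_le.1 (inner_le_of_norms hl b2)).2
      have h4 : (0 : ℝ) ≤ ‖δ‖ * (2 * KS * ‖δ‖) := by positivity
      calc e c.y₀ * inner ℝ δ.2 (c.π z) ≤ e c.y₀ * (‖δ‖ * (2 * KS * ‖δ‖)) := by gcongr
        _ ≤ 1 * (‖δ‖ * (2 * KS * ‖δ‖)) := by gcongr; exact ha_le e he
        _ = ‖δ‖ * (2 * KS * ‖δ‖) := one_mul _
    rw [hval]
    have h4 : (2 * KE + 2 * KS) * ‖δ‖ ^ 2 = 2 * KE * ‖δ‖ * ‖δ‖ + ‖δ‖ * (2 * KS * ‖δ‖) := by ring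
    linarith
  · intro ε hε
    set K₄ : ℝ := 2 * KE * K₂ + 2 * KS * K₂ + 2 * KS + (K₂ + 2 * KS) * KS + K₂ + 8 * KE + 1
      with hK₄
    have hK₄pos : 0 < K₄ := by positivity
    set ε₁ : ℝ := min (ε / 8) 1 with hε₁
    have hε₁pos : 0 < ε₁ := lt_min (by positivity) one_pos
    have hε₁1 : ε₁ ≤ 1 := min_le_right _ _
    have hε₁8 : ε₁ ≤ ε / 8 := min_le_left _ _
    obtain ⟨r, hr, h⟩ := key ε₁ hε₁pos
    refine ⟨min r (min (min 1 ε / (8 * K₄)) 1), lt_min hr (lt_min (by positivity) one_pos), ?_⟩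
    intro δ hδ
    obtain ⟨e, he, hpos, z, hz, heq⟩ :=
      exists_contact_pos T (ContinuousLinearMap.id ℝ Y + c.pert δ) c.y₀
    obtain ⟨k1, k2, k3⟩ := h δ (hδ.trans_le (min_le_left _ _)) e he z hz heq
    have hz0 : 0 ≤ c.e₀ z := by
      by_contra hcon
      push Not at hcon
      have := mul_nonpos_of_nonneg_of_nonpos hpos hcon.le
      linarith only [this, k3]
    obtain ⟨⟨ha, hz'⟩, hphi, hval⟩ := both δ e he z hz heq k3 hz0 hpos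
    have hm : ‖δ.1‖ ≤ ‖δ‖ := norm_fst_le δ
    have hl : ‖δ.2‖ ≤ ‖δ‖ := norm_snd_le δ
    obtain ⟨b1, b2, b3, b4, b5, b6⟩ := pair_estimates hm hl (ha_le e he) (hz_le z hz) ha hz'
      hKE1 hKS1 hε₁1 (hEn δ) (hSn δ) k1 k2 (norm_nonneg δ) hphi
    rw [← hK₂] at b3 b4 b5 b6
    set n : ℝ := ‖δ‖ with hn
    have hn0 : 0 ≤ n := norm_nonneg δ
    have hn1 : n ≤ 1 := hδ.le.trans ((min_le_right _ _).trans (min_le_right _ _))
    have hn2 : 8 * K₄ * n ≤ min 1 ε := by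
      have : n ≤ min 1 ε / (8 * K₄) := hδ.le.trans ((min_le_right _ _).trans (min_le_left _ _))
      calc 8 * K₄ * n ≤ 8 * K₄ * (min 1 ε / (8 * K₄)) := by gcongr
        _ = min 1 ε := by field_simp
    have hn3 : n ^ 2 ≤ n := by
      rw [sq]
      exact mul_le_of_le_one_right hn0 hn1
    have hn4 : K₄ * n ^ 2 ≤ min 1 ε / 8 := by
      have : K₄ * n ^ 2 ≤ K₄ * n := by gcongr
      linarith
    have hS' : ‖S δ‖ ≤ KS * n := by
      refine (hSn δ).trans ?_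
      gcongr
      linarith
    have hc1 : 2 * KS * K₂ + 2 * KS + (K₂ + 2 * KS) * KS ≤ K₄ := by
      have : 0 < 2 * KE * K₂ + K₂ + 8 * KE + 1 := by positivity
      rw [hK₄]; linarith
    have hc2 : 2 * KE * K₂ ≤ K₄ := by
      have : 0 < 2 * KS * K₂ + 2 * KS + (K₂ + 2 * KS) * KS + K₂ + 8 * KE + 1 := by positivity
      rw [hK₄]; linarith
    have hc3 : 2 * KS * K₂ ≤ K₄ := by
      have : 0 < 2 * KE * K₂ + 2 * KS + (K₂ + 2 * KS) * KS + K₂ + 8 * KE + 1 := by positivity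
      rw [hK₄]; linarith
    have hc4 : K₂ ≤ K₄ := by
      have : 0 < 2 * KE * K₂ + 2 * KS * K₂ + 2 * KS + (K₂ + 2 * KS) * KS + 8 * KE + 1 := by
        positivity
      rw [hK₄]; linarith
    have hc5 : 2 * KE ≤ K₄ := by
      have : 0 < 2 * KE * K₂ + 2 * KS * K₂ + 2 * KS + (K₂ + 2 * KS) * KS + K₂ + 6 * KE + 1 := by
        positivity
      rw [hK₄]; linarith
    obtain ⟨hdpos, hxest⟩ := slope_estimates hm hl b2 hz' (hz_le z hz) b3 hKS1 hK₂pos hS' b6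
      hn0 hε₁8 hn4 hc1
    have hb5 := const_estimates hn0 hc2 hε₁8 hε hn4 b5
    have hb6 := const_estimates hn0 hc3 hε₁8 hε hn4 b6
    clear key both hq
    have ha4 : 1 - e c.y₀ ≤ ε := by
      have h1 : K₂ * n ^ 2 ≤ K₄ * n ^ 2 := by gcongr
      have h2 : min 1 ε ≤ ε := min_le_right _ _
      linarith only [h1, h2, b4, hn4, hε]
    have hlast : 0 ≤ inner ℝ (c.slope e) (c.π z) + e c.y₀ * inner ℝ δ.2 (c.π z) := by
      have h1 := apply_le_of_mem_imBall hy (ContinuousLinearMap.id ℝ Y + c.pert δ) he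
      have h2 : e ((ContinuousLinearMap.id ℝ Y + c.pert δ) c.y₀)
          = e c.y₀ + inner ℝ (c.slope e) δ.1 := by
        rw [add_apply, map_add, ContinuousLinearMap.id_apply, c.pert_apply, c.h1, c.π_y₀, one_smul,
          inner_zero_right, zero_smul, add_zero, c.inner_slope]
      rw [h2, hval] at h1
      have h3 : |inner ℝ (c.slope e) δ.1| ≤ 1 / 2 := by
        have h4 : 2 * KE * n ^ 2 ≤ K₄ * n ^ 2 := by gcongr
        have h5 : min 1 ε ≤ 1 := min_le_left _ _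
        calc |inner ℝ (c.slope e) δ.1| ≤ 2 * KE * n * n := inner_le_of_norms b1 hm
          _ = 2 * KE * n ^ 2 := by ring
          _ ≤ 1 / 2 := by linarith only [h4, h5, hn4]
      have h4 : 0 ≤ (1 - c.e₀ z) * (e c.y₀ + inner ℝ (c.slope e) δ.1) := by
        apply mul_nonneg
        · have := hz_le z hz
          linarith only [this]
        · have := (abs_le.1 h3).1
          linarith only [this, ha]
      linarith only [h4, h1]
    set d : ℝ := c.e₀ z + inner ℝ δ.2 (c.π z) with hd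
    have hdx : d • (d⁻¹ • (c.π z + c.e₀ z • δ.1)) = c.π z + c.e₀ z • δ.1 := by
      rw [smul_smul, mul_inv_cancel₀ hdpos.ne', one_smul]
    generalize hxdef : d⁻¹ • (c.π z + c.e₀ z • δ.1) = x at hdx hxest
    have hBz : (ContinuousLinearMap.id ℝ Y + c.pert δ) z = d • (c.y₀ + c.κ x) := by
      rw [smul_add, ← map_smul, hdx, map_add, map_smul, hd, add_smul, add_apply,
        ContinuousLinearMap.id_apply, c.pert_apply]
      nth_rewrite 1 [c.h4 z]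
      abel
    refine ⟨x, c.slope e, c.π z, e c.y₀, isSubgrad_slope c T he hz heq hdpos hBz, hxest, hb5, hb6,
      ?_, hlast⟩
    have ha1 := ha_le e he
    rw [abs_sub_comm, abs_of_nonneg (by linarith only [ha1])]
    exact ha4

end Pool.Agent.Helper63.PropB.Red
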