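import Mathlib
import Pool.Agent.Helper63.PropB.Red.Alex

/-!
Second order expansion of a convex function at its minimum from first order information about
its subdifferential along a family of perturbations.
-/

namespace Pool.Agent.Helper63.PropB.Red

open Set Metric Filter Topology

theorem nonneg_of_approx {V : Type*} [PseudoMetricSpace V] {f : V → ℝ} (hf : Continuous f)
    {p : V} (h : ∀ ε : ℝ, 0 < ε → ∃ p', dist p' p ≤ ε ∧ 0 ≤ f p') : 0 ≤ f p := by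
  have hcl : IsClosed {v | 0 ≤ f v} := isClosed_le continuous_const hf
  have h1 : p ∈ closure {v | 0 ≤ f v} := by
    rw [Metric.mem_closure_iff]
    intro ε hε
    obtain ⟨p', hp', h0⟩ := h (ε / 2) (by positivity)
    exact ⟨p', h0, by rw [dist_comm]; linarith⟩
  rwa [hcl.closure_eq] at h1

section quad

variable {F : Type*} [NormedAddCommGroup F] [InnerProductSpace ℝ F]

/-- Approximate knowledge of the subdifferential of `H` near `0`. -/
def Approx (H : F → ℝ) (E S : F × F →ₗ[ℝ] F) : Prop :=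
  ∀ ε : ℝ, 0 < ε → ∃ r : ℝ, 0 < r ∧ ∀ δ : F × F, ‖δ‖ < r → ∃ x e' ζ : F, ∃ a : ℝ,
    IsSubgrad H x e' ∧ ‖x - (δ.1 + S δ)‖ ≤ ε * ‖δ‖ ∧ ‖e' - E δ‖ ≤ ε * ‖δ‖ ∧
    ‖ζ - S δ‖ ≤ ε * ‖δ‖ ∧ |a - 1| ≤ ε ∧ 0 ≤ inner ℝ e' ζ + a * inner ℝ δ.2 ζ

theorem Approx.scaled {H : F → ℝ} {E S : F × F →ₗ[ℝ] F} (h : Approx H E S) (δ : F × F)
    {ε s₀ : ℝ} (hε : 0 < ε) (hs₀ : 0 < s₀) :
    ∃ s : ℝ, 0 < s ∧ s ≤ s₀ ∧ ∃ x e' ζ : F, ∃ a : ℝ, IsSubgrad H (s • x) (s • e') ∧
      ‖x - (δ.1 + S δ)‖ ≤ ε ∧ ‖e' - E δ‖ ≤ ε ∧ ‖ζ - S δ‖ ≤ ε ∧ |a - 1| ≤ ε ∧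
      0 ≤ inner ℝ e' ζ + a * inner ℝ δ.2 ζ := by
  set ε' : ℝ := min (ε / (‖δ‖ + 1)) ε with hε'
  have hε'pos : 0 < ε' := lt_min (by positivity) hε
  obtain ⟨r, hr, h⟩ := h ε' hε'pos
  set s : ℝ := min s₀ (r / (2 * (‖δ‖ + 1))) with hs
  have hspos : 0 < s := lt_min hs₀ (by positivity)
  have hsδ : ‖s • δ‖ < r := by
    rw [norm_smul, Real.norm_of_nonneg hspos.le]
    calc s * ‖δ‖ ≤ r / (2 * (‖δ‖ + 1)) * ‖δ‖ := by gcongr; exact min_le_right _ _
      _ ≤ r / (2 * (‖δ‖ + 1)) * (‖δ‖ + 1) := by gcongr; linarith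
      _ = r / 2 := by field_simp
      _ < r := by linarith
  have hε'δ : ε' * ‖δ‖ ≤ ε := by
    calc ε' * ‖δ‖ ≤ ε / (‖δ‖ + 1) * ‖δ‖ := by gcongr; exact min_le_left _ _
      _ ≤ ε / (‖δ‖ + 1) * (‖δ‖ + 1) := by gcongr; linarith
      _ = ε := by field_simp
  obtain ⟨x, e', ζ, a, h1, h2, h3, h4, h5, h6⟩ := h (s • δ) hsδ
  have hscale : ∀ u w : F, ‖u - s • w‖ ≤ ε' * ‖s • δ‖ → ‖s⁻¹ • u - w‖ ≤ ε := by
    intro u w hu
    have h7 : s⁻¹ • u - w = s⁻¹ • (u - s • w) := by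
      rw [smul_sub, smul_smul, inv_mul_cancel₀ hspos.ne', one_smul]
    rw [h7, norm_smul, norm_inv, Real.norm_of_nonneg hspos.le]
    rw [norm_smul, Real.norm_of_nonneg hspos.le] at hu
    calc s⁻¹ * ‖u - s • w‖ ≤ s⁻¹ * (ε' * (s * ‖δ‖)) := by gcongr
      _ = ε' * ‖δ‖ := by field_simp
      _ ≤ ε := hε'δ
  refine ⟨s, hspos, min_le_left _ _, s⁻¹ • x, s⁻¹ • e', s⁻¹ • ζ, a, ?_, ?_, ?_, ?_, ?_, ?_⟩
  · rw [smul_smul, mul_inv_cancel₀ hspos.ne', one_smul, smul_smul, mul_inv_cancel₀ hspos.ne',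
      one_smul]
    exact h1
  · apply hscale
    rw [smul_add, ← map_smul]
    exact h2
  · apply hscale
    rw [← map_smul]
    exact h3
  · apply hscale
    rw [← map_smul]
    exact h4
  · exact h5.trans (min_le_right _ _)
  · rw [Prod.smul_snd, real_inner_smul_left] at h6
    have h7 : inner ℝ (s⁻¹ • e') (s⁻¹ • ζ) + a * inner ℝ δ.2 (s⁻¹ • ζ)
        = s⁻¹ ^ 2 * (inner ℝ e' ζ + a * (s * inner ℝ δ.2 ζ)) := by
      rw [real_inner_smul_left, real_inner_smul_right, real_inner_smul_right]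
      field_simp
    rw [h7]
    positivity

theorem Approx.pos₂ {H : F → ℝ} {E S : F × F →ₗ[ℝ] F} (h : Approx H E S) (hH : ∀ x, 1 ≤ H x)
    (hH0 : H 0 = 1) (δ : F × F) : 0 ≤ inner ℝ (E δ) (δ.1 + S δ) := by
  have hf : Continuous fun p : F × F => inner ℝ p.2 p.1 := by fun_prop
  refine nonneg_of_approx (f := fun p : F × F => inner ℝ p.2 p.1) hf
    (p := (δ.1 + S δ, E δ)) ?_
  intro ε hε
  obtain ⟨s, hs, -, x, e', ζ, a, h1, h2, h3, -, -, -⟩ := h.scaled δ hε one_pos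
  refine ⟨(x, e'), ?_, ?_⟩
  · rw [Prod.dist_eq, dist_eq_norm, dist_eq_norm]
    exact max_le h2 h3
  · have h4 := h1 0
    rw [hH0, zero_sub, inner_neg_right, real_inner_smul_left, real_inner_smul_right] at h4
    have h5 := hH (s • x)
    have h6 : 0 ≤ s * (s * inner ℝ e' x) := by linarith
    have h7 : 0 ≤ s * inner ℝ e' x := nonneg_of_mul_nonneg_right h6 hs
    exact nonneg_of_mul_nonneg_right h7 hs

theorem Approx.pos₃ {H : F → ℝ} {E S : F × F →ₗ[ℝ] F} (h : Approx H E S) (δ : F × F) :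
    0 ≤ inner ℝ (E δ + δ.2) (S δ) := by
  have hf : Continuous fun p : F × F × ℝ => inner ℝ p.1 p.2.1 + p.2.2 * inner ℝ δ.2 p.2.1 := by
    fun_prop
  have key := nonneg_of_approx hf (p := (E δ, S δ, 1)) (by
    intro ε hε
    obtain ⟨s, hs, -, x, e', ζ, a, -, -, h3, h4, h5, h6⟩ := h.scaled δ hε one_pos
    refine ⟨(e', ζ, a), ?_, h6⟩
    rw [Prod.dist_eq, Prod.dist_eq, dist_eq_norm, dist_eq_norm, Real.dist_eq]
    exact max_le h3 (max_le h4 h5))
  rw [inner_add_left]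
  simpa using key

theorem Approx.kernel {H : F → ℝ} {E S : F × F →ₗ[ℝ] F} (h : Approx H E S) (hH : ∀ x, 1 ≤ H x)
    {K rK : ℝ} (hK : 0 < K) (hrK : 0 < rK) (hup : ∀ x, ‖x‖ < rK → H x ≤ 1 + K * ‖x‖ ^ 2)
    {δ : F × F} (hδ : δ.1 + S δ = 0) : E δ = 0 := by
  set w := E δ with hw
  set θ : ℝ := 1 / (2 * K) with hθ
  have hθpos : 0 < θ := by positivity
  have hf : Continuous fun p : F × F => K * ‖θ • w‖ ^ 2 - inner ℝ p.2 (θ • w - p.1) := by
    fun_prop
  have key := nonneg_of_approx hf (p := (0, w)) (by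
    intro ε hε
    obtain ⟨s, hs, hs₀, x, e', ζ, a, h1, h2, h3, -, -, -⟩ := h.scaled δ hε
      (s₀ := rK / (2 * (‖θ • w‖ + 1))) (by positivity)
    rw [hδ] at h2
    refine ⟨(x, e'), ?_, ?_⟩
    · rw [Prod.dist_eq, dist_eq_norm, dist_eq_norm]
      exact max_le h2 h3
    · have h4 : ‖s • θ • w‖ < rK := by
        rw [norm_smul, Real.norm_of_nonneg hs.le]
        calc s * ‖θ • w‖ ≤ rK / (2 * (‖θ • w‖ + 1)) * ‖θ • w‖ := by gcongr
          _ ≤ rK / (2 * (‖θ • w‖ + 1)) * (‖θ • w‖ + 1) := by gcongr; linarith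
          _ = rK / 2 := by field_simp
          _ < rK := by linarith
      have h5 := hup _ h4
      have h6 := h1 (s • θ • w)
      have h7 := hH (s • x)
      rw [← smul_sub, real_inner_smul_left, real_inner_smul_right] at h6
      rw [norm_smul, Real.norm_of_nonneg hs.le, mul_pow] at h5
      have h8 : 0 ≤ s ^ 2 * (K * ‖θ • w‖ ^ 2 - inner ℝ e' (θ • w - x)) := by linarith
      exact nonneg_of_mul_nonneg_right h8 (by positivity))
  simp only [sub_zero] at key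
  rw [real_inner_smul_right, real_inner_self_eq_norm_sq, norm_smul, Real.norm_of_nonneg hθpos.le,
    mul_pow] at key
  have h1 : K * (θ ^ 2 * ‖w‖ ^ 2) = θ / 2 * ‖w‖ ^ 2 := by
    rw [hθ]; field_simp
  rw [h1] at key
  have h2 : θ / 2 * ‖w‖ ^ 2 ≤ 0 := by linarith
  have h3 : ‖w‖ ^ 2 ≤ 0 := by
    by_contra hcon
    push Not at hcon
    have : 0 < θ / 2 * ‖w‖ ^ 2 := by positivity
    linarith
  have h4 : ‖w‖ = 0 := by
    have := sq_nonneg ‖w‖
    exact pow_eq_zero_iff (two_ne_zero) |>.1 (le_antisymm h3 this)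
  exact norm_eq_zero.1 h4

theorem exists_hessian [FiniteDimensional ℝ F] {H : F → ℝ} (hH : ∀ x, 1 ≤ H x) (hH0 : H 0 = 1)
    {E S : F × F →ₗ[ℝ] F} (h : Approx H E S) {K rK : ℝ} (hK : 0 < K) (hrK : 0 < rK)
    (hup : ∀ x, ‖x‖ < rK → H x ≤ 1 + K * ‖x‖ ^ 2) :
    ∃ M : F →L[ℝ] F, (∀ x, 0 ≤ inner ℝ (M x) x) ∧
      ∀ ε : ℝ, 0 < ε → ∃ r : ℝ, 0 < r ∧ ∀ x : F, ‖x‖ < r → ∃ x' e' : F, IsSubgrad H x' e' ∧
        ‖x' - x‖ ≤ ε * ‖x‖ ∧ ‖e' - M x‖ ≤ ε * ‖x‖ := by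
  set Λ : F × F →ₗ[ℝ] F × F :=
    (LinearMap.fst ℝ F F + S).prod (S + LinearMap.snd ℝ F F + E) with hΛ
  have hΛa : ∀ δ, Λ δ = (δ.1 + S δ, S δ + δ.2 + E δ) := fun δ => rfl
  have hinj : Function.Injective Λ := by
    rw [← LinearMap.ker_eq_bot, LinearMap.ker_eq_bot']
    intro δ hδ
    rw [hΛa, Prod.mk_eq_zero] at hδ
    obtain ⟨h1, h2⟩ := hδ
    have h3 : E δ = 0 := h.kernel hH hK hrK hup h1
    rw [h3, add_zero] at h2
    have h4 : δ.2 = - S δ := eq_neg_of_add_eq_zero_right h2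
    have h5 := h.pos₃ δ
    rw [h3, zero_add, h4, inner_neg_left, real_inner_self_eq_norm_sq] at h5
    have h6 : S δ = 0 := by
      have h7 : ‖S δ‖ ^ 2 = 0 := le_antisymm (by linarith) (sq_nonneg _)
      exact norm_eq_zero.1 (pow_eq_zero_iff two_ne_zero |>.1 h7)
    rw [h6, neg_zero] at h4
    rw [h6, add_zero] at h1
    exact Prod.ext h1 h4
  set Λe : (F × F) ≃ₗ[ℝ] (F × F) := LinearEquiv.ofInjectiveEndo Λ hinj with hΛe
  have hΛea : ∀ δ, Λe δ = Λ δ := fun δ => rfl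
  set ρ : F →ₗ[ℝ] F × F := Λe.symm.toLinearMap.comp (LinearMap.inl ℝ F F) with hρ
  have hρa : ∀ x, Λ (ρ x) = (x, 0) := by
    intro x
    rw [← hΛea]
    exact Λe.apply_symm_apply _
  have hρ1 : ∀ x, (ρ x).1 + S (ρ x) = x := by
    intro x
    have := hρa x
    rw [hΛa] at this
    exact congrArg Prod.fst this
  set Kρ : ℝ := ‖LinearMap.toContinuousLinearMap ρ‖ + 1 with hKρ
  have hKρpos : 0 < Kρ := by positivity
  have hρn : ∀ x, ‖ρ x‖ ≤ Kρ * ‖x‖ := by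
    intro x
    calc ‖ρ x‖ = ‖LinearMap.toContinuousLinearMap ρ x‖ := rfl
      _ ≤ ‖LinearMap.toContinuousLinearMap ρ‖ * ‖x‖ := ContinuousLinearMap.le_opNorm _ _
      _ ≤ Kρ * ‖x‖ := by gcongr; rw [hKρ]; linarith
  refine ⟨LinearMap.toContinuousLinearMap (E.comp ρ), ?_, ?_⟩
  · intro x
    have := h.pos₂ hH hH0 (ρ x)
    rw [hρ1] at this
    exact this
  · intro ε hε
    obtain ⟨r, hr, hr'⟩ := h (ε / Kρ) (by positivity)
    refine ⟨r / Kρ, by positivity, fun x hx => ?_⟩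
    have h1 : ‖ρ x‖ < r := by
      calc ‖ρ x‖ ≤ Kρ * ‖x‖ := hρn x
        _ < Kρ * (r / Kρ) := by gcongr
        _ = r := by field_simp
    obtain ⟨x', e', ζ, a, h2, h3, h4, -, -, -⟩ := hr' (ρ x) h1
    have h5 : ε / Kρ * ‖ρ x‖ ≤ ε * ‖x‖ := by
      calc ε / Kρ * ‖ρ x‖ ≤ ε / Kρ * (Kρ * ‖x‖) := by gcongr; exact hρn x
        _ = ε * ‖x‖ := by field_simp
    rw [hρ1] at h3
    exact ⟨x', e', h2, h3.trans h5, h4.trans h5⟩

theorem le_of_sq_increments {g : ℝ → ℝ} {C : ℝ}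
    (h : ∀ s t : ℝ, 0 ≤ s → s ≤ t → t ≤ 1 → g t - g s ≤ C * (t - s) ^ 2) : g 1 ≤ g 0 := by
  have key : ∀ J : ℕ, g 1 - g 0 ≤ |C| * ((J : ℝ) + 1)⁻¹ := by
    intro J
    have h1 : g 1 - g 0 = ∑ j ∈ Finset.range (J + 1),
        (g (((j + 1 : ℕ) : ℝ) * ((J : ℝ) + 1)⁻¹) - g ((j : ℝ) * ((J : ℝ) + 1)⁻¹)) := by
      rw [Finset.sum_range_sub (fun j : ℕ => g ((j : ℝ) * ((J : ℝ) + 1)⁻¹))]
      congr 1
      · push_cast
        rw [mul_inv_cancel₀ (by positivity)]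
      · simp
    rw [h1]
    have hJ : (0 : ℝ) < (J : ℝ) + 1 := by positivity
    calc _ ≤ ∑ j ∈ Finset.range (J + 1), |C| * ((J : ℝ) + 1)⁻¹ ^ 2 := by
          apply Finset.sum_le_sum
          intro j hj
          rw [Finset.mem_range] at hj
          have hj' : ((j + 1 : ℕ) : ℝ) ≤ (J : ℝ) + 1 := by exact_mod_cast hj
          have h2 := h ((j : ℝ) * ((J : ℝ) + 1)⁻¹) (((j + 1 : ℕ) : ℝ) * ((J : ℝ) + 1)⁻¹)
            (by positivity) (by gcongr; linarith)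
            (by
              calc ((j + 1 : ℕ) : ℝ) * ((J : ℝ) + 1)⁻¹ ≤ ((J : ℝ) + 1) * ((J : ℝ) + 1)⁻¹ := by
                    gcongr
                _ = 1 := mul_inv_cancel₀ hJ.ne')
          refine h2.trans ?_
          have h3 : ((j + 1 : ℕ) : ℝ) * ((J : ℝ) + 1)⁻¹ - (j : ℝ) * ((J : ℝ) + 1)⁻¹
              = ((J : ℝ) + 1)⁻¹ := by
            push_cast; ring
          rw [h3]
          gcongr
          exact le_abs_self C
      _ = |C| * ((J : ℝ) + 1)⁻¹ := by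
          rw [Finset.sum_const, Finset.card_range, nsmul_eq_mul]
          push_cast
          field_simp
  have hlim : Tendsto (fun J : ℕ => |C| * ((J : ℝ) + 1)⁻¹) atTop (𝓝 (|C| * 0)) := by
    apply Tendsto.const_mul
    exact tendsto_inv_atTop_zero.comp
      (tendsto_atTop_add_const_right _ _ tendsto_natCast_atTop_atTop)
  rw [mul_zero] at hlim
  have := ge_of_tendsto' hlim key
  linarith

/-- Subgradients near the minimum are close to the gradient of the quadratic form, radially. -/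
theorem subgrad_radial {H : F → ℝ} (hH : ∀ x, 1 ≤ H x) {K rK : ℝ} (hK : 0 < K) (hrK : 0 < rK)
    (hup : ∀ x, ‖x‖ < rK → H x ≤ 1 + K * ‖x‖ ^ 2) (M : F →L[ℝ] F)
    (happ : ∀ ε : ℝ, 0 < ε → ∃ r : ℝ, 0 < r ∧ ∀ x : F, ‖x‖ < r → ∃ x' e' : F,
      IsSubgrad H x' e' ∧ ‖x' - x‖ ≤ ε * ‖x‖ ∧ ‖e' - M x‖ ≤ ε * ‖x‖) {ε : ℝ} (hε : 0 < ε) :
    ∃ r : ℝ, 0 < r ∧ ∀ x e : F, ‖x‖ < r → IsSubgrad H x e →
      |inner ℝ (e - M x) x| ≤ ε * ‖x‖ ^ 2 := by
  set KM : ℝ := ‖M‖ with hKM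
  have hKM0 : 0 ≤ KM := norm_nonneg _
  set θ : ℝ := min 1 (ε / (4 * (KM + 1))) with hθ
  have hθpos : 0 < θ := lt_min one_pos (by positivity)
  have hθ1 : θ ≤ 1 := min_le_left _ _
  have hθ2 : θ * KM ≤ ε / 4 := by
    calc θ * KM ≤ ε / (4 * (KM + 1)) * (KM + 1) := by
          gcongr
          · exact min_le_right _ _
          · linarith
      _ = ε / 4 := by field_simp
  set C : ℝ := 2 * KM + 4 * K + 2 with hC
  have hCpos : 0 < C := by positivity
  set ε₁ : ℝ := min 1 (θ * ε / (8 * (C + 1))) with hε₁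
  have hε₁pos : 0 < ε₁ := lt_min one_pos (by positivity)
  have hε₁1 : ε₁ ≤ 1 := min_le_left _ _
  have hε₁2 : ε₁ * (C + 1) ≤ θ * ε / 8 := by
    calc ε₁ * (C + 1) ≤ θ * ε / (8 * (C + 1)) * (C + 1) := by
          gcongr
          exact min_le_right _ _
      _ = θ * ε / 8 := by field_simp
  obtain ⟨r, hr, happ⟩ := happ ε₁ hε₁pos
  refine ⟨min (r / 2) (rK / 2), lt_min (by positivity) (by positivity), ?_⟩
  intro x e hx he
  have hxr : ‖x‖ < r / 2 := hx.trans_le (min_le_left _ _)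
  have hxK : ‖x‖ < rK / 2 := hx.trans_le (min_le_right _ _)
  set n : ℝ := ‖x‖ with hn
  have hn0 : 0 ≤ n := norm_nonneg _
  have hMx : ‖M x‖ ≤ KM * n := M.le_opNorm x
  -- the size of the subgradient
  have hen : ‖e‖ ≤ 4 * K * n := by
    rcases eq_or_ne e 0 with h0 | h0
    · rw [h0, norm_zero]; positivity
    · have he0 : 0 < ‖e‖ := norm_pos_iff.2 h0
      have key : ∀ t : ℝ, 0 < t → n + t < rK → t * ‖e‖ ≤ K * (n + t) ^ 2 := by
        intro t ht htK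
        have h1 := he (x + (t * ‖e‖⁻¹) • e)
        have h2 : ‖x + (t * ‖e‖⁻¹) • e‖ ≤ n + t := by
          refine (norm_add_le _ _).trans ?_
          rw [norm_smul, Real.norm_of_nonneg (by positivity), mul_assoc,
            inv_mul_cancel₀ he0.ne', mul_one]
        have h3 := hup _ (h2.trans_lt htK)
        rw [add_sub_cancel_left, real_inner_smul_right, real_inner_self_eq_norm_sq] at h1
        have h4 : t * ‖e‖⁻¹ * ‖e‖ ^ 2 = t * ‖e‖ := by field_simp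
        rw [h4] at h1
        have h5 := hH x
        have h6 : ‖x + (t * ‖e‖⁻¹) • e‖ ^ 2 ≤ (n + t) ^ 2 := by gcongr
        have h7 : K * ‖x + (t * ‖e‖⁻¹) • e‖ ^ 2 ≤ K * (n + t) ^ 2 := by gcongr
        linarith
      rcases eq_or_lt_of_le hn0 with hn1 | hn1
      · -- the point itself is the minimum
        rw [← hn1, mul_zero]
        by_contra hcon
        set t : ℝ := min (rK / 2) (‖e‖ / (2 * K)) with ht
        have htpos : 0 < t := lt_min (by positivity) (by positivity)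
        have h1 := key t htpos (by
          rw [← hn1, zero_add]
          exact (min_le_left _ _).trans_lt (by linarith))
        rw [← hn1, zero_add] at h1
        have h2 : ‖e‖ ≤ K * t := by
          have : t * ‖e‖ ≤ t * (K * t) := by linarith
          exact le_of_mul_le_mul_left this htpos
        have h3 : K * t ≤ ‖e‖ / 2 := by
          calc K * t ≤ K * (‖e‖ / (2 * K)) := by gcongr; exact min_le_right _ _
            _ = ‖e‖ / 2 := by field_simp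
        linarith
      · have h1 := key n hn1 (by linarith)
        have h2 : n * ‖e‖ ≤ n * (4 * K * n) := by linarith
        exact le_of_mul_le_mul_left h2 hn1
  have hdiff : ‖M x - e‖ ≤ (KM + 4 * K) * n := by
    calc ‖M x - e‖ ≤ ‖M x‖ + ‖e‖ := norm_sub_le _ _
      _ ≤ KM * n + 4 * K * n := by gcongr
      _ = (KM + 4 * K) * n := by ring
  -- comparison with a nearby radial point
  have hcmp : ∀ σ : ℝ, |σ| ≤ 1 →
      -(ε₁ * 2 * (C + 1) * n ^ 2) ≤ σ * inner ℝ (M x - e) x + σ ^ 2 * inner ℝ (M x) x := by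
    intro σ hσ
    have hσ' : |1 + σ| ≤ 2 := (abs_add_le _ _).trans (by rw [abs_one]; linarith)
    have h1 : ‖(1 + σ) • x‖ ≤ 2 * n := by
      rw [norm_smul, Real.norm_eq_abs]
      gcongr
    obtain ⟨x', e', h2, h3, h4⟩ := happ ((1 + σ) • x) (by linarith)
    have h3' : ‖x' - (1 + σ) • x‖ ≤ 2 * ε₁ * n := by
      refine h3.trans ?_
      calc ε₁ * ‖(1 + σ) • x‖ ≤ ε₁ * (2 * n) := by gcongr
        _ = 2 * ε₁ * n := by ring
    have h4' : ‖e' - (1 + σ) • M x‖ ≤ 2 * ε₁ * n := by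
      rw [← map_smul]
      refine h4.trans ?_
      calc ε₁ * ‖(1 + σ) • x‖ ≤ ε₁ * (2 * n) := by gcongr
        _ = 2 * ε₁ * n := by ring
    set η := x' - (1 + σ) • x with hη
    set ζ := e' - (1 + σ) • M x with hζ
    have h5 := h2.mono he
    have h6 : x' - x = σ • x + η := by rw [hη]; module
    have h7 : e' - e = (M x - e) + σ • M x + ζ := by rw [hζ]; module
    have h8 : inner ℝ (x' - x) (e' - e) = σ * inner ℝ (M x - e) x + σ ^ 2 * inner ℝ (M x) x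
        + σ * inner ℝ ζ x + inner ℝ η (e' - e) := by
      rw [h6, inner_add_left, real_inner_smul_left]
      have h9 : inner ℝ x (e' - e) = inner ℝ (M x - e) x + σ * inner ℝ (M x) x + inner ℝ ζ x := by
        rw [h7, real_inner_comm, inner_add_left, inner_add_left, real_inner_smul_left]
      rw [h9]
      ring
    have h9 : |σ * inner ℝ ζ x| ≤ 2 * ε₁ * n ^ 2 := by
      rw [abs_mul]
      calc |σ| * |inner ℝ ζ x| ≤ 1 * (‖ζ‖ * ‖x‖) := by
            gcongr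
            exact abs_real_inner_le_norm _ _
        _ ≤ 1 * ((2 * ε₁ * n) * n) := by gcongr
        _ = 2 * ε₁ * n ^ 2 := by ring
    have h10 : ‖e' - e‖ ≤ C * n := by
      rw [h7]
      calc ‖(M x - e) + σ • M x + ζ‖ ≤ ‖M x - e‖ + ‖σ • M x‖ + ‖ζ‖ := norm_add₃_le
        _ ≤ (KM + 4 * K) * n + 1 * (KM * n) + 2 * 1 * n := by
            gcongr
            · rw [norm_smul, Real.norm_eq_abs]
              gcongr
            · exact h4'.trans (by gcongr)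
        _ = C * n := by rw [hC]; ring
    have h11 : |inner ℝ η (e' - e)| ≤ 2 * ε₁ * n * (C * n) := by
      calc |inner ℝ η (e' - e)| ≤ ‖η‖ * ‖e' - e‖ := abs_real_inner_le_norm _ _
        _ ≤ 2 * ε₁ * n * (C * n) := by gcongr
    rw [h8] at h5
    have h12 := (abs_le.1 h9).2
    have h13 := (abs_le.1 h11).2
    have h14 : ε₁ * 2 * (C + 1) * n ^ 2 = 2 * ε₁ * n ^ 2 + 2 * ε₁ * n * (C * n) := by ring
    linarith only [h5, h12, h13, h14]
  have hMxx : |inner ℝ (M x) x| ≤ KM * n ^ 2 := by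
    calc |inner ℝ (M x) x| ≤ ‖M x‖ * ‖x‖ := abs_real_inner_le_norm _ _
      _ ≤ KM * n * n := by gcongr
      _ = KM * n ^ 2 := by ring
  have hq : θ ^ 2 * |inner ℝ (M x) x| ≤ θ * (ε / 4 * n ^ 2) := by
    calc θ ^ 2 * |inner ℝ (M x) x| ≤ θ ^ 2 * (KM * n ^ 2) := by gcongr
      _ = θ * (θ * KM * n ^ 2) := by ring
      _ ≤ θ * (ε / 4 * n ^ 2) := by gcongr
  have he1 : ε₁ * 2 * (C + 1) * n ^ 2 ≤ θ * (ε / 4 * n ^ 2) := by
    calc ε₁ * 2 * (C + 1) * n ^ 2 = 2 * (ε₁ * (C + 1)) * n ^ 2 := by ring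
      _ ≤ 2 * (θ * ε / 8) * n ^ 2 := by gcongr
      _ = θ * (ε / 4 * n ^ 2) := by ring
  have hfin : ∀ σ : ℝ, |σ| = θ → σ * inner ℝ (e - M x) x ≤ θ * (ε * n ^ 2) := by
    intro σ hσ
    have h1 := hcmp σ (hσ.le.trans hθ1)
    have h2 : σ ^ 2 = θ ^ 2 := by rw [← sq_abs, hσ]
    have h3 : inner ℝ (e - M x) x = - inner ℝ (M x - e) x := by
      rw [← inner_neg_left, neg_sub]
    rw [h2] at h1
    have h4 : θ ^ 2 * inner ℝ (M x) x ≤ θ ^ 2 * |inner ℝ (M x) x| := by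
      gcongr
      exact le_abs_self _
    have h5 : 0 ≤ θ * (ε * n ^ 2) := by positivity
    rw [h3]
    linarith
  rw [abs_le]
  constructor
  · have h1 := hfin (-θ) (by rw [abs_neg, abs_of_pos hθpos])
    have h2 : θ * (-inner ℝ (e - M x) x) ≤ θ * (ε * n ^ 2) := by linarith
    have := le_of_mul_le_mul_left h2 hθpos
    linarith
  · exact le_of_mul_le_mul_left (hfin θ (abs_of_pos hθpos)) hθpos

theorem quad_expansion {H : F → ℝ} (hH : ∀ x, 1 ≤ H x) (hH0 : H 0 = 1)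
    (hsub : ∀ x, ∃ e, IsSubgrad H x e) {K rK : ℝ} (hK : 0 < K) (hrK : 0 < rK)
    (hup : ∀ x, ‖x‖ < rK → H x ≤ 1 + K * ‖x‖ ^ 2) (M : F →L[ℝ] F)
    (happ : ∀ ε : ℝ, 0 < ε → ∃ r : ℝ, 0 < r ∧ ∀ x : F, ‖x‖ < r → ∃ x' e' : F,
      IsSubgrad H x' e' ∧ ‖x' - x‖ ≤ ε * ‖x‖ ∧ ‖e' - M x‖ ≤ ε * ‖x‖) {ε : ℝ} (hε : 0 < ε) :
    ∃ r : ℝ, 0 < r ∧ ∀ x : F, ‖x‖ < r →
      |H x - 1 - 1 / 2 * inner ℝ (M x) x| ≤ ε * ‖x‖ ^ 2 := by
  obtain ⟨r, hr, hrad⟩ := subgrad_radial hH hK hrK hup M happ hε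
  refine ⟨r, hr, fun x hx => ?_⟩
  -- the derivative along the ray
  have hray : ∀ t : ℝ, 0 ≤ t → t ≤ 1 → ∃ e, IsSubgrad H (t • x) e ∧
      |inner ℝ e x - t * inner ℝ (M x) x| ≤ ε * t * ‖x‖ ^ 2 := by
    intro t ht ht1
    rcases eq_or_lt_of_le ht with h0 | h0
    · refine ⟨0, ?_, ?_⟩
      · intro y
        rw [← h0, zero_smul, inner_zero_left, add_zero, hH0]
        exact hH y
      · rw [← h0]; simp
    · obtain ⟨e, he⟩ := hsub (t • x)
      refine ⟨e, he, ?_⟩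
      have h1 : ‖t • x‖ < r := by
        rw [norm_smul, Real.norm_of_nonneg ht]
        calc t * ‖x‖ ≤ 1 * ‖x‖ := by gcongr
          _ < r := by rw [one_mul]; exact hx
      have h2 := hrad _ _ h1 he
      have h3 : inner ℝ (e - M (t • x)) (t • x)
          = t * (inner ℝ e x - t * inner ℝ (M x) x) := by
        rw [map_smul, real_inner_smul_right, inner_sub_left, real_inner_smul_left]
      rw [h3, abs_mul, abs_of_pos h0, norm_smul, Real.norm_of_nonneg ht, mul_pow] at h2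
      have h4 : t * |inner ℝ e x - t * inner ℝ (M x) x| ≤ t * (ε * t * ‖x‖ ^ 2) := by linarith
      exact le_of_mul_le_mul_left h4 h0
  set c : ℝ := inner ℝ (M x) x with hc
  set N : ℝ := ‖x‖ ^ 2 with hN
  have hup' : H x - 1 ≤ 1 / 2 * (c + ε * N) := by
    have h1 := le_of_sq_increments (g := fun t => H (t • x) - 1 / 2 * (c + ε * N) * t ^ 2)
      (C := 1 / 2 * (c + ε * N)) (by
        intro s t hs hst ht
        obtain ⟨e, he, h2⟩ := hray t (hs.trans hst) ht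
        have h3 := he (s • x)
        rw [← sub_smul, real_inner_smul_right] at h3
        have h4 := (abs_le.1 h2).2
        have h5 : (t - s) * (inner ℝ e x - t * c) ≤ (t - s) * (ε * t * N) :=
          mul_le_mul_of_nonneg_left h4 (by linarith)
        have h6 : H (t • x) - H (s • x) ≤ (t - s) * (t * c + ε * t * N) := by linarith
        have h7 : (t - s) * (t * c + ε * t * N) - 1 / 2 * (c + ε * N) * (t ^ 2 - s ^ 2)
            = 1 / 2 * (c + ε * N) * (t - s) ^ 2 := by ring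
        linarith)
    simp only [one_smul, zero_smul] at h1
    rw [hH0] at h1
    linarith
  have hlo' : 1 / 2 * (c - ε * N) ≤ H x - 1 := by
    have h1 := le_of_sq_increments (g := fun t => 1 / 2 * (c - ε * N) * t ^ 2 - H (t • x))
      (C := 1 / 2 * (c - ε * N)) (by
        intro s t hs hst ht
        obtain ⟨e, he, h2⟩ := hray s hs (hst.trans ht)
        have h3 := he (t • x)
        rw [← sub_smul, real_inner_smul_right] at h3
        have h4 := (abs_le.1 h2).1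
        have h5 : (t - s) * -(ε * s * N) ≤ (t - s) * (inner ℝ e x - s * c) :=
          mul_le_mul_of_nonneg_left h4 (by linarith)
        have h6 : (t - s) * (s * c - ε * s * N) ≤ H (t • x) - H (s • x) := by linarith
        have h7 : 1 / 2 * (c - ε * N) * (t ^ 2 - s ^ 2) - (t - s) * (s * c - ε * s * N)
            = 1 / 2 * (c - ε * N) * (t - s) ^ 2 := by ring
        linarith)
    simp only [one_smul, zero_smul] at h1
    rw [hH0] at h1
    linarith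
  have hN0 : 0 ≤ ε * N := by positivity
  rw [abs_le]
  constructor <;> linarith

end quad

end Pool.Agent.Helper63.PropB.Red
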