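import Mathlib
import Pool.Agent.Helper63.PropB.Red.Max
import Pool.Agent.Helper63.PropB.Red.Quad

/-!
The quadratic expansion of the norm at a contact of second order and an ellipsoid between the norm
and the image of the ball.
-/

namespace Pool.Agent.Helper63.PropB.Red

open Set Metric Filter Topology

universe u v

variable {X : Type u} [NormedAddCommGroup X] [NormedSpace ℝ X]
variable {Y : Type v} [NormedAddCommGroup Y] [NormedSpace ℝ Y] {k : ℕ}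

theorem Chart.apply_κ_eq (c : Chart Y k) {z : Y} {x : EuclideanSpace ℝ (Fin k)}
    (h : c.π z = c.e₀ z • x) : z = c.e₀ z • (c.y₀ + c.κ x) := by
  rw [smul_add, ← map_smul, ← h]
  exact c.h4 z

theorem growth (c : Chart Y k) (T : X →L[ℝ] Y) {K rK : ℝ} (hK : 0 < K) (hrK : 0 < rK)
    (hb : ∀ δ : EuclideanSpace ℝ (Fin k) × EuclideanSpace ℝ (Fin k), ‖δ‖ < rK →
      ‖(ContinuousLinearMap.id ℝ Y + c.pert δ).comp T‖ ≤ 1 + K * ‖δ‖ ^ 2) :
    ∃ r : ℝ, 0 < r ∧ ∀ z ∈ imBall T, 1 / 2 ≤ c.e₀ z → ∀ x, c.π z = c.e₀ z • x → ‖x‖ < r →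
      c.e₀ z * (c.H x + 1 / (32 * K) * ‖x‖ ^ 2) ≤ 1 := by
  refine ⟨min (8 * K * rK) (1 / (2 * (‖c.κ‖ + 1))), lt_min (by positivity) (by positivity), ?_⟩
  intro z hz hz0 x hx hxr
  have hx1 : ‖x‖ < 8 * K * rK := hxr.trans_le (min_le_left _ _)
  have hx2 : ‖c.κ‖ * ‖x‖ ≤ 1 / 2 := by
    calc ‖c.κ‖ * ‖x‖ ≤ (‖c.κ‖ + 1) * (1 / (2 * (‖c.κ‖ + 1))) := by
          gcongr
          · linarith
          · exact hxr.le.trans (min_le_right _ _)
      _ = 1 / 2 := by field_simp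
  obtain ⟨e, he, hen⟩ := exists_dual_vector'' ℝ (c.y₀ + c.κ x)
  have hen' : e (c.y₀ + c.κ x) = c.H x := hen
  set s : ℝ := 1 / (8 * K) with hs
  have hspos : 0 < s := by positivity
  have hδ : ‖((0 : EuclideanSpace ℝ (Fin k)), s • x)‖ = s * ‖x‖ := by
    rw [Prod.norm_def, norm_zero, norm_smul, Real.norm_of_nonneg hspos.le]
    exact max_eq_right (by positivity)
  have hδr : ‖((0 : EuclideanSpace ℝ (Fin k)), s • x)‖ < rK := by
    rw [hδ]
    calc s * ‖x‖ < s * (8 * K * rK) := by gcongr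
      _ = rK := by rw [hs]; field_simp
  have h1 := apply_le_of_mem_imBall hz
    (ContinuousLinearMap.id ℝ Y + c.pert ((0 : EuclideanSpace ℝ (Fin k)), s • x)) he
  have h2 := hb _ hδr
  rw [hδ] at h2
  have h3 : e ((ContinuousLinearMap.id ℝ Y + c.pert ((0 : EuclideanSpace ℝ (Fin k)), s • x)) z)
      = c.e₀ z * c.H x + s * (c.e₀ z * ‖x‖ ^ 2) * e c.y₀ := by
    rw [add_apply, map_add, ContinuousLinearMap.id_apply, c.pert_apply, map_zero, smul_zero,
      zero_add, map_smul, smul_eq_mul, hx, real_inner_smul_left, real_inner_smul_right,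
      real_inner_self_eq_norm_sq]
    congr 1
    conv_lhs => rw [c.apply_κ_eq hx]
    rw [map_smul, smul_eq_mul, hen']
  have h4 : 1 / 2 ≤ e c.y₀ := by
    have h5 : e c.y₀ = c.H x - e (c.κ x) := by rw [← hen', map_add]; ring
    have h6 : |e (c.κ x)| ≤ 1 / 2 := by
      calc |e (c.κ x)| = ‖e (c.κ x)‖ := rfl
        _ ≤ ‖e‖ * ‖c.κ x‖ := e.le_opNorm _
        _ ≤ 1 * (‖c.κ‖ * ‖x‖) := by gcongr; exact c.κ.le_opNorm x
        _ ≤ 1 / 2 := by rw [one_mul]; exact hx2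
    have h7 := (abs_le.1 h6).2
    have h8 := c.one_le_H x
    rw [h5]
    linarith
  rw [h3] at h1
  have h5 : s * (c.e₀ z * ‖x‖ ^ 2) * (1 / 2) ≤ s * (c.e₀ z * ‖x‖ ^ 2) * e c.y₀ := by gcongr
  have h6 : K * (s * ‖x‖) ^ 2 ≤ 2 * c.e₀ z * (K * (s * ‖x‖) ^ 2) := by
    have h7 : 0 ≤ K * (s * ‖x‖) ^ 2 := by positivity
    have h8 : 1 * (K * (s * ‖x‖) ^ 2) ≤ 2 * c.e₀ z * (K * (s * ‖x‖) ^ 2) := by
      gcongr
      linarith
    linarith
  have h7 : s * (c.e₀ z * ‖x‖ ^ 2) * (1 / 2) - 2 * c.e₀ z * (K * (s * ‖x‖) ^ 2)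
      = c.e₀ z * (1 / (32 * K) * ‖x‖ ^ 2) := by
    rw [hs]
    field_simp
    ring
  have h8 : c.e₀ z * (c.H x + 1 / (32 * K) * ‖x‖ ^ 2)
      = c.e₀ z * c.H x + c.e₀ z * (1 / (32 * K) * ‖x‖ ^ 2) := by ring
  linarith only [h1, h2, h5, h6, h7, h8]

/-- The expansion of the norm at a contact of second order, together with the growth of the
image of the ball below it. -/
theorem local_data [FiniteDimensional ℝ Y] (c : Chart Y k) (T : X →L[ℝ] Y) (hT : ‖T‖ = 1)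
    (hy : c.y₀ ∈ imBall T) (hSO : SecondOrder T) :
    ∃ M : EuclideanSpace ℝ (Fin k) →L[ℝ] EuclideanSpace ℝ (Fin k), ∃ b : ℝ, 0 < b ∧
      (∀ x, 0 ≤ inner ℝ (M x) x) ∧ ∃ r : ℝ, 0 < r ∧
      (∀ x, ‖x‖ < r → c.H x ≤ 1 + 1 / 2 * inner ℝ (M x) x + b * ‖x‖ ^ 2) ∧
      (∀ z ∈ imBall T, 1 / 2 ≤ c.e₀ z → ∀ x, c.π z = c.e₀ z • x → ‖x‖ < r →
        c.e₀ z * (1 + 1 / 2 * inner ℝ (M x) x + 3 * b * ‖x‖ ^ 2) ≤ 1) := by
  obtain ⟨E, S, K, hK, ⟨rK, hrK, hb⟩, happ⟩ := contact_main c T hT hy hSO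
  have hup : ∀ x, ‖x‖ < rK → c.H x ≤ 1 + K * ‖x‖ ^ 2 := by
    intro x hx
    have hδ : ‖(x, (0 : EuclideanSpace ℝ (Fin k)))‖ = ‖x‖ := by
      rw [Prod.norm_def, norm_zero]
      exact max_eq_left (norm_nonneg _)
    have h1 := hb (x, 0) (by rw [hδ]; exact hx)
    rw [hδ] at h1
    have h2 := norm_le_of_mem_imBall T hy (ContinuousLinearMap.id ℝ Y + c.pert (x, 0))
    have h3 : (ContinuousLinearMap.id ℝ Y + c.pert (x, 0)) c.y₀ = c.y₀ + c.κ x := by
      rw [add_apply, ContinuousLinearMap.id_apply, c.pert_apply, c.h1, one_smul, inner_zero_left,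
        zero_smul, add_zero]
    rw [h3] at h2
    exact h2.trans h1
  have hsub : ∀ x, ∃ e, IsSubgrad c.H x e := by
    intro x
    obtain ⟨e, he, hen⟩ := exists_dual_vector'' ℝ (c.y₀ + c.κ x)
    refine ⟨c.slope e, fun x' => ?_⟩
    have hen' : e (c.y₀ + c.κ x) = c.H x := hen
    rw [← hen', c.inner_slope, map_sub, ← map_add]
    calc e (c.y₀ + c.κ x + (c.κ x' - c.κ x)) = e (c.y₀ + c.κ x') := by congr 1; abel
      _ ≤ ‖e (c.y₀ + c.κ x')‖ := le_abs_self _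
      _ ≤ ‖e‖ * ‖c.y₀ + c.κ x'‖ := e.le_opNorm _
      _ ≤ 1 * ‖c.y₀ + c.κ x'‖ := by gcongr
      _ = c.H x' := one_mul _
  obtain ⟨M, hM, happM⟩ := exists_hessian c.one_le_H c.H_zero happ hK hrK hup
  obtain ⟨rg, hrg, hg⟩ := growth c T hK hrK hb
  set b : ℝ := 1 / (128 * K) with hb'
  have hbpos : 0 < b := by positivity
  obtain ⟨rq, hrq, hq⟩ := quad_expansion c.one_le_H c.H_zero hsub hK hrK hup M happM hbpos
  refine ⟨M, b, hbpos, hM, min rg rq, lt_min hrg hrq, ?_, ?_⟩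
  · intro x hx
    have h1 := (abs_le.1 (hq x (hx.trans_le (min_le_right _ _)))).2
    linarith
  · intro z hz hz0 x hx hxr
    have h1 := hg z hz hz0 x hx (hxr.trans_le (min_le_left _ _))
    have h2 := (abs_le.1 (hq x (hxr.trans_le (min_le_right _ _)))).1
    have h3 : 1 / (32 * K) = 4 * b := by rw [hb']; field_simp; norm_num
    rw [h3] at h1
    refine le_trans ?_ h1
    have h4 : (0 : ℝ) ≤ c.e₀ z := by linarith
    apply mul_le_mul_of_nonneg_left _ h4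
    linarith

theorem exists_chart [FiniteDimensional ℝ Y] {e : Y →L[ℝ] ℝ} (he : ‖e‖ ≤ 1) {y : Y}
    (hy : ‖y‖ ≤ 1) (h1 : e y = 1) : ∃ k, ∃ c : Chart Y k, c.e₀ = e ∧ c.y₀ = y := by
  set N : Submodule ℝ Y := LinearMap.ker (e : Y →ₗ[ℝ] ℝ) with hN
  set τ : N ≃L[ℝ] EuclideanSpace ℝ (Fin (Module.finrank ℝ N)) := toEuclidean with hτ
  set P : Y →L[ℝ] Y := ContinuousLinearMap.id ℝ Y - e.smulRight y with hP
  have hPa : ∀ z, P z = z - e z • y := fun z => rfl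
  have hPN : ∀ z, P z ∈ N := by
    intro z
    rw [hN, LinearMap.mem_ker, hPa]
    change e (z - e z • y) = 0
    rw [map_sub, map_smul, h1, smul_eq_mul, mul_one, sub_self]
  refine ⟨Module.finrank ℝ N, ⟨e, y, N.subtypeL.comp (τ.symm : _ →L[ℝ] N),
    (τ : N →L[ℝ] _).comp (P.codRestrict N hPN), he, hy, h1, ?_, ?_, ?_⟩, rfl, rfl⟩
  · intro x
    exact LinearMap.mem_ker.1 (τ.symm x).2
  · intro x
    change τ (P.codRestrict N hPN ((τ.symm x : N) : Y)) = x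
    have h2 : P.codRestrict N hPN ((τ.symm x : N) : Y) = τ.symm x := by
      apply Subtype.ext
      change P ((τ.symm x : N) : Y) = ((τ.symm x : N) : Y)
      have h3 : e ((τ.symm x : N) : Y) = 0 := LinearMap.mem_ker.1 (τ.symm x).2
      rw [hPa, h3, zero_smul, sub_zero]
    rw [h2, ContinuousLinearEquiv.apply_symm_apply]
  · intro z
    change z = e z • y + ((τ.symm (τ (P.codRestrict N hPN z)) : N) : Y)
    rw [ContinuousLinearEquiv.symm_apply_apply]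
    change z = e z • y + P z
    rw [hPa]
    abel

theorem exists_euclid {V : Type*} [AddCommGroup V] [Module ℝ V] [FiniteDimensional ℝ V]
    (core : InnerProductSpace.Core ℝ V) :
    ∃ L : V ≃ₗ[ℝ] EuclideanSpace ℝ (Fin (Module.finrank ℝ V)),
      ∀ x y, inner ℝ (L x) (L y) = core.inner x y := by
  let _ : NormedAddCommGroup V := core.toNormedAddCommGroup
  let _ : InnerProductSpace ℝ V := InnerProductSpace.ofCore core.toCore
  exact ⟨(stdOrthonormalBasis ℝ V).repr.toLinearEquiv,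
    fun x y => (stdOrthonormalBasis ℝ V).repr.inner_map_map x y⟩

end Pool.Agent.Helper63.PropB.Red
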