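import Mathlib

/-!
The renorming of `X` by `max ‖x‖ ‖S x‖`, where `S` is a bounded operator.
-/

namespace Pool.Agent.Helper63.PropB.Red

open Set Metric Filter Topology

universe u w

variable {X : Type u} [NormedAddCommGroup X] [NormedSpace ℝ X]
variable {Z : Type w} [NormedAddCommGroup Z] [NormedSpace ℝ Z]

/-- A copy of `X`, to be given the norm `max ‖x‖ ‖S x‖`. -/
def Ren (_ : X →L[ℝ] Z) : Type u := X

variable (S : X →L[ℝ] Z)

instance : AddCommGroup (Ren S) := inferInstanceAs (AddCommGroup X)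

instance : Module ℝ (Ren S) := inferInstanceAs (Module ℝ X)

/-- The identity, as a linear equivalence. -/
def Ren.toBase : Ren S ≃ₗ[ℝ] X := LinearEquiv.refl ℝ X

/-- The embedding of the renormed space as the graph of `S`. -/
def Ren.graph : Ren S →ₗ[ℝ] X × Z := (LinearMap.id.prod S.toLinearMap).comp (Ren.toBase S).toLinearMap

theorem Ren.graph_apply (x : Ren S) : Ren.graph S x = (Ren.toBase S x, S (Ren.toBase S x)) := rfl

theorem Ren.graph_injective : Function.Injective (Ren.graph S) := by
  intro x y h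
  rw [Ren.graph_apply, Ren.graph_apply] at h
  exact (Ren.toBase S).injective (congrArg Prod.fst h)

noncomputable instance : NormedAddCommGroup (Ren S) :=
  NormedAddCommGroup.induced (Ren S) (X × Z) (Ren.graph S) (Ren.graph_injective S)

noncomputable instance : NormedSpace ℝ (Ren S) :=
  NormedSpace.induced ℝ (Ren S) (X × Z) (Ren.graph S)

theorem Ren.norm_def (x : Ren S) : ‖x‖ = max ‖Ren.toBase S x‖ ‖S (Ren.toBase S x)‖ := rfl

theorem Ren.norm_base_le (x : Ren S) : ‖Ren.toBase S x‖ ≤ ‖x‖ := by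
  rw [Ren.norm_def]
  exact le_max_left _ _

theorem Ren.norm_image_le (x : Ren S) : ‖S (Ren.toBase S x)‖ ≤ ‖x‖ := by
  rw [Ren.norm_def]
  exact le_max_right _ _

theorem Ren.norm_le (x : Ren S) : ‖x‖ ≤ (1 + ‖S‖) * ‖Ren.toBase S x‖ := by
  rw [Ren.norm_def]
  have h1 := S.le_opNorm (Ren.toBase S x)
  have h2 : 0 ≤ ‖S‖ * ‖Ren.toBase S x‖ := by positivity
  have h3 : 0 ≤ ‖Ren.toBase S x‖ := norm_nonneg _
  refine max_le ?_ ?_ <;> linarith

/-- The identity, as a continuous linear equivalence. -/
noncomputable def Ren.equiv : Ren S ≃L[ℝ] X :=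
  (Ren.toBase S).toContinuousLinearEquivOfBounds 1 (1 + ‖S‖)
    (fun x => by rw [one_mul]; exact Ren.norm_base_le S x)
    (fun x => by
      have := Ren.norm_le S ((Ren.toBase S).symm x)
      rwa [LinearEquiv.apply_symm_apply] at this)

theorem Ren.equiv_apply (x : Ren S) : Ren.equiv S x = Ren.toBase S x := rfl

instance [CompleteSpace X] : CompleteSpace (Ren S) :=
  (completeSpace_congr (e := (Ren.equiv S).toEquiv) (Ren.equiv S).isUniformEmbedding).2
    inferInstance

instance [Nontrivial X] : Nontrivial (Ren S) := inferInstanceAs (Nontrivial X)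

theorem Ren.norm_eq (x : Ren S) : ‖x‖ = max ‖Ren.equiv S x‖ ‖S (Ren.equiv S x)‖ := rfl

end Pool.Agent.Helper63.PropB.Red
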