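import Mathlib
import Pool.Agent.Helper63.PropB.Defs
import Pool.Agent.Helper63.PropB.Red.Renorm
import Pool.Agent.Helper63.PropB.Red.Max

/-!
Transfer of property B from a space `Z` to an operator `T` into `Y`: it is enough that near some
contact point the norm of `Z`, read through an isomorphism `L : Y → Z`, lies between the image of
the ball and the norm of `Y`.
-/

namespace Pool.Agent.Helper63.PropB.Red

open Set Metric Filter Topology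

universe u v w

variable {X : Type u} [NormedAddCommGroup X] [NormedSpace ℝ X]
variable {Y : Type v} [NormedAddCommGroup Y] [NormedSpace ℝ Y]

theorem convex_imBall (T : X →L[ℝ] Y) : Convex ℝ (imBall T) :=
  ((convex_closedBall (0 : X) 1).linear_image T.toLinearMap).closure

/-- A point of the image of the ball which is locally exposed is strongly exposed. -/
theorem exposed_imBall [FiniteDimensional ℝ Y] (T : X →L[ℝ] Y) {e₀ : Y →L[ℝ] ℝ} {y₀ : Y}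
    (hy : y₀ ∈ imBall T) (h1 : e₀ y₀ = 1) (hle : ∀ z ∈ imBall T, e₀ z ≤ 1) {r : ℝ} (hr : 0 < r)
    (hs : ∀ z ∈ imBall T, ‖z - y₀‖ < r → e₀ z = 1 → z = y₀) {τ : ℝ} (hτ : 0 < τ) :
    ∃ δ : ℝ, 0 < δ ∧ ∀ z ∈ imBall T, 1 - δ ≤ e₀ z → ‖z - y₀‖ < τ := by
  set K : Set Y := imBall T ∩ {z | τ ≤ ‖z - y₀‖} with hK
  have hKc : IsCompact K :=
    (isCompact_imBall T).inter_right (isClosed_le continuous_const (by fun_prop))
  rcases K.eq_empty_or_nonempty with h0 | h0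
  · refine ⟨1, one_pos, fun z hz _ => ?_⟩
    by_contra hcon
    push Not at hcon
    have : z ∈ K := ⟨hz, hcon⟩
    rw [h0] at this
    exact this
  · obtain ⟨p, ⟨hp, hpτ⟩, hmax⟩ := hKc.exists_isMaxOn h0 (f := e₀) (by fun_prop)
    have hmax' : ∀ q ∈ K, e₀ q ≤ e₀ p := fun q hq => hmax hq
    have hp1 : e₀ p < 1 := by
      refine lt_of_le_of_ne (hle p hp) (fun hcon => ?_)
      have hpy : 0 < ‖p - y₀‖ := hτ.trans_le hpτ
      set s : ℝ := min 1 (r / (2 * ‖p - y₀‖)) with hs'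
      have hspos : 0 < s := lt_min one_pos (by positivity)
      have hs1 : s ≤ 1 := min_le_left _ _
      have hmem : y₀ + s • (p - y₀) ∈ imBall T := by
        have h2 := convex_imBall T hy hp (a := 1 - s) (b := s) (by linarith) hspos.le (by ring)
        have h3 : (1 - s) • y₀ + s • p = y₀ + s • (p - y₀) := by module
        rwa [h3] at h2
      have h2 : ‖y₀ + s • (p - y₀) - y₀‖ < r := by
        rw [add_sub_cancel_left, norm_smul, Real.norm_of_nonneg hspos.le]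
        calc s * ‖p - y₀‖ ≤ r / (2 * ‖p - y₀‖) * ‖p - y₀‖ := by gcongr; exact min_le_right _ _
          _ = r / 2 := by field_simp
          _ < r := by linarith
      have h3 : e₀ (y₀ + s • (p - y₀)) = 1 := by
        rw [map_add, map_smul, map_sub, hcon, h1, sub_self, smul_zero, add_zero]
      have h4 := hs _ hmem h2 h3
      have h5 : s • (p - y₀) = 0 := by
        have : y₀ + s • (p - y₀) = y₀ + 0 := by rw [add_zero]; exact h4
        exact add_left_cancel this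
      rw [smul_eq_zero] at h5
      rcases h5 with h5 | h5
      · exact hspos.ne' h5
      · rw [h5, norm_zero] at hpy
        exact lt_irrefl _ hpy
    refine ⟨(1 - e₀ p) / 2, by linarith, fun z hz hz1 => ?_⟩
    by_contra hcon
    push Not at hcon
    have := hmax' z ⟨hz, hcon⟩
    linarith

/-- The map `z ↦ z + ε e₀(z) y₀`. -/
noncomputable def emph (e₀ : Y →L[ℝ] ℝ) (y₀ : Y) (ε : ℝ) : Y →L[ℝ] Y :=
  ContinuousLinearMap.id ℝ Y + ε • e₀.smulRight y₀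

theorem emph_apply (e₀ : Y →L[ℝ] ℝ) (y₀ : Y) (ε : ℝ) (z : Y) :
    emph e₀ y₀ ε z = z + ε • e₀ z • y₀ := rfl

variable {Z : Type w} [NormedAddCommGroup Z] [NormedSpace ℝ Z]

theorem exists_attaining_near
    (hZ : ∀ S : X →L[ℝ] Z, Dense {T : Ren S →L[ℝ] Z | NormAttaining T}) (T : X →L[ℝ] Y) {e₀ : Y →L[ℝ] ℝ} {y₀ : Y} (hle : ∀ z ∈ imBall T, |e₀ z| ≤ 1)
    (h1 : e₀ y₀ = 1) (hy : y₀ ∈ imBall T) (L : Y ≃L[ℝ] Z) (hLy : ‖L y₀‖ = 1) {r : ℝ}
    (hr : 0 < r) (hb : ∀ z ∈ imBall T, ‖z - y₀‖ < r → ‖L z‖ ≤ 1) {ε η : ℝ} (hε : 0 < ε)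
    (hη : 0 < η) :
    ∃ T' : Ren ((L : Y →L[ℝ] Z).comp T) →L[ℝ] Z, ∃ x₀ : Ren ((L : Y →L[ℝ] Z).comp T),
      ‖x₀‖ ≤ 1 ∧ ‖T' x₀‖ = ‖T'‖ ∧ 1 + ε - η ≤ ‖T'‖ ∧ ‖T'‖ ≤ 1 + ε + η ∧
      (∀ x, ‖T' x - L (emph e₀ y₀ ε (T (Ren.equiv _ x)))‖ ≤ η * ‖x‖) ∧
      1 - 2 * η / ε ≤ e₀ (T (Ren.equiv _ x₀)) := by
  set S : X →L[ℝ] Z := (L : Y →L[ℝ] Z).comp T with hS
  set ι : Ren S ≃L[ℝ] X := Ren.equiv S with hι
  have hSa : ∀ x, S x = L (T x) := fun x => rfl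
  set U : Ren S →L[ℝ] Z :=
    (L : Y →L[ℝ] Z).comp ((emph e₀ y₀ ε).comp (T.comp (ι : Ren S →L[ℝ] X))) with hU
  have hUa : ∀ x, U x = L (emph e₀ y₀ ε (T (ι x))) := fun x => rfl
  have hmem : ∀ x : Ren S, ‖x‖ ≤ 1 → T (ι x) ∈ imBall T ∧ ‖L (T (ι x))‖ ≤ 1 := by
    intro x hx
    rw [Ren.norm_eq] at hx
    refine ⟨subset_closure ⟨ι x, ?_, rfl⟩, (le_max_right _ _).trans hx⟩
    rw [mem_closedBall_zero_iff]
    exact (le_max_left _ _).trans hx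
  have hUn : ∀ x : Ren S, ‖x‖ ≤ 1 → ‖U x‖ ≤ 1 + ε * |e₀ (T (ι x))| := by
    intro x hx
    rw [hUa, emph_apply, map_add, map_smul, map_smul]
    calc ‖L (T (ι x)) + ε • e₀ (T (ι x)) • L y₀‖
        ≤ ‖L (T (ι x))‖ + ‖ε • e₀ (T (ι x)) • L y₀‖ := norm_add_le _ _
      _ ≤ 1 + ε * |e₀ (T (ι x))| := by
          rw [norm_smul, norm_smul, hLy, mul_one, Real.norm_of_nonneg hε.le, Real.norm_eq_abs]
          gcongr
          exact (hmem x hx).2
  have hU1 : 1 + ε ≤ ‖U‖ := by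
    by_contra hcon
    push Not at hcon
    set O : Set Y := {z | ‖U‖ < ‖L (emph e₀ y₀ ε z)‖} ∩ ball y₀ r with hO
    have hOo : IsOpen O :=
      (isOpen_lt continuous_const (L.continuous.comp (emph e₀ y₀ ε).continuous).norm).inter
        isOpen_ball
    have hyO : y₀ ∈ O := by
      refine ⟨?_, mem_ball_self hr⟩
      change ‖U‖ < ‖L (emph e₀ y₀ ε y₀)‖
      have h2 : emph e₀ y₀ ε y₀ = (1 + ε) • y₀ := by
        rw [emph_apply, h1, one_smul]; module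
      rw [h2, map_smul, norm_smul, hLy, mul_one, Real.norm_of_nonneg (by linarith)]
      exact hcon
    obtain ⟨z, ⟨hz1, hz2⟩, x, hx, rfl⟩ := mem_closure_iff.1 hy O hOo hyO
    have hx' : ‖ι.symm x‖ ≤ 1 := by
      rw [Ren.norm_eq, ← hι, ContinuousLinearEquiv.apply_symm_apply, hSa]
      refine max_le (mem_closedBall_zero_iff.1 hx) ?_
      exact hb _ (subset_closure ⟨x, hx, rfl⟩) (by rwa [mem_ball, dist_eq_norm] at hz2)
    have h2 : ‖U (ι.symm x)‖ ≤ ‖U‖ := by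
      calc ‖U (ι.symm x)‖ ≤ ‖U‖ * ‖ι.symm x‖ := U.le_opNorm _
        _ ≤ ‖U‖ * 1 := by gcongr
        _ = ‖U‖ := mul_one _
    rw [hUa, ContinuousLinearEquiv.apply_symm_apply] at h2
    exact absurd hz1 (not_lt.2 h2)
  obtain ⟨T', hT'ball, hT'na⟩ := (Metric.dense_iff.1 (hZ S)) U η hη
  rw [mem_ball, dist_eq_norm] at hT'ball
  obtain ⟨x₁, hx₁, hatt⟩ := hT'na
  have hdiff : ∀ x, ‖T' x - U x‖ ≤ η * ‖x‖ := by
    intro x
    calc ‖T' x - U x‖ = ‖(T' - U) x‖ := rfl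
      _ ≤ ‖T' - U‖ * ‖x‖ := (T' - U).le_opNorm x
      _ ≤ η * ‖x‖ := by gcongr
  have hlow : 1 + ε - η ≤ ‖T'‖ := by
    have h2 : ‖U‖ ≤ ‖T'‖ + ‖T' - U‖ := by
      have h3 : U = T' - (T' - U) := by abel
      calc ‖U‖ = ‖T' - (T' - U)‖ := by rw [← h3]
        _ ≤ _ := norm_sub_le _ _
    linarith
  have hTx : ‖T'‖ ≤ 1 + ε * |e₀ (T (ι x₁))| + η := by
    have h2 := hUn x₁ hx₁.le
    have h3 := hdiff x₁
    rw [hx₁, mul_one] at h3
    have h4 : ‖T' x₁‖ ≤ ‖U x₁‖ + ‖T' x₁ - U x₁‖ := by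
      have h5 : T' x₁ = U x₁ + (T' x₁ - U x₁) := by abel
      calc ‖T' x₁‖ = ‖U x₁ + (T' x₁ - U x₁)‖ := by rw [← h5]
        _ ≤ _ := norm_add_le _ _
    rw [hatt] at h4
    linarith
  have hup : ‖T'‖ ≤ 1 + ε + η := by
    have h2 := hle _ (hmem x₁ hx₁.le).1
    have h3 : ε * |e₀ (T (ι x₁))| ≤ ε * 1 := by gcongr
    linarith
  have habs : 1 - 2 * η / ε ≤ |e₀ (T (ι x₁))| := by
    have h2 : ε - 2 * η ≤ ε * |e₀ (T (ι x₁))| := by linarith
    have h3 : 1 - 2 * η / ε = (ε - 2 * η) / ε := by field_simp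
    rw [h3, div_le_iff₀ hε]
    linarith
  rcases le_total 0 (e₀ (T (ι x₁))) with h0 | h0
  · rw [abs_of_nonneg h0] at habs
    exact ⟨T', x₁, hx₁.le, hatt, hlow, hup, hdiff, habs⟩
  · rw [abs_of_nonpos h0] at habs
    refine ⟨T', -x₁, by rw [norm_neg]; exact hx₁.le, by rw [map_neg, norm_neg]; exact hatt, hlow,
      hup, hdiff, ?_⟩
    rw [map_neg, map_neg, map_neg]
    exact habs

theorem transfer [FiniteDimensional ℝ Y]
    (hZ : ∀ S : X →L[ℝ] Z, Dense {T : Ren S →L[ℝ] Z | NormAttaining T}) (T : X →L[ℝ] Y) (hT : ‖T‖ = 1) {e₀ : Y →L[ℝ] ℝ} {y₀ : Y}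
    (he₀ : ‖e₀‖ ≤ 1) (hy₀ : ‖y₀‖ ≤ 1) (h1 : e₀ y₀ = 1) (hy : y₀ ∈ imBall T) (L : Y ≃L[ℝ] Z)
    (hLy : ‖L y₀‖ = 1) {r : ℝ} (hr : 0 < r)
    (hb : ∀ z ∈ imBall T, ‖z - y₀‖ < r → ‖L z‖ ≤ 1)
    (hs : ∀ z ∈ imBall T, ‖z - y₀‖ < r → e₀ z = 1 → z = y₀)
    (hdom : ∀ ε : ℝ, 0 < ε → ∃ η : ℝ, 0 < η ∧ ∀ y' : Z, ‖y'‖ = 1 → ‖y' - L y₀‖ < η →
      ∃ R : Z →L[ℝ] Z, ‖R - ContinuousLinearMap.id ℝ Z‖ ≤ ε ∧ R y' = L y₀ ∧
        ∀ v, ‖v - L y₀‖ < r → ‖L.symm (R v)‖ ≤ ‖v‖)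
    {ρ : ℝ} (hρ : 0 < ρ) : ∃ T' : X →L[ℝ] Y, NormAttaining T' ∧ ‖T' - T‖ < ρ := by
  have hidT : (ContinuousLinearMap.id ℝ Y).comp T = T := by ext x; rfl
  have hle : ∀ z ∈ imBall T, e₀ z ≤ 1 := by
    intro z hz
    have := apply_le_of_mem_imBall hz (ContinuousLinearMap.id ℝ Y) he₀
    rw [hidT, hT] at this
    exact this
  have hle' : ∀ z ∈ imBall T, |e₀ z| ≤ 1 := by
    intro z hz
    rw [abs_le]
    have h2 := hle _ (neg_mem_imBall T hz)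
    rw [map_neg] at h2
    exact ⟨by linarith, hle z hz⟩
  have hnz : ∀ z ∈ imBall T, ‖z‖ ≤ 1 := by
    intro z hz
    have := norm_le_of_mem_imBall T hz (ContinuousLinearMap.id ℝ Y)
    rw [hidT, hT] at this
    exact this
  have hy₀1 : ‖y₀‖ = 1 := by
    refine le_antisymm hy₀ ?_
    calc (1 : ℝ) = e₀ y₀ := h1.symm
      _ ≤ ‖e₀ y₀‖ := le_abs_self _
      _ ≤ ‖e₀‖ * ‖y₀‖ := e₀.le_opNorm _
      _ ≤ 1 * ‖y₀‖ := by gcongr
      _ = ‖y₀‖ := one_mul _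
  set NL : ℝ := ‖(L : Y →L[ℝ] Z)‖ + 1 with hNL
  have hNLpos : 0 < NL := by positivity
  have hLn : ∀ y, ‖L y‖ ≤ NL * ‖y‖ := by
    intro y
    calc ‖L y‖ = ‖(L : Y →L[ℝ] Z) y‖ := rfl
      _ ≤ ‖(L : Y →L[ℝ] Z)‖ * ‖y‖ := ContinuousLinearMap.le_opNorm _ _
      _ ≤ NL * ‖y‖ := by gcongr; rw [hNL]; linarith
  set NI : ℝ := ‖(L.symm : Z →L[ℝ] Y)‖ + 1 with hNI
  have hNIpos : 0 < NI := by positivity
  have hIn : ∀ y, ‖L.symm y‖ ≤ NI * ‖y‖ := by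
    intro y
    calc ‖L.symm y‖ = ‖(L.symm : Z →L[ℝ] Y) y‖ := rfl
      _ ≤ ‖(L.symm : Z →L[ℝ] Y)‖ * ‖y‖ := ContinuousLinearMap.le_opNorm _ _
      _ ≤ NI * ‖y‖ := by gcongr; rw [hNI]; linarith
  set C₁ : ℝ := 1 + NL with hC₁
  have hC₁pos : 0 < C₁ := by positivity
  -- parameters
  set ε : ℝ := min (ρ / 4) 1 with hεdef
  have hε : 0 < ε := lt_min (by positivity) one_pos
  have hε1 : ε ≤ 1 := min_le_right _ _
  have hερ : ε ≤ ρ / 4 := min_le_left _ _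
  set τ₁ : ℝ := min r (r / (2 * NL)) with hτ₁
  have hτ₁pos : 0 < τ₁ := lt_min hr (by positivity)
  obtain ⟨δ₁, hδ₁, hexp₁⟩ := exposed_imBall T hy h1 hle hr hs hτ₁pos
  set κ₀ : ℝ := min (ε * δ₁ / 4) (ρ / 4) with hκ₀
  have hκ₀pos : 0 < κ₀ := lt_min (by positivity) (by positivity)
  obtain ⟨ηR, hηR, hR⟩ := hdom (κ₀ / (3 * C₁ * NI)) (by positivity)
  obtain ⟨δ₂, hδ₂, hexp₂⟩ := exposed_imBall T hy h1 hle hr hs
    (τ := ηR / (8 * NL)) (by positivity)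
  obtain ⟨η, hη, hη1, hη2, hη3, hη4, hη5, hη6⟩ : ∃ η : ℝ, 0 < η ∧ η ≤ ε / 2 ∧ η ≤ ε * δ₂ / 2 ∧
      η ≤ ηR / 8 ∧ η ≤ r / (2 * C₁) ∧ η ≤ κ₀ / (C₁ * NI) ∧ η ≤ ε * δ₁ / 2 := by
    refine ⟨min (min (ε / 2) (ε * δ₂ / 2)) (min (min (ηR / 8) (r / (2 * C₁)))
      (min (κ₀ / (C₁ * NI)) (ε * δ₁ / 2))), ?_, ?_, ?_, ?_, ?_, ?_, ?_⟩
    · refine lt_min (lt_min ?_ ?_) (lt_min (lt_min ?_ ?_) (lt_min ?_ ?_)) <;> positivity
    · exact (min_le_left _ _).trans (min_le_left _ _)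
    · exact (min_le_left _ _).trans (min_le_right _ _)
    · exact (min_le_right _ _).trans ((min_le_left _ _).trans (min_le_left _ _))
    · exact (min_le_right _ _).trans ((min_le_left _ _).trans (min_le_right _ _))
    · exact (min_le_right _ _).trans ((min_le_right _ _).trans (min_le_left _ _))
    · exact (min_le_right _ _).trans ((min_le_right _ _).trans (min_le_right _ _))
  obtain ⟨S, hS⟩ : ∃ S : X →L[ℝ] Z, S = (L : Y →L[ℝ] Z).comp T := ⟨_, rfl⟩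
  have hatn := exists_attaining_near hZ T hle' h1 hy L hLy hr hb hε hη
  rw [← hS] at hatn
  obtain ⟨T', x₀, hx₀, hatt, hlow, hup, hdiff, hex⟩ := hatn
  set ι : Ren S ≃L[ℝ] X := Ren.equiv S with hι
  have hSa : ∀ x, S x = L (T x) := fun x => by rw [hS]; rfl
  have hSn : ‖S‖ ≤ NL := by
    rw [hS]
    calc ‖(L : Y →L[ℝ] Z).comp T‖ ≤ ‖(L : Y →L[ℝ] Z)‖ * ‖T‖ :=
          ContinuousLinearMap.opNorm_comp_le _ _
      _ ≤ NL := by rw [hT, mul_one, hNL]; linarith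
  have hιn : ∀ x : X, ‖ι.symm x‖ ≤ C₁ * ‖x‖ := by
    intro x
    have h2 := Ren.norm_le S (ι.symm x)
    have h3 : Ren.toBase S (ι.symm x) = x := ι.apply_symm_apply x
    rw [h3] at h2
    refine h2.trans ?_
    gcongr
    rw [hC₁]
    linarith
  -- the map `emph`
  have hemphy : emph e₀ y₀ ε y₀ = (1 + ε) • y₀ := by
    rw [emph_apply, h1, one_smul]; module
  have hemph : ∀ z, ‖L (emph e₀ y₀ ε z) - (1 + ε) • L y₀‖ ≤ (1 + ε) * (NL * ‖z - y₀‖) := by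
    intro z
    have h2 : L (emph e₀ y₀ ε z) - (1 + ε) • L y₀
        = L (z - y₀) + ε • e₀ (z - y₀) • L y₀ := by
      rw [← map_smul, ← hemphy, ← map_sub, ← map_sub, emph_apply, map_add, map_smul, map_smul]
    have h3 : |e₀ (z - y₀)| ≤ NL * ‖z - y₀‖ := by
      calc |e₀ (z - y₀)| = ‖e₀ (z - y₀)‖ := rfl
        _ ≤ ‖e₀‖ * ‖z - y₀‖ := e₀.le_opNorm _
        _ ≤ NL * ‖z - y₀‖ := by
          gcongr
          have : 0 ≤ ‖(L : Y →L[ℝ] Z)‖ := norm_nonneg _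
          linarith
    rw [h2]
    calc ‖L (z - y₀) + ε • e₀ (z - y₀) • L y₀‖
        ≤ ‖L (z - y₀)‖ + ‖ε • e₀ (z - y₀) • L y₀‖ := norm_add_le _ _
      _ ≤ NL * ‖z - y₀‖ + ε * (NL * ‖z - y₀‖) := by
          rw [norm_smul, norm_smul, hLy, mul_one, Real.norm_of_nonneg hε.le, Real.norm_eq_abs]
          gcongr
          exact hLn _
      _ = (1 + ε) * (NL * ‖z - y₀‖) := by ring
  -- the attaining point
  set m : ℝ := ‖T'‖ with hm
  have hm1 : 1 ≤ m := by linarith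
  have hmpos : 0 < m := by linarith
  have hx₀' := hx₀
  rw [Ren.norm_eq] at hx₀'
  have hz₁ : T (ι x₀) ∈ imBall T := by
    refine subset_closure ⟨ι x₀, ?_, rfl⟩
    rw [mem_closedBall_zero_iff]
    exact (le_max_left _ _).trans hx₀'
  have hz₁d : ‖T (ι x₀) - y₀‖ < ηR / (8 * NL) := by
    apply hexp₂ _ hz₁
    refine le_trans ?_ hex
    have h2 : 2 * η / ε ≤ δ₂ := by
      rw [div_le_iff₀ hε]
      linarith
    linarith
  have hTx₀ : ‖T' x₀ - (1 + ε) • L y₀‖ ≤ η + ηR / 4 := by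
    have h2 := hdiff x₀
    have h3 := hemph (T (ι x₀))
    have h4 : (1 + ε) * (NL * ‖T (ι x₀) - y₀‖) ≤ ηR / 4 := by
      calc (1 + ε) * (NL * ‖T (ι x₀) - y₀‖) ≤ 2 * (NL * (ηR / (8 * NL))) := by
            gcongr
            linarith
        _ = ηR / 4 := by field_simp; norm_num
    have h5 : T' x₀ - (1 + ε) • L y₀ = (T' x₀ - L (emph e₀ y₀ ε (T (ι x₀))))
        + (L (emph e₀ y₀ ε (T (ι x₀))) - (1 + ε) • L y₀) := by abel
    rw [h5]
    refine (norm_add_le _ _).trans ?_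
    have h6 : η * ‖x₀‖ ≤ η * 1 := by gcongr
    linarith
  have hy'1 : ‖m⁻¹ • T' x₀‖ = 1 := by
    rw [norm_smul, norm_inv, Real.norm_of_nonneg hmpos.le, hatt, inv_mul_cancel₀ hmpos.ne']
  have hy'2 : ‖m⁻¹ • T' x₀ - L y₀‖ < ηR := by
    have h2 : m⁻¹ • T' x₀ - L y₀ = m⁻¹ • ((T' x₀ - (1 + ε) • L y₀) + (1 + ε - m) • L y₀) := by
      have h3 : L y₀ = m⁻¹ • (m • L y₀) := by
        rw [smul_smul, inv_mul_cancel₀ hmpos.ne', one_smul]
      nth_rewrite 1 [h3]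
      rw [← smul_sub]
      congr 1
      module
    rw [h2, norm_smul, norm_inv, Real.norm_of_nonneg hmpos.le]
    have h3 : m⁻¹ ≤ 1 := inv_le_one_of_one_le₀ hm1
    have h4 : ‖(1 + ε - m) • L y₀‖ ≤ η := by
      rw [norm_smul, hLy, mul_one, Real.norm_eq_abs, abs_le]
      constructor <;> linarith
    calc m⁻¹ * ‖(T' x₀ - (1 + ε) • L y₀) + (1 + ε - m) • L y₀‖
        ≤ 1 * ((η + ηR / 4) + η) := by
          gcongr
          exact (norm_add_le _ _).trans (add_le_add hTx₀ h4)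
      _ < ηR := by linarith
  obtain ⟨R, hRid, hRy, hRdom⟩ := hR _ hy'1 hy'2
  set Tf : X →L[ℝ] Y := (L.symm : Z →L[ℝ] Y).comp (R.comp (T'.comp (ι.symm : X →L[ℝ] Ren S)))
    with hTf
  have hTfa : ∀ x, Tf x = L.symm (R (T' (ι.symm x))) := fun x => rfl
  -- closeness
  have hclose : ∀ x, ‖x‖ ≤ 1 → ‖Tf x - emph e₀ y₀ ε (T x)‖ ≤ 2 * κ₀ := by
    intro x hx
    have h2 : Tf x - emph e₀ y₀ ε (T x) = L.symm ((R - ContinuousLinearMap.id ℝ Z)
        (T' (ι.symm x)) + (T' (ι.symm x) - L (emph e₀ y₀ ε (T (ι (ι.symm x)))))) := by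
      rw [ContinuousLinearEquiv.apply_symm_apply, map_add, map_sub L.symm (T' (ι.symm x)),
        ContinuousLinearEquiv.symm_apply_apply, _root_.sub_apply, map_sub, hTfa]
      change _ = _ - L.symm (T' (ι.symm x)) + _
      abel
    have h3 : ‖ι.symm x‖ ≤ C₁ := by
      refine (hιn x).trans ?_
      calc C₁ * ‖x‖ ≤ C₁ * 1 := by gcongr
        _ = C₁ := mul_one _
    have h4 : ‖(R - ContinuousLinearMap.id ℝ Z) (T' (ι.symm x))‖
        ≤ κ₀ / (3 * C₁ * NI) * (3 * C₁) := by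
      calc ‖(R - ContinuousLinearMap.id ℝ Z) (T' (ι.symm x))‖
          ≤ ‖R - ContinuousLinearMap.id ℝ Z‖ * ‖T' (ι.symm x)‖ :=
            ContinuousLinearMap.le_opNorm _ _
        _ ≤ κ₀ / (3 * C₁ * NI) * (m * ‖ι.symm x‖) := by
            gcongr
            exact T'.le_opNorm _
        _ ≤ κ₀ / (3 * C₁ * NI) * (3 * C₁) := by
            gcongr
            linarith
    have h5 := hdiff (ι.symm x)
    have h6 : η * ‖ι.symm x‖ ≤ κ₀ / (C₁ * NI) * C₁ := by gcongr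
    rw [h2]
    calc ‖L.symm ((R - ContinuousLinearMap.id ℝ Z) (T' (ι.symm x)) +
          (T' (ι.symm x) - L (emph e₀ y₀ ε (T (ι (ι.symm x))))))‖
        ≤ NI * (κ₀ / (3 * C₁ * NI) * (3 * C₁) + κ₀ / (C₁ * NI) * C₁) := by
          refine (hIn _).trans ?_
          gcongr
          exact (norm_add_le _ _).trans (add_le_add h4 (h5.trans h6))
      _ = 2 * κ₀ := by field_simp; norm_num
  -- the bound near the contact point
  have hposc : ∀ x, ‖x‖ ≤ 1 → 1 - δ₁ ≤ e₀ (T x) → ‖Tf x‖ ≤ m := by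
    intro x hx hx1
    have hz : T x ∈ imBall T := subset_closure ⟨x, mem_closedBall_zero_iff.2 hx, rfl⟩
    have hzd := hexp₁ _ hz hx1
    have hzr : ‖T x - y₀‖ < r := hzd.trans_le (min_le_left _ _)
    have hx₁ : ‖ι.symm x‖ ≤ 1 := by
      rw [Ren.norm_eq, ← hι, ContinuousLinearEquiv.apply_symm_apply, hSa]
      exact max_le hx (hb _ hz hzr)
    set w : Z := T' (ι.symm x) with hw
    have hwm : ‖w‖ ≤ m := by
      calc ‖w‖ ≤ m * ‖ι.symm x‖ := T'.le_opNorm _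
        _ ≤ m * 1 := by gcongr
        _ = m := mul_one _
    have h1ε : 0 < 1 + ε := by linarith
    have hwd : ‖w - (1 + ε) • L y₀‖ < (1 + ε) * r := by
      have h2 := hdiff (ι.symm x)
      rw [ContinuousLinearEquiv.apply_symm_apply, ← hw] at h2
      have h3 := hemph (T x)
      have h4 : w - (1 + ε) • L y₀ = (w - L (emph e₀ y₀ ε (T x)))
        + (L (emph e₀ y₀ ε (T x)) - (1 + ε) • L y₀) := by abel
      rw [h4]
      refine (norm_add_le _ _).trans_lt ?_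
      have h5 : NL * ‖T x - y₀‖ < r / 2 := by
        calc NL * ‖T x - y₀‖ < NL * (r / (2 * NL)) := by
              gcongr
              exact hzd.trans_le (min_le_right _ _)
          _ = r / 2 := by field_simp
      have h6 : (1 + ε) * (NL * ‖T x - y₀‖) < (1 + ε) * (r / 2) := by gcongr
      have h7 : η * ‖ι.symm x‖ ≤ r / 2 := by
        calc η * ‖ι.symm x‖ ≤ r / (2 * C₁) * 1 := by gcongr
          _ ≤ r / 2 := by
              rw [mul_one]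
              gcongr
              rw [hC₁]
              linarith
      have h8 : r / 2 ≤ (1 + ε) * (r / 2) := by
        have h9 : 0 ≤ ε * (r / 2) := by positivity
        linarith
      linarith
    have hv : ‖(1 + ε)⁻¹ • w - L y₀‖ < r := by
      have h2 : (1 + ε)⁻¹ • w - L y₀ = (1 + ε)⁻¹ • (w - (1 + ε) • L y₀) := by
        rw [smul_sub, smul_smul, inv_mul_cancel₀ h1ε.ne', one_smul]
      rw [h2, norm_smul, norm_inv, Real.norm_of_nonneg h1ε.le, inv_mul_lt_iff₀ h1ε]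
      exact hwd
    have h2 := hRdom _ hv
    rw [map_smul, map_smul, norm_smul, norm_smul, norm_inv, Real.norm_of_nonneg h1ε.le] at h2
    have h3 : ‖L.symm (R w)‖ ≤ ‖w‖ := le_of_mul_le_mul_left h2 (inv_pos.2 h1ε)
    exact h3.trans hwm
  have hball : ∀ x, ‖x‖ ≤ 1 → ‖Tf x‖ ≤ m := by
    intro x hx
    have hz : T x ∈ imBall T := subset_closure ⟨x, mem_closedBall_zero_iff.2 hx, rfl⟩
    by_cases hc1 : 1 - δ₁ ≤ e₀ (T x)
    · exact hposc x hx hc1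
    by_cases hc2 : 1 - δ₁ ≤ e₀ (T (-x))
    · have := hposc (-x) (by rwa [norm_neg]) hc2
      rwa [map_neg, norm_neg] at this
    push Not at hc1 hc2
    rw [map_neg, map_neg] at hc2
    have habs : |e₀ (T x)| ≤ 1 - δ₁ := abs_le.2 ⟨by linarith, hc1.le⟩
    have h2 : ‖emph e₀ y₀ ε (T x)‖ ≤ 1 + ε * (1 - δ₁) := by
      rw [emph_apply]
      refine (norm_add_le _ _).trans ?_
      rw [norm_smul, norm_smul, hy₀1, mul_one, Real.norm_of_nonneg hε.le, Real.norm_eq_abs]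
      gcongr
      exact hnz _ hz
    have h3 := hclose x hx
    have h4 : ‖Tf x‖ ≤ ‖Tf x - emph e₀ y₀ ε (T x)‖ + ‖emph e₀ y₀ ε (T x)‖ := by
      have h5 : Tf x = (Tf x - emph e₀ y₀ ε (T x)) + emph e₀ y₀ ε (T x) := by abel
      calc ‖Tf x‖ = ‖(Tf x - emph e₀ y₀ ε (T x)) + emph e₀ y₀ ε (T x)‖ := by rw [← h5]
        _ ≤ _ := norm_add_le _ _
    have h5 : κ₀ ≤ ε * δ₁ / 4 := min_le_left _ _
    linarith
  have hTfn : ‖Tf‖ ≤ m := by
    refine Tf.opNorm_le_of_unit_norm hmpos.le (fun x hx => hball x hx.le)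
  have hTfx₀ : ‖Tf (ι x₀)‖ = m := by
    rw [hTfa, ContinuousLinearEquiv.symm_apply_apply]
    have h2 : T' x₀ = m • (m⁻¹ • T' x₀) := by
      rw [smul_smul, mul_inv_cancel₀ hmpos.ne', one_smul]
    rw [h2, map_smul, hRy, map_smul, ContinuousLinearEquiv.symm_apply_apply, norm_smul, hy₀1,
      mul_one, Real.norm_of_nonneg hmpos.le]
  have hιx₀ : ‖ι x₀‖ ≤ 1 := (le_max_left _ _).trans hx₀'
  have hιx₀1 : ‖ι x₀‖ = 1 := by
    refine le_antisymm hιx₀ ?_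
    have h2 : m * 1 ≤ m * ‖ι x₀‖ := by
      rw [mul_one]
      calc m = ‖Tf (ι x₀)‖ := hTfx₀.symm
        _ ≤ ‖Tf‖ * ‖ι x₀‖ := Tf.le_opNorm _
        _ ≤ m * ‖ι x₀‖ := by gcongr
    exact le_of_mul_le_mul_left h2 hmpos
  refine ⟨Tf, ⟨ι x₀, hιx₀1, ?_⟩, ?_⟩
  · refine le_antisymm ?_ ?_
    · calc ‖Tf (ι x₀)‖ ≤ ‖Tf‖ * ‖ι x₀‖ := Tf.le_opNorm _
        _ = ‖Tf‖ := by rw [hιx₀1, mul_one]
    · rw [hTfx₀]
      exact hTfn
  · have h2 : ‖Tf - T‖ ≤ 3 / 4 * ρ := by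
      refine (Tf - T).opNorm_le_of_unit_norm (by positivity) (fun x hx => ?_)
      have h3 := hclose x hx.le
      have hz : T x ∈ imBall T := subset_closure ⟨x, mem_closedBall_zero_iff.2 hx.le, rfl⟩
      have h4 : ‖emph e₀ y₀ ε (T x) - T x‖ ≤ ε := by
        rw [emph_apply, add_sub_cancel_left, norm_smul, norm_smul, hy₀1, mul_one,
          Real.norm_of_nonneg hε.le, Real.norm_eq_abs]
        calc ε * |e₀ (T x)| ≤ ε * 1 := by gcongr; exact hle' _ hz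
          _ = ε := mul_one _
      have h5 : κ₀ ≤ ρ / 4 := min_le_right _ _
      have h6 : (Tf - T) x = (Tf x - emph e₀ y₀ ε (T x)) + (emph e₀ y₀ ε (T x) - T x) := by
        rw [_root_.sub_apply]; abel
      rw [h6]
      refine (norm_add_le _ _).trans ?_
      linarith
    linarith

end Pool.Agent.Helper63.PropB.Red
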