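import Mathlib
import Pool.Agent.Helper63.PropB.Red.Ellipsoid
import Pool.Agent.Helper63.PropB.Red.Transfer

/-!
A point of second order smoothness and strong convexity of the norm of `Z` can be matched with a
contact point of second order of an operator into `Y`.
-/

namespace Pool.Agent.Helper63.PropB.Red

open Set Metric Filter Topology

universe u v w

variable {X : Type u} [NormedAddCommGroup X] [NormedSpace ℝ X]
variable {Y : Type v} [NormedAddCommGroup Y] [NormedSpace ℝ Y]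
variable {Z : Type w} [NormedAddCommGroup Z] [NormedSpace ℝ Z] {k : ℕ}

/-- The norm of `Z` is smooth of second order and strongly convex at `p`, in terms of the
supporting functionals `Φ` and the second derivative `G`. -/
structure Model (p : Z) (Φ : Z → Z →L[ℝ] ℝ) (G : Z →L[ℝ] Z →L[ℝ] ℝ) : Prop where
  norm_p : ‖p‖ = 1
  norm_Φ : ‖Φ p‖ ≤ 1
  cont : ContinuousAt Φ p
  self : ∀ᶠ y in 𝓝 p, Φ y y = ‖y‖
  pos : ∀ h, Φ p h = 0 → h ≠ 0 → 0 < G h h
  symm : ∀ h h', G h h' = G h' h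
  Gp : ∀ h, G p h = 0
  taylor : ∀ ε : ℝ, 0 < ε → ∃ r : ℝ, 0 < r ∧ ∀ y h : Z, ‖y - p‖ < r → ‖y‖ = 1 → ‖h‖ < r →
    Φ y h = 0 → |‖y + h‖ - 1 - 1 / 2 * G h h| ≤ ε * ‖h‖ ^ 2

theorem Chart.finrank_eq [FiniteDimensional ℝ Y] (c : Chart Y k) :
    Module.finrank ℝ Y = k + 1 := by
  set f : Y →ₗ[ℝ] ℝ × EuclideanSpace ℝ (Fin k) :=
    (c.e₀ : Y →ₗ[ℝ] ℝ).prod (c.π : Y →ₗ[ℝ] EuclideanSpace ℝ (Fin k)) with hf
  have hfa : ∀ z, f z = (c.e₀ z, c.π z) := fun z => rfl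
  have hinj : Function.Injective f := by
    intro z z' h
    rw [hfa, hfa, Prod.mk.injEq] at h
    rw [c.h4 z, c.h4 z', h.1, h.2]
  have hsurj : Function.Surjective f := by
    rintro ⟨t, x⟩
    refine ⟨t • c.y₀ + c.κ x, ?_⟩
    rw [hfa, map_add, map_add, map_smul, map_smul, c.h1, c.h2, c.h3, c.π_y₀, smul_zero, zero_add,
      smul_eq_mul, mul_one, add_zero]
  have h1 := (LinearEquiv.ofBijective f ⟨hinj, hsurj⟩).finrank_eq
  rw [h1, Module.finrank_prod, finrank_euclideanSpace, Fintype.card_fin, Module.finrank_self]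
  exact add_comm _ _

/-- A linear isomorphism between two spaces with charts. -/
noncomputable def link (c : Chart Y k) (c' : Chart Z k) : Y ≃L[ℝ] Z :=
  ContinuousLinearEquiv.equivOfInverse (c.e₀.smulRight c'.y₀ + c'.κ.comp c.π)
    (c'.e₀.smulRight c.y₀ + c.κ.comp c'.π)
    (fun z => by
      change c'.e₀ (c.e₀ z • c'.y₀ + c'.κ (c.π z)) • c.y₀
        + c.κ (c'.π (c.e₀ z • c'.y₀ + c'.κ (c.π z))) = z
      rw [map_add, map_smul, c'.h1, c'.h2, add_zero, smul_eq_mul, mul_one, map_add, map_smul,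
        c'.π_y₀, smul_zero, zero_add, c'.h3]
      exact (c.h4 z).symm)
    (fun z => by
      change c.e₀ (c'.e₀ z • c.y₀ + c.κ (c'.π z)) • c'.y₀
        + c'.κ (c.π (c'.e₀ z • c.y₀ + c.κ (c'.π z))) = z
      rw [map_add, map_smul, c.h1, c.h2, add_zero, smul_eq_mul, mul_one, map_add, map_smul,
        c.π_y₀, smul_zero, zero_add, c.h3]
      exact (c'.h4 z).symm)

theorem link_apply (c : Chart Y k) (c' : Chart Z k) (y : Y) :
    link c c' y = c.e₀ y • c'.y₀ + c'.κ (c.π y) := rfl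

theorem link_symm_apply (c : Chart Y k) (c' : Chart Z k) (z : Z) :
    (link c c').symm z = c'.e₀ z • c.y₀ + c.κ (c'.π z) := rfl

theorem link_y₀ (c : Chart Y k) (c' : Chart Z k) : link c c' c.y₀ = c'.y₀ := by
  rw [link_apply, c.h1, one_smul, c.π_y₀, map_zero, add_zero]

theorem Chart.near (c : Chart Y k) {r₀ : ℝ} (hr₀ : 0 < r₀) :
    ∃ r : ℝ, 0 < r ∧ ∀ z, ‖z - c.y₀‖ < r → 1 / 2 ≤ c.e₀ z ∧
      ∃ x, c.π z = c.e₀ z • x ∧ ‖x‖ < r₀ := by
  refine ⟨min (1 / 2) (r₀ / (2 * (‖c.π‖ + 1))), lt_min (by norm_num) (by positivity), ?_⟩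
  intro z hz
  have h1 : |c.e₀ z - 1| ≤ 1 / 2 := by
    have h2 : c.e₀ z - 1 = c.e₀ (z - c.y₀) := by rw [map_sub, c.h1]
    rw [h2]
    calc |c.e₀ (z - c.y₀)| = ‖c.e₀ (z - c.y₀)‖ := rfl
      _ ≤ ‖c.e₀‖ * ‖z - c.y₀‖ := c.e₀.le_opNorm _
      _ ≤ 1 * (1 / 2) := by
        gcongr
        · exact c.he₀
        · exact hz.le.trans (min_le_left _ _)
      _ = 1 / 2 := one_mul _
  have h2 : 1 / 2 ≤ c.e₀ z := by
    have := (abs_le.1 h1).1
    linarith
  have h3 : 0 < c.e₀ z := by linarith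
  refine ⟨h2, (c.e₀ z)⁻¹ • c.π z, ?_, ?_⟩
  · rw [smul_smul, mul_inv_cancel₀ h3.ne', one_smul]
  · have h4 : c.π z = c.π (z - c.y₀) := by rw [map_sub, c.π_y₀, sub_zero]
    rw [norm_smul, norm_inv, Real.norm_of_nonneg h3.le, inv_mul_lt_iff₀ h3, h4]
    calc ‖c.π (z - c.y₀)‖ ≤ ‖c.π‖ * ‖z - c.y₀‖ := c.π.le_opNorm _
      _ ≤ ‖c.π‖ * (r₀ / (2 * (‖c.π‖ + 1))) := by
          gcongr
          exact hz.le.trans (min_le_right _ _)
      _ < (‖c.π‖ + 1) * (r₀ / (2 * (‖c.π‖ + 1))) := by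
          gcongr
          linarith
      _ = 1 / 2 * r₀ := by field_simp
      _ ≤ c.e₀ z * r₀ := by gcongr

/-- Adapt the chart at a model point to a prescribed positive definite form. -/
theorem Model.exists_chart [FiniteDimensional ℝ Z] {p : Z} {Φ : Z → Z →L[ℝ] ℝ}
    {G : Z →L[ℝ] Z →L[ℝ] ℝ} (hm : Model p Φ G) (hp1 : Φ p p = 1)
    (hk : Module.finrank ℝ Z = k + 1)
    (M : EuclideanSpace ℝ (Fin k) →L[ℝ] EuclideanSpace ℝ (Fin k))
    (hM : ∀ x, 0 ≤ inner ℝ (M x) x) {b : ℝ} (hb : 0 < b) :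
    ∃ c : Chart Z k, c.e₀ = Φ p ∧ c.y₀ = p ∧
      ∀ x, G (c.κ x) (c.κ x) = inner ℝ (M x) x + 4 * b * ‖x‖ ^ 2 := by
  obtain ⟨k', c, hc1, hc2⟩ := Red.exists_chart hm.norm_Φ hm.norm_p.le hp1
  obtain rfl : k' = k := by
    have := c.finrank_eq
    omega
  set F := EuclideanSpace ℝ (Fin k') with hF
  have hsplit : ∀ x y : F, 1 / 2 * (inner ℝ (M x) y + inner ℝ (M y) x) + 4 * b * inner ℝ x y
      = 1 / 2 * (inner ℝ (M y) x + inner ℝ (M x) y) + 4 * b * inner ℝ y x := by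
    intro x y
    rw [add_comm (inner ℝ (M x) y), real_inner_comm x y]
  set core₁ : InnerProductSpace.Core ℝ F :=
    { inner := fun x y => 1 / 2 * (inner ℝ (M x) y + inner ℝ (M y) x) + 4 * b * inner ℝ x y
      conj_inner_symm := fun x y => by
        simp only [conj_trivial]
        exact hsplit y x
      re_inner_nonneg := fun x => by
        have h1 := hM x
        have h2 := real_inner_self_nonneg (x := x)
        simp only [RCLike.re_to_real]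
        have h3 : 0 ≤ 4 * b * inner ℝ x x := by positivity
        linarith
      add_left := fun x y z => by
        simp only [map_add, inner_add_left, inner_add_right]
        ring
      smul_left := fun x y a => by
        simp only [map_smul, real_inner_smul_left, real_inner_smul_right, conj_trivial]
        ring
      definite := fun x hx => by
        have h1 := hM x
        have h2 := real_inner_self_nonneg (x := x)
        have h3 : 0 ≤ 4 * b * inner ℝ x x := by positivity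
        have h4 : 4 * b * inner ℝ x x = 0 := by
          have hx' : 1 / 2 * (inner ℝ (M x) x + inner ℝ (M x) x) + 4 * b * inner ℝ x x = 0 := hx
          linarith
        have h5 : inner ℝ x x = 0 := by
          rcases mul_eq_zero.1 h4 with h6 | h6
          · exact absurd h6 (by positivity)
          · exact h6
        exact inner_self_eq_zero.1 h5 } with hcore₁
  have hker : ∀ x, Φ p (c.κ x) = 0 := by
    intro x
    rw [← hc1]
    exact c.h2 x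
  have hκ0 : ∀ x, c.κ x = 0 → x = 0 := by
    intro x hx
    rw [← c.h3 x, hx, map_zero]
  set core₂ : InnerProductSpace.Core ℝ F :=
    { inner := fun x y => G (c.κ x) (c.κ y)
      conj_inner_symm := fun x y => by
        simp only [conj_trivial]
        exact hm.symm _ _
      re_inner_nonneg := fun x => by
        simp only [RCLike.re_to_real]
        by_cases h : c.κ x = 0
        · rw [h]; simp
        · exact (hm.pos _ (hker x) h).le
      add_left := fun x y z => by simp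
      smul_left := fun x y a => by simp
      definite := fun x hx => by
        by_contra hcon
        have h1 := hm.pos _ (hker x) (fun h => hcon (hκ0 x h))
        exact h1.ne' hx } with hcore₂
  obtain ⟨L₁, hL₁⟩ := exists_euclid core₁
  obtain ⟨L₂, hL₂⟩ := exists_euclid core₂
  set P : F ≃ₗ[ℝ] F := L₁.trans L₂.symm with hP
  have hPG : ∀ x, G (c.κ (P x)) (c.κ (P x)) = inner ℝ (M x) x + 4 * b * ‖x‖ ^ 2 := by
    intro x
    have h1 : G (c.κ (P x)) (c.κ (P x)) = core₂.inner (P x) (P x) := rfl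
    have h2 : L₂ (P x) = L₁ x := L₂.apply_symm_apply _
    rw [h1, ← hL₂, h2, hL₁]
    change 1 / 2 * (inner ℝ (M x) x + inner ℝ (M x) x) + 4 * b * inner ℝ x x = _
    rw [real_inner_self_eq_norm_sq]
    ring
  set Pc : F ≃L[ℝ] F := P.toContinuousLinearEquiv with hPc
  refine ⟨⟨c.e₀, c.y₀, c.κ.comp (Pc : F →L[ℝ] F), (Pc.symm : F →L[ℝ] F).comp c.π, c.he₀, c.hy₀,
    c.h1, fun x => c.h2 _, fun x => ?_, fun z => ?_⟩, hc1, hc2, fun x => hPG x⟩
  · change Pc.symm (c.π (c.κ (Pc x))) = x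
    rw [c.h3, ContinuousLinearEquiv.symm_apply_apply]
  · change z = c.e₀ z • c.y₀ + c.κ (Pc (Pc.symm (c.π z)))
    rw [ContinuousLinearEquiv.apply_symm_apply]
    exact c.h4 z

/-- The rotation that moves `y` to `p`. -/
noncomputable def rot (Φ : Z → Z →L[ℝ] ℝ) (p y : Z) : Z →L[ℝ] Z :=
  (Φ y).smulRight p + (ContinuousLinearMap.id ℝ Z - (Φ p).smulRight p).comp
    (ContinuousLinearMap.id ℝ Z - (Φ y).smulRight y)

theorem rot_apply (Φ : Z → Z →L[ℝ] ℝ) (p y v : Z) :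
    rot Φ p y v = Φ y v • p + ((v - Φ y v • y) - Φ p (v - Φ y v • y) • p) := rfl

theorem rot_self {Φ : Z → Z →L[ℝ] ℝ} {p y : Z} (h : Φ y y = 1) : rot Φ p y y = p := by
  rw [rot_apply, h, one_smul, one_smul, sub_self, map_zero, zero_smul, sub_zero, add_zero]

theorem norm_rot_sub_le {Φ : Z → Z →L[ℝ] ℝ} {p y : Z} (hp : ‖p‖ = 1) (hΦ : ‖Φ p‖ ≤ 1)
    (hp1 : Φ p p = 1) :
    ‖rot Φ p y - ContinuousLinearMap.id ℝ Z‖ ≤ 2 * ‖Φ y‖ * ‖y - p‖ + ‖Φ y - Φ p‖ := by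
  refine ContinuousLinearMap.opNorm_le_bound _ (by positivity) (fun v => ?_)
  have h1 : (rot Φ p y - ContinuousLinearMap.id ℝ Z) v
      = -(Φ y v • (y - p)) + (Φ y - Φ p) v • p + (Φ y v * Φ p (y - p)) • p := by
    rw [_root_.sub_apply, rot_apply, _root_.sub_apply, map_sub, map_sub, map_smul, hp1,
      ContinuousLinearMap.id_apply, smul_eq_mul]
    module
  have h2 : |Φ y v| ≤ ‖Φ y‖ * ‖v‖ := (Φ y).le_opNorm v
  have h3 : |(Φ y - Φ p) v| ≤ ‖Φ y - Φ p‖ * ‖v‖ := (Φ y - Φ p).le_opNorm v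
  have h4 : |Φ p (y - p)| ≤ ‖y - p‖ := by
    calc |Φ p (y - p)| = ‖Φ p (y - p)‖ := rfl
      _ ≤ ‖Φ p‖ * ‖y - p‖ := (Φ p).le_opNorm _
      _ ≤ 1 * ‖y - p‖ := by gcongr
      _ = ‖y - p‖ := one_mul _
  rw [h1]
  calc ‖-(Φ y v • (y - p)) + (Φ y - Φ p) v • p + (Φ y v * Φ p (y - p)) • p‖
      ≤ ‖-(Φ y v • (y - p))‖ + ‖(Φ y - Φ p) v • p‖ + ‖(Φ y v * Φ p (y - p)) • p‖ := norm_add₃_le
    _ ≤ ‖Φ y‖ * ‖v‖ * ‖y - p‖ + ‖Φ y - Φ p‖ * ‖v‖ + ‖Φ y‖ * ‖v‖ * ‖y - p‖ := by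
        rw [norm_neg, norm_smul, norm_smul, norm_smul, hp, mul_one, mul_one, Real.norm_eq_abs,
          Real.norm_eq_abs, Real.norm_eq_abs, abs_mul]
        gcongr
    _ = (2 * ‖Φ y‖ * ‖y - p‖ + ‖Φ y - Φ p‖) * ‖v‖ := by ring

/-- The rotated norm of the model dominates the norm of `Y` near the contact. -/
theorem Model.dominates {p : Z} {Φ : Z → Z →L[ℝ] ℝ} {G : Z →L[ℝ] Z →L[ℝ] ℝ}
    (hm : Model p Φ G) (c : Chart Y k) (c' : Chart Z k) (hc1 : c'.e₀ = Φ p) (hc2 : c'.y₀ = p)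
    (M : EuclideanSpace ℝ (Fin k) →L[ℝ] EuclideanSpace ℝ (Fin k)) {b : ℝ} (hb : 0 < b)
    (hG : ∀ x, G (c'.κ x) (c'.κ x) = inner ℝ (M x) x + 4 * b * ‖x‖ ^ 2) {r₀ : ℝ} (hr₀ : 0 < r₀)
    (hA : ∀ x, ‖x‖ < r₀ → c.H x ≤ 1 + 1 / 2 * inner ℝ (M x) x + b * ‖x‖ ^ 2) :
    ∃ r : ℝ, 0 < r ∧ ∃ η : ℝ, 0 < η ∧ ∀ y : Z, ‖y‖ = 1 → ‖y - p‖ < η →
      ∀ v, ‖v - p‖ < r → ‖(link c c').symm (rot Φ p y v)‖ ≤ ‖v‖ := by
  have hp1 : Φ p p = 1 := by rw [← hc1, ← hc2]; exact c'.h1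
  set Kκ : ℝ := ‖c'.κ‖ with hKκ
  have hKκ0 : 0 ≤ Kκ := norm_nonneg _
  obtain ⟨r₁, hr₁, htay⟩ := hm.taylor (b / (4 * Kκ ^ 2 + 1)) (by positivity)
  obtain ⟨η₁, hη₁, hself⟩ := Metric.eventually_nhds_iff.1 hm.self
  obtain ⟨η₂, hη₂, hcont⟩ := Metric.continuousAt_iff.1 hm.cont (1 / 8) (by norm_num)
  set Kπ : ℝ := ‖c'.π‖ + 1 with hKπ
  have hKπpos : 0 < Kπ := by positivity
  -- the allowed size of `h`
  obtain ⟨r₂, hr₂, hr₂1, hr₂2, hr₂3⟩ : ∃ r₂ : ℝ, 0 < r₂ ∧ r₂ ≤ 1 / 8 ∧ 16 * r₂ < r₁ ∧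
      16 * Kπ * r₂ < r₀ := by
    refine ⟨min (1 / 8) (min (r₁ / 32) (r₀ / (32 * Kπ))), ?_, min_le_left _ _, ?_, ?_⟩
    · exact lt_min (by norm_num) (lt_min (by positivity) (by positivity))
    · have : min (1 / 8) (min (r₁ / 32) (r₀ / (32 * Kπ))) ≤ r₁ / 32 :=
        (min_le_right _ _).trans (min_le_left _ _)
      linarith
    · have h1 : min (1 / 8) (min (r₁ / 32) (r₀ / (32 * Kπ))) ≤ r₀ / (32 * Kπ) :=
        (min_le_right _ _).trans (min_le_right _ _)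
      calc 16 * Kπ * min (1 / 8) (min (r₁ / 32) (r₀ / (32 * Kπ)))
          ≤ 16 * Kπ * (r₀ / (32 * Kπ)) := by gcongr
        _ = r₀ / 2 := by field_simp; norm_num
        _ < r₀ := by linarith
  obtain ⟨η₃, hη₃, hcont₃⟩ := Metric.continuousAt_iff.1 hm.cont r₂ hr₂
  refine ⟨r₂, hr₂, min (min η₁ η₂) (min (min η₃ r₂) r₁), by positivity, ?_⟩
  intro y hy1 hy v hv
  have hyη₁ : dist y p < η₁ := by
    rw [dist_eq_norm]
    exact hy.trans_le ((min_le_left _ _).trans (min_le_left _ _))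
  have hyη₂ : dist y p < η₂ := by
    rw [dist_eq_norm]
    exact hy.trans_le ((min_le_left _ _).trans (min_le_right _ _))
  have hyη₃ : dist y p < η₃ := by
    rw [dist_eq_norm]
    exact hy.trans_le ((min_le_right _ _).trans ((min_le_left _ _).trans (min_le_left _ _)))
  have hyr₂ : ‖y - p‖ < r₂ :=
    hy.trans_le ((min_le_right _ _).trans ((min_le_left _ _).trans (min_le_right _ _)))
  have hyr₁ : ‖y - p‖ < r₁ := hy.trans_le ((min_le_right _ _).trans (min_le_right _ _))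
  have hΦyy : Φ y y = 1 := by rw [hself hyη₁, hy1]
  have hd2 : ‖Φ y - Φ p‖ ≤ 1 / 8 := by
    have := hcont hyη₂
    rw [dist_eq_norm] at this
    exact this.le
  have hd3 : ‖Φ y - Φ p‖ ≤ r₂ := by
    have := hcont₃ hyη₃
    rw [dist_eq_norm] at this
    exact this.le
  have hvn : ‖v‖ ≤ 2 := by
    have h1 : v = (v - p) + p := by abel
    rw [h1]
    refine (norm_add_le _ _).trans ?_
    rw [hm.norm_p]
    linarith
  -- the coordinate of `v`
  set t : ℝ := Φ y v with ht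
  have ht1 : |t - 1| ≤ 3 * r₂ := by
    have h1 : t - 1 = (Φ y - Φ p) v + Φ p (v - p) := by
      rw [_root_.sub_apply, map_sub, hp1]; ring
    rw [h1]
    have h2 : |(Φ y - Φ p) v| ≤ r₂ * 2 := by
      calc |(Φ y - Φ p) v| = ‖(Φ y - Φ p) v‖ := rfl
        _ ≤ ‖Φ y - Φ p‖ * ‖v‖ := (Φ y - Φ p).le_opNorm v
        _ ≤ r₂ * 2 := by gcongr
    have h3 : |Φ p (v - p)| ≤ r₂ := by
      calc |Φ p (v - p)| = ‖Φ p (v - p)‖ := rfl
        _ ≤ ‖Φ p‖ * ‖v - p‖ := (Φ p).le_opNorm _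
        _ ≤ 1 * r₂ := by
          gcongr
          exact hm.norm_Φ
        _ = r₂ := one_mul _
    calc |(Φ y - Φ p) v + Φ p (v - p)| ≤ |(Φ y - Φ p) v| + |Φ p (v - p)| := abs_add_le _ _
      _ ≤ 3 * r₂ := by linarith
  have ht2 : 1 / 2 ≤ t := by
    have := (abs_le.1 ht1).1
    linarith
  have htpos : 0 < t := by linarith
  -- the direction
  set h : Z := t⁻¹ • v - y with hh
  have hvh : v = t • (y + h) := by
    rw [hh, add_sub_cancel, smul_smul, mul_inv_cancel₀ htpos.ne', one_smul]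
  have hΦh : Φ y h = 0 := by
    rw [hh, map_sub, map_smul, hΦyy, ← ht, smul_eq_mul, inv_mul_cancel₀ htpos.ne', sub_self]
  have hhn : ‖h‖ < 16 * r₂ := by
    have h1 : h = t⁻¹ • ((v - p) - (y - p) + (1 - t) • y) := by
      rw [hh]
      have h2 : y = t⁻¹ • (t • y) := by rw [smul_smul, inv_mul_cancel₀ htpos.ne', one_smul]
      nth_rewrite 1 [h2]
      rw [← smul_sub]
      congr 1
      module
    have h2 : ‖(v - p) - (y - p) + (1 - t) • y‖ < 5 * r₂ := by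
      have h3 : ‖(1 - t) • y‖ ≤ 3 * r₂ := by
        rw [norm_smul, hy1, mul_one, Real.norm_eq_abs, abs_sub_comm]
        exact ht1
      have h4 : ‖(v - p) - (y - p)‖ ≤ ‖v - p‖ + ‖y - p‖ := norm_sub_le _ _
      have h5 := norm_add_le ((v - p) - (y - p)) ((1 - t) • y)
      linarith
    rw [h1, norm_smul, norm_inv, Real.norm_of_nonneg htpos.le, inv_mul_lt_iff₀ htpos]
    have h6 : 1 / 2 * (16 * r₂) ≤ t * (16 * r₂) := by gcongr
    linarith
  have hT := (abs_le.1 (htay y h hyr₁ hy1 (hhn.trans hr₂2) hΦh)).1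
  -- the transported direction
  set σ := c'.π h with hσ
  have hh4 : h = Φ p h • p + c'.κ σ := by
    have := c'.h4 h
    rwa [hc1, hc2] at this
  have hσn : ‖σ‖ < r₀ := by
    calc ‖σ‖ ≤ ‖c'.π‖ * ‖h‖ := c'.π.le_opNorm h
      _ ≤ Kπ * (16 * r₂) := by
        gcongr
        rw [hKπ]
        linarith
      _ = 16 * Kπ * r₂ := by ring
      _ < r₀ := hr₂3
  have hhσ : ‖h‖ ≤ 2 * (Kκ * ‖σ‖) := by
    have h1 : ‖h‖ ≤ |Φ p h| + Kκ * ‖σ‖ := by
      calc ‖h‖ = ‖Φ p h • p + c'.κ σ‖ := by rw [← hh4]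
        _ ≤ ‖Φ p h • p‖ + ‖c'.κ σ‖ := norm_add_le _ _
        _ ≤ |Φ p h| + Kκ * ‖σ‖ := by
          rw [norm_smul, hm.norm_p, mul_one, Real.norm_eq_abs]
          gcongr
          exact c'.κ.le_opNorm σ
    have h2 : |Φ p h| ≤ 1 / 8 * ‖h‖ := by
      have h3 : Φ p h = -((Φ y - Φ p) h) := by rw [_root_.sub_apply, hΦh]; ring
      rw [h3, abs_neg]
      calc |(Φ y - Φ p) h| = ‖(Φ y - Φ p) h‖ := rfl
        _ ≤ ‖Φ y - Φ p‖ * ‖h‖ := (Φ y - Φ p).le_opNorm h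
        _ ≤ 1 / 8 * ‖h‖ := by gcongr
    have h3 : 0 ≤ Kκ * ‖σ‖ := by positivity
    linarith
  have hGh : G h h = inner ℝ (M σ) σ + 4 * b * ‖σ‖ ^ 2 := by
    rw [← hG σ]
    nth_rewrite 1 [hh4]
    rw [map_add, map_smul, add_apply, smul_apply, hm.Gp, smul_zero, zero_add, hm.symm]
    nth_rewrite 1 [hh4]
    rw [map_add, map_smul, add_apply, smul_apply, hm.Gp, smul_zero, zero_add]
  have herr : b / (4 * Kκ ^ 2 + 1) * ‖h‖ ^ 2 ≤ b * ‖σ‖ ^ 2 := by
    calc b / (4 * Kκ ^ 2 + 1) * ‖h‖ ^ 2 ≤ b / (4 * Kκ ^ 2 + 1) * (2 * (Kκ * ‖σ‖)) ^ 2 := by gcongr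
      _ = b / (4 * Kκ ^ 2 + 1) * (4 * Kκ ^ 2) * ‖σ‖ ^ 2 := by ring
      _ ≤ b / (4 * Kκ ^ 2 + 1) * (4 * Kκ ^ 2 + 1) * ‖σ‖ ^ 2 := by gcongr; linarith
      _ = b * ‖σ‖ ^ 2 := by field_simp
  have hR : (link c c').symm (rot Φ p y v) = t • (c.y₀ + c.κ σ) := by
    have h1 : v - Φ y v • y = t • h := by
      rw [← ht]
      nth_rewrite 1 [hvh]
      module
    rw [rot_apply, h1, ← ht]
    have h2 : t • p + (t • h - Φ p (t • h) • p) = t • (p + c'.κ σ) := by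
      have h3 : c'.κ σ = h - Φ p h • p := by
        rw [eq_sub_iff_add_eq']
        exact hh4.symm
      rw [h3, map_smul, smul_eq_mul]
      module
    rw [h2, link_symm_apply, map_smul, map_smul, map_add, map_add, c'.h2, c'.h3, add_zero]
    have h3 : c'.e₀ p = 1 := by rw [hc1, hp1]
    have h4 : c'.π p = 0 := by rw [← hc2]; exact c'.π_y₀
    rw [h3, h4, zero_add, smul_eq_mul, mul_one, map_smul, smul_add]
  rw [hR, norm_smul, Real.norm_of_nonneg htpos.le]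
  have hfin : c.H σ ≤ ‖y + h‖ := by
    have h1 := hA σ hσn
    rw [hGh] at hT
    linarith
  calc t * ‖c.y₀ + c.κ σ‖ = t * c.H σ := rfl
    _ ≤ t * ‖y + h‖ := by gcongr
    _ = ‖v‖ := by rw [hvh, norm_smul, Real.norm_of_nonneg htpos.le]

theorem normAttaining_smul {T : X →L[ℝ] Y} (hT : NormAttaining T) (a : ℝ) :
    NormAttaining (a • T) := by
  obtain ⟨x, hx, h⟩ := hT
  refine ⟨x, hx, ?_⟩
  rw [smul_apply, norm_smul, norm_smul, h]

theorem approx_of_model [FiniteDimensional ℝ Y] [FiniteDimensional ℝ Z] [Nontrivial X] {p : Z}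
    {Φ : Z → Z →L[ℝ] ℝ} {G : Z →L[ℝ] Z →L[ℝ] ℝ} (hm : Model p Φ G)
    (hdim : Module.finrank ℝ Y = Module.finrank ℝ Z)
    (hZ : ∀ S : X →L[ℝ] Z, Dense {T : Ren S →L[ℝ] Z | NormAttaining T}) (T : X →L[ℝ] Y)
    {ρ : ℝ} (hρ : 0 < ρ) : ∃ T' : X →L[ℝ] Y, NormAttaining T' ∧ ‖T' - T‖ < ρ := by
  rcases eq_or_ne T 0 with h0 | h0
  · subst h0
    obtain ⟨x, hx⟩ := exists_norm_eq X (zero_le_one)
    exact ⟨0, ⟨x, hx, by simp⟩, by simpa using hρ⟩
  obtain ⟨T₂, a, ha, hT₂, hclose, hSO⟩ := exists_second_order T h0 (ρ := ρ / 2) (by positivity)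
  have hidT : (ContinuousLinearMap.id ℝ Y).comp T₂ = T₂ := by ext x; rfl
  obtain ⟨e₀, he₀, y₀, hy, hey⟩ := exists_contact T₂ (ContinuousLinearMap.id ℝ Y)
  rw [hidT, hT₂] at hey
  have hey' : e₀ y₀ = 1 := hey
  have hy₀ : ‖y₀‖ ≤ 1 := by
    have := norm_le_of_mem_imBall T₂ hy (ContinuousLinearMap.id ℝ Y)
    rw [hidT, hT₂] at this
    exact this
  obtain ⟨k, c, rfl, rfl⟩ := exists_chart he₀ hy₀ hey'
  obtain ⟨M, b, hb, hM, r₀, hr₀, hA, hB⟩ := local_data c T₂ hT₂ hy hSO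
  have hp1 : Φ p p = 1 := by rw [hm.self.self_of_nhds, hm.norm_p]
  have hk : Module.finrank ℝ Z = k + 1 := by rw [← hdim]; exact c.finrank_eq
  obtain ⟨c', hc1, hc2, hG⟩ := hm.exists_chart hp1 hk M hM hb
  obtain ⟨r₁, hr₁, η₀, hη₀, hdom⟩ := hm.dominates c c' hc1 hc2 M hb hG hr₀ hA
  -- the model norm is below one on the image of the ball
  set Kκ : ℝ := ‖c'.κ‖ with hKκ
  have hKκ0 : 0 ≤ Kκ := norm_nonneg _
  obtain ⟨rt, hrt, htay⟩ := hm.taylor (b / (Kκ ^ 2 + 1)) (by positivity)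
  obtain ⟨rn, hrn, hnear⟩ := c.near (r₀ := min r₀ (rt / (Kκ + 1)))
    (lt_min hr₀ (by positivity))
  have hb' : ∀ z ∈ imBall T₂, ‖z - c.y₀‖ < rn → ‖link c c' z‖ ≤ 1 := by
    intro z hz hzr
    obtain ⟨hz1, x, hx, hxr⟩ := hnear z hzr
    have hz2 : 0 ≤ c.e₀ z := by linarith
    have hx1 : ‖x‖ < r₀ := hxr.trans_le (min_le_left _ _)
    have hκx : ‖c'.κ x‖ ≤ Kκ * ‖x‖ := c'.κ.le_opNorm x
    have hx2 : ‖c'.κ x‖ < rt := by
      calc ‖c'.κ x‖ ≤ Kκ * ‖x‖ := hκx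
        _ ≤ Kκ * (rt / (Kκ + 1)) := by
          gcongr
          exact hxr.le.trans (min_le_right _ _)
        _ < (Kκ + 1) * (rt / (Kκ + 1)) := by gcongr; linarith
        _ = rt := by field_simp
    have h1 : link c c' z = c.e₀ z • (p + c'.κ x) := by
      rw [link_apply, hx, map_smul, hc2, smul_add]
    have h2 : Φ p (c'.κ x) = 0 := by rw [← hc1]; exact c'.h2 x
    have h3 := (abs_le.1 (htay p (c'.κ x) (by rw [sub_self, norm_zero]; exact hrt) hm.norm_p hx2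
      h2)).2
    rw [hG] at h3
    have h4 : b / (Kκ ^ 2 + 1) * ‖c'.κ x‖ ^ 2 ≤ b * ‖x‖ ^ 2 := by
      calc b / (Kκ ^ 2 + 1) * ‖c'.κ x‖ ^ 2 ≤ b / (Kκ ^ 2 + 1) * (Kκ * ‖x‖) ^ 2 := by gcongr
        _ = b / (Kκ ^ 2 + 1) * Kκ ^ 2 * ‖x‖ ^ 2 := by ring
        _ ≤ b / (Kκ ^ 2 + 1) * (Kκ ^ 2 + 1) * ‖x‖ ^ 2 := by gcongr; linarith
        _ = b * ‖x‖ ^ 2 := by field_simp
    rw [h1, norm_smul, Real.norm_of_nonneg hz2]
    refine le_trans ?_ (hB z hz hz1 x hx hx1)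
    apply mul_le_mul_of_nonneg_left _ hz2
    linarith
  have hs' : ∀ z ∈ imBall T₂, ‖z - c.y₀‖ < rn → c.e₀ z = 1 → z = c.y₀ := by
    intro z hz hzr hz1
    obtain ⟨hz2, x, hx, hxr⟩ := hnear z hzr
    have h1 := hB z hz hz2 x hx (hxr.trans_le (min_le_left _ _))
    rw [hz1, one_mul] at h1
    have h2 := hM x
    have h3 : 3 * b * ‖x‖ ^ 2 ≤ 0 := by linarith
    have h4 : x = 0 := by
      by_contra hcon
      have h5 : 0 < ‖x‖ := norm_pos_iff.2 hcon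
      have h6 : 0 < 3 * b * ‖x‖ ^ 2 := by positivity
      linarith
    have h5 := c.apply_κ_eq hx
    rw [hz1, one_smul, h4, map_zero, add_zero] at h5
    exact h5
  have hLy : link c c' c.y₀ = p := by rw [link_y₀, hc2]
  obtain ⟨T', hT', hT'2⟩ := transfer (ρ := ρ / (2 * a)) hZ T₂ hT₂ c.he₀ c.hy₀ c.h1 hy (link c c')
    (by rw [hLy]; exact hm.norm_p) (r := min rn r₁) (lt_min hrn hr₁)
    (fun z hz hzr => hb' z hz (hzr.trans_le (min_le_left _ _)))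
    (fun z hz hzr hz1 => hs' z hz (hzr.trans_le (min_le_left _ _)) hz1)
    (by
      intro ε hε
      rw [hLy]
      obtain ⟨η₁, hη₁, hself⟩ := Metric.eventually_nhds_iff.1 hm.self
      obtain ⟨η₂, hη₂, hcont⟩ := Metric.continuousAt_iff.1 hm.cont (min 1 (ε / 2))
        (lt_min one_pos (by positivity))
      refine ⟨min (min η₀ η₁) (min η₂ (ε / 8)),
        lt_min (lt_min hη₀ hη₁) (lt_min hη₂ (by positivity)), ?_⟩
      intro y hy1 hy2
      have hyη₀ : ‖y - p‖ < η₀ := hy2.trans_le ((min_le_left _ _).trans (min_le_left _ _))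
      have hyη₁ : dist y p < η₁ := by
        rw [dist_eq_norm]
        exact hy2.trans_le ((min_le_left _ _).trans (min_le_right _ _))
      have hyη₂ : dist y p < η₂ := by
        rw [dist_eq_norm]
        exact hy2.trans_le ((min_le_right _ _).trans (min_le_left _ _))
      have hyε : ‖y - p‖ ≤ ε / 8 :=
        hy2.le.trans ((min_le_right _ _).trans (min_le_right _ _))
      have hd := hcont hyη₂
      rw [dist_eq_norm] at hd
      have hd1 : ‖Φ y - Φ p‖ ≤ 1 := hd.le.trans (min_le_left _ _)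
      have hd2 : ‖Φ y - Φ p‖ ≤ ε / 2 := hd.le.trans (min_le_right _ _)
      have hΦn : ‖Φ y‖ ≤ 2 := by
        have h1 : Φ y = (Φ y - Φ p) + Φ p := by abel
        rw [h1]
        refine (norm_add_le _ _).trans ?_
        linarith [hm.norm_Φ]
      refine ⟨rot Φ p y, ?_, rot_self (by rw [hself hyη₁, hy1]), fun v hv =>
        hdom y hy1 hyη₀ v (hv.trans_le (min_le_right _ _))⟩
      refine (norm_rot_sub_le hm.norm_p hm.norm_Φ hp1).trans ?_
      calc 2 * ‖Φ y‖ * ‖y - p‖ + ‖Φ y - Φ p‖ ≤ 2 * 2 * (ε / 8) + ε / 2 := by gcongr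
        _ = ε := by ring)
    (by positivity)
  refine ⟨a • T', normAttaining_smul hT' a, ?_⟩
  have h1 : a • T' - T = a • (T' - T₂) + (a • T₂ - T) := by rw [smul_sub]; abel
  rw [h1]
  refine (norm_add_le _ _).trans_lt ?_
  have h2 : ‖a • (T' - T₂)‖ < ρ / 2 := by
    rw [norm_smul, Real.norm_of_nonneg ha.le]
    calc a * ‖T' - T₂‖ < a * (ρ / (2 * a)) := by gcongr
      _ = ρ / 2 := by field_simp
  linarith

end Pool.Agent.Helper63.PropB.Red
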