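import Mathlib
import Pool.Agent.Helper63.PropB.Red.Model

/-!
A point of twice continuous differentiability and positive curvature of the norm is a model point.
-/

namespace Pool.Agent.Helper63.PropB.Red

open Set Metric Filter Topology

universe u v w

variable {Z : Type w} [NormedAddCommGroup Z] [NormedSpace ℝ Z]

theorem model_of_contDiffAt {p : Z} (hp : ‖p‖ = 1) (hC : ContDiffAt ℝ 2 (fun z : Z => ‖z‖) p)
    (hpos : ∀ h : Z, fderiv ℝ (fun z : Z => ‖z‖) p h = 0 → h ≠ 0 →
      0 < fderiv ℝ (fderiv ℝ (fun z : Z => ‖z‖)) p h h) :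
    Model p (fderiv ℝ (fun z : Z => ‖z‖)) (fderiv ℝ (fderiv ℝ (fun z : Z => ‖z‖)) p) := by
  set Φ : Z → Z →L[ℝ] ℝ := fderiv ℝ (fun z : Z => ‖z‖) with hΦ
  set G := fderiv ℝ Φ p with hG
  have hC1 : ContDiffAt ℝ 1 Φ p := hC.fderiv_right (by norm_num)
  have hstrict : HasStrictFDerivAt Φ G p := hC1.hasStrictFDerivAt (by norm_num)
  have hdiff : ∀ᶠ z in 𝓝 p, DifferentiableAt ℝ (fun z : Z => ‖z‖) z :=
    (hC.eventually (by simp)).mono fun z hz => hz.differentiableAt (by norm_num)
  have hlip : ∀ z, ‖Φ z‖ ≤ 1 := by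
    intro z
    have := norm_fderiv_le_of_lipschitz ℝ (f := fun z : Z => ‖z‖) (x₀ := z) lipschitzWith_one_norm
    simpa using this
  refine ⟨hp, hlip p, hC1.continuousAt, ?_, hpos, ?_, ?_, ?_⟩
  · exact hdiff.mono fun z hz => hz.fderiv_norm_self
  · intro h h'
    exact (hC.isSymmSndFDerivAt (by simp)) h h'
  · -- homogeneity of degree zero
    intro h
    have h1 : HasDerivAt (fun t : ℝ => Φ (p + t • p)) (G p) 0 :=
      (hstrict.hasFDerivAt.hasLineDerivAt p)
    have h2 : (fun t : ℝ => Φ (p + t • p)) =ᶠ[𝓝 0] fun _ => Φ p := by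
      have h3 : ∀ᶠ t : ℝ in 𝓝 0, -1 < t := eventually_gt_nhds (by norm_num)
      refine h3.mono fun t ht => ?_
      have h4 : p + t • p = (1 + t) • p := by module
      change Φ (p + t • p) = Φ p
      rw [h4]
      exact fderiv_norm_smul_pos (by linarith)
    have h3 : HasDerivAt (fun t : ℝ => Φ (p + t • p)) 0 0 :=
      (hasDerivAt_const (0 : ℝ) (Φ p)).congr_of_eventuallyEq h2
    rw [h1.unique h3]
    rfl
  · intro ε hε
    obtain ⟨r₁, hr₁, hd⟩ := Metric.eventually_nhds_iff.1 hdiff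
    have hs := hstrict.isLittleO.def hε
    obtain ⟨r₂, hr₂, hs⟩ := Metric.eventually_nhds_iff.1 hs
    refine ⟨min r₁ r₂ / 2, by positivity, ?_⟩
    intro y h hy hy1 hh hyh
    have hseg : ∀ s ∈ Icc (0 : ℝ) 1, ‖y + s • h - p‖ < min r₁ r₂ := by
      intro s hs0
      have h1 : y + s • h - p = (y - p) + s • h := by abel
      rw [h1]
      refine (norm_add_le _ _).trans_lt ?_
      rw [norm_smul, Real.norm_of_nonneg hs0.1]
      have h2 : s * ‖h‖ ≤ 1 * ‖h‖ := by gcongr; exact hs0.2
      linarith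
    set φ : ℝ → ℝ := fun s => ‖y + s • h‖ - 1 / 2 * s ^ 2 * G h h with hφ
    set φ' : ℝ → ℝ := fun s => Φ (y + s • h) h - s * G h h with hφ'
    have hderiv : ∀ s ∈ Icc (0 : ℝ) 1, HasDerivWithinAt φ (φ' s) (Icc 0 1) s := by
      intro s hs0
      have h1 : DifferentiableAt ℝ (fun z : Z => ‖z‖) (y + s • h) := by
        apply hd
        rw [dist_eq_norm]
        exact (hseg s hs0).trans_le (min_le_left _ _)
      have h2 : HasDerivAt (fun s : ℝ => y + s • h) h s := by
        have h3 := ((hasDerivAt_id s).smul_const h).const_add y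
        simpa using h3
      have h3 : HasDerivAt (fun s : ℝ => ‖y + s • h‖) (Φ (y + s • h) h) s :=
        h1.hasFDerivAt.comp_hasDerivAt s h2
      have h4 : HasDerivAt (fun s : ℝ => 1 / 2 * s ^ 2 * G h h) (s * G h h) s := by
        have h5 := (((hasDerivAt_pow 2 s).const_mul (1 / 2 : ℝ)).mul_const (G h h))
        refine h5.congr_deriv ?_
        norm_num
        left
        ring
      exact (h3.sub h4).hasDerivWithinAt
    have hbound : ∀ s ∈ Ico (0 : ℝ) 1, ‖φ' s‖ ≤ ε * ‖h‖ ^ 2 := by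
      intro s hs0
      have hs1 : s ∈ Icc (0 : ℝ) 1 := ⟨hs0.1, hs0.2.le⟩
      have h1 : dist (y + s • h, y) (p, p) < r₂ := by
        rw [Prod.dist_eq, dist_eq_norm, dist_eq_norm]
        refine max_lt ((hseg s hs1).trans_le (min_le_right _ _)) ?_
        have := hseg 0 ⟨le_rfl, zero_le_one⟩
        rw [zero_smul, add_zero] at this
        exact this.trans_le (min_le_right _ _)
      have h2 := hs h1
      simp only [add_sub_cancel_left] at h2
      have h3 : φ' s = (Φ (y + s • h) - Φ y - G (s • h)) h := by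
        rw [_root_.sub_apply, _root_.sub_apply, hyh, map_smul, smul_apply, smul_eq_mul, sub_zero]
      rw [h3]
      calc ‖(Φ (y + s • h) - Φ y - G (s • h)) h‖ ≤ ‖Φ (y + s • h) - Φ y - G (s • h)‖ * ‖h‖ :=
            ContinuousLinearMap.le_opNorm _ _
        _ ≤ ε * ‖s • h‖ * ‖h‖ := by gcongr
        _ ≤ ε * ‖h‖ * ‖h‖ := by
            rw [norm_smul, Real.norm_of_nonneg hs0.1]
            have : s * ‖h‖ ≤ 1 * ‖h‖ := by gcongr; exact hs0.2.le
            rw [one_mul] at this
            gcongr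
        _ = ε * ‖h‖ ^ 2 := by ring
    have hmain := norm_image_sub_le_of_norm_deriv_le_segment_01' hderiv hbound
    have h1 : φ 1 - φ 0 = ‖y + h‖ - 1 - 1 / 2 * G h h := by
      simp only [hφ, one_smul, zero_smul, add_zero, hy1]
      ring
    rw [h1, Real.norm_eq_abs] at hmain
    exact hmain

end Pool.Agent.Helper63.PropB.Red
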