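import Mathlib
import Pool.Agent.Helper63.PropB.Red.Smooth

/-!
Property B for all spaces of dimension at most `n` from property B of one space of dimension `n`
whose norm has a point of positive curvature; the Euclidean case.
-/

namespace Pool.Agent.Helper63.PropB.Red

open Set Metric Filter Topology

universe u v w

section euclid

variable {E : Type*} [NormedAddCommGroup E] [InnerProductSpace ℝ E]

theorem hasFDerivAt_norm_inner {x : E} (hx : x ≠ 0) :
    HasFDerivAt (fun z : E => ‖z‖) (‖x‖⁻¹ • innerSL ℝ x) x := by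
  have hx' : 0 < ‖x‖ := norm_pos_iff.2 hx
  have h1 := (hasStrictFDerivAt_norm_sq x).hasFDerivAt.sqrt (by positivity)
  have h2 : (fun y : E => √(‖y‖ ^ 2)) = fun y => ‖y‖ := by
    ext y; exact Real.sqrt_sq (norm_nonneg y)
  rw [h2, Real.sqrt_sq hx'.le] at h1
  refine h1.congr_fderiv ?_
  ext z
  simp only [smul_apply, smul_eq_mul, nsmul_eq_mul]
  push_cast
  field_simp

theorem euclid_curvature {p : E} (hp : ‖p‖ = 1) {h : E}
    (hh : fderiv ℝ (fun z : E => ‖z‖) p h = 0) (h0 : h ≠ 0) :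
    0 < fderiv ℝ (fderiv ℝ (fun z : E => ‖z‖)) p h h := by
  have hp0 : p ≠ 0 := by
    intro hcon
    rw [hcon, norm_zero] at hp
    exact zero_ne_one hp
  set Φ : E → E →L[ℝ] ℝ := fderiv ℝ (fun z : E => ‖z‖) with hΦ
  have hC : ContDiffAt ℝ 2 (fun z : E => ‖z‖) p := contDiffAt_norm ℝ hp0
  have hC1 : ContDiffAt ℝ 1 Φ p := hC.fderiv_right (by norm_num)
  have hΦd : HasFDerivAt Φ (fderiv ℝ Φ p) p := (hC1.differentiableAt (by norm_num)).hasFDerivAt
  have hΦe : ∀ x : E, x ≠ 0 → Φ x = ‖x‖⁻¹ • innerSL ℝ x := fun x hx =>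
    (hasFDerivAt_norm_inner hx).fderiv
  have hph : inner ℝ p h = 0 := by
    rw [hΦe p hp0, hp, inv_one, one_smul] at hh
    exact hh
  have hline : HasDerivAt (fun s : ℝ => p + s • h) h 0 := by
    have h3 := ((hasDerivAt_id (0 : ℝ)).smul_const h).const_add p
    simpa using h3
  have h1 : HasDerivAt (fun s : ℝ => Φ (p + s • h) h) (fderiv ℝ Φ p h h) 0 := by
    have h2 : HasDerivAt (fun s : ℝ => Φ (p + s • h)) (fderiv ℝ Φ p h) 0 := by
      have h3 : HasFDerivAt Φ (fderiv ℝ Φ p) (p + (0 : ℝ) • h) := by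
        rw [zero_smul, add_zero]; exact hΦd
      exact h3.comp_hasDerivAt (0 : ℝ) hline
    have h4 := h2.clm_apply (hasDerivAt_const (0 : ℝ) h)
    simpa using h4
  have h2 : HasDerivAt (fun s : ℝ => ‖p + s • h‖⁻¹ * (s * ‖h‖ ^ 2)) (‖h‖ ^ 2) 0 := by
    have h3 : HasDerivAt (fun s : ℝ => ‖p + s • h‖) (Φ p h) 0 := by
      have h4 : HasFDerivAt (fun z : E => ‖z‖) (Φ p) (p + (0 : ℝ) • h) := by
        rw [zero_smul, add_zero]
        exact (hC.differentiableAt (by norm_num)).hasFDerivAt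
      exact h4.comp_hasDerivAt (0 : ℝ) hline
    have h4 := h3.inv (by rw [zero_smul, add_zero, hp]; exact one_ne_zero)
    have h5 := h4.mul ((hasDerivAt_id (0 : ℝ)).mul_const (‖h‖ ^ 2))
    refine h5.congr_deriv ?_
    simp [hp]
  have h3 : (fun s : ℝ => Φ (p + s • h) h) =ᶠ[𝓝 0] fun s => ‖p + s • h‖⁻¹ * (s * ‖h‖ ^ 2) := by
    have h4 : ∀ᶠ s : ℝ in 𝓝 0, p + s • h ≠ 0 := by
      have h5 : ContinuousAt (fun s : ℝ => p + s • h) 0 := hline.continuousAt
      have h6 : p + (0 : ℝ) • h ≠ 0 := by rw [zero_smul, add_zero]; exact hp0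
      exact h5.eventually_ne h6
    refine h4.mono fun s hs => ?_
    change Φ (p + s • h) h = _
    rw [hΦe _ hs, smul_apply, smul_eq_mul, innerSL_apply_apply, inner_add_left, hph, zero_add,
      real_inner_smul_left, real_inner_self_eq_norm_sq]
  have h4 : fderiv ℝ Φ p h h = ‖h‖ ^ 2 := h1.unique (h2.congr_of_eventuallyEq h3)
  rw [h4]
  have : 0 < ‖h‖ := norm_pos_iff.2 h0
  positivity

end euclid

variable {X : Type u} [NormedAddCommGroup X] [NormedSpace ℝ X]
variable {Y : Type v} [NormedAddCommGroup Y] [NormedSpace ℝ Y]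
variable {Z : Type w} [NormedAddCommGroup Z] [NormedSpace ℝ Z]

/-- Density of the norm attaining operators passes from `Y × W` to `Y`. -/
theorem dense_of_prod [Nontrivial X] {W : Type*} [NormedAddCommGroup W] [NormedSpace ℝ W]
    (h : Dense {T : X →L[ℝ] Y × W | NormAttaining T}) : Dense {T : X →L[ℝ] Y | NormAttaining T} := by
  rw [Metric.dense_iff]
  intro T r hr
  rcases eq_or_ne T 0 with h0 | h0
  · subst h0
    obtain ⟨x, hx⟩ := exists_norm_eq X (zero_le_one)
    exact ⟨0, mem_ball_self hr, x, hx, by simp⟩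
  have hTpos : 0 < ‖T‖ := norm_pos_iff.2 h0
  obtain ⟨S, hS, x, hx, hatt⟩ := (Metric.dense_iff.1 h) (T.prod (0 : X →L[ℝ] W))
    (min r (‖T‖ / 2)) (lt_min hr (by positivity))
  rw [mem_ball, dist_eq_norm] at hS
  obtain ⟨D, hD⟩ : ∃ D : X →L[ℝ] Y × W, D = S - T.prod (0 : X →L[ℝ] W) := ⟨_, rfl⟩
  rw [← hD] at hS
  set A : X →L[ℝ] Y := (ContinuousLinearMap.fst ℝ Y W).comp S with hA
  have hSx : ∀ z, S z = (A z, (S z).2) := fun z => rfl
  have hDz : ∀ z, D z = (A z - T z, (S z).2) := by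
    intro z
    rw [hD, _root_.sub_apply]
    change ((S z).1 - T z, (S z).2 - (0 : W)) = _
    rw [sub_zero]
    rfl
  have hAT : ‖A - T‖ ≤ ‖D‖ := by
    refine ContinuousLinearMap.opNorm_le_bound _ (norm_nonneg _) (fun z => ?_)
    calc ‖(A - T) z‖ = ‖(D z).1‖ := by rw [hDz]; rfl
      _ ≤ ‖D z‖ := norm_fst_le _
      _ ≤ _ := ContinuousLinearMap.le_opNorm _ _
  have hB : ∀ z, ‖(S z).2‖ ≤ ‖D‖ * ‖z‖ := by
    intro z
    calc ‖(S z).2‖ = ‖(D z).2‖ := by rw [hDz]
      _ ≤ ‖D z‖ := norm_snd_le _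
      _ ≤ _ := ContinuousLinearMap.le_opNorm _ _
  have h1 : ‖T‖ ≤ ‖A‖ + ‖A - T‖ := by
    have : T = A - (A - T) := by abel
    calc ‖T‖ = ‖A - (A - T)‖ := by rw [← this]
      _ ≤ _ := norm_sub_le _ _
  have h2 : ‖D‖ < ‖T‖ / 2 := hS.trans_le (min_le_right _ _)
  have hAS : ‖A‖ ≤ ‖S‖ := by
    refine ContinuousLinearMap.opNorm_le_bound _ (norm_nonneg _) (fun z => ?_)
    calc ‖A z‖ = ‖(S z).1‖ := rfl
      _ ≤ ‖S z‖ := norm_fst_le _
      _ ≤ _ := S.le_opNorm z
  refine ⟨A, ?_, x, hx, ?_⟩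
  · rw [mem_ball, dist_eq_norm]
    exact hAT.trans_lt (hS.trans_le (min_le_left _ _))
  · have h3 := hB x
    rw [hx, mul_one] at h3
    have h4 : ‖S x‖ = max ‖A x‖ ‖(S x).2‖ := rfl
    have h5 : ‖A x‖ = ‖S‖ := by
      rw [← hatt, h4]
      refine (max_eq_left ?_).symm
      by_contra hcon
      push Not at hcon
      rw [max_eq_right hcon.le] at h4
      rw [h4] at hatt
      linarith
    refine le_antisymm ?_ (by rw [h5]; exact hAS)
    calc ‖A x‖ ≤ ‖A‖ * ‖x‖ := A.le_opNorm x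
      _ = ‖A‖ := by rw [hx, mul_one]

/-- One space with a point of positive curvature controls all spaces of at most its dimension. -/
theorem dense_of_curved [Nontrivial X] [FiniteDimensional ℝ Z] {p : Z} (hp : ‖p‖ = 1)
    (hC : ContDiffAt ℝ 2 (fun z : Z => ‖z‖) p)
    (hpos : ∀ h : Z, fderiv ℝ (fun z : Z => ‖z‖) p h = 0 → h ≠ 0 →
      0 < fderiv ℝ (fderiv ℝ (fun z : Z => ‖z‖)) p h h)
    (hZ : ∀ (X₁ : Type u) [NormedAddCommGroup X₁] [NormedSpace ℝ X₁], (X₁ ≃L[ℝ] X) →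
      Dense {T : X₁ →L[ℝ] Z | NormAttaining T})
    [FiniteDimensional ℝ Y] (hdim : Module.finrank ℝ Y ≤ Module.finrank ℝ Z) :
    Dense {T : X →L[ℝ] Y | NormAttaining T} := by
  apply dense_of_prod (W := Fin (Module.finrank ℝ Z - Module.finrank ℝ Y) → ℝ)
  have hdim' : Module.finrank ℝ (Y × (Fin (Module.finrank ℝ Z - Module.finrank ℝ Y) → ℝ))
      = Module.finrank ℝ Z := by
    rw [Module.finrank_prod, Module.finrank_fin_fun]
    omega
  rw [Metric.dense_iff]
  intro T r hr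
  obtain ⟨T', hT', hclose⟩ := approx_of_model (model_of_contDiffAt hp hC hpos) hdim'
    (fun S => hZ (Ren S) (Ren.equiv S)) T hr
  exact ⟨T', by rw [mem_ball, dist_eq_norm]; exact hclose, hT'⟩

theorem dense_of_subsingleton [Nontrivial X] [Subsingleton Y] :
    Dense {T : X →L[ℝ] Y | NormAttaining T} := by
  intro T
  apply subset_closure
  obtain ⟨x, hx⟩ := exists_norm_eq X (zero_le_one)
  have h0 : T = 0 := by ext z; exact Subsingleton.elim _ _
  refine ⟨x, hx, ?_⟩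
  rw [h0]
  simp

/-- The Euclidean space of dimension `n` controls all spaces of dimension at most `n`. -/
theorem dense_of_euclid [Nontrivial X] (n : ℕ)
    (hZ : ∀ (X₁ : Type u) [NormedAddCommGroup X₁] [NormedSpace ℝ X₁], (X₁ ≃L[ℝ] X) →
      Dense {T : X₁ →L[ℝ] EuclideanSpace ℝ (Fin n) | NormAttaining T})
    [FiniteDimensional ℝ Y] (hdim : Module.finrank ℝ Y ≤ n) :
    Dense {T : X →L[ℝ] Y | NormAttaining T} := by
  rcases n.eq_zero_or_pos with hn | hn
  · have h1 : Module.finrank ℝ Y = 0 := by omega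
    have : Subsingleton Y := Module.finrank_zero_iff.1 h1
    exact dense_of_subsingleton
  · set p : EuclideanSpace ℝ (Fin n) := EuclideanSpace.single ⟨0, hn⟩ 1 with hp
    have hp1 : ‖p‖ = 1 := by simp [hp]
    have hp0 : p ≠ 0 := by
      intro hcon
      rw [hcon, norm_zero] at hp1
      exact zero_ne_one hp1
    refine dense_of_curved hp1 (contDiffAt_norm ℝ hp0) (fun h hh h0 => euclid_curvature hp1 hh h0)
      hZ ?_
    rw [finrank_euclideanSpace, Fintype.card_fin]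
    exact hdim

end Pool.Agent.Helper63.PropB.Red
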